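import Pool.Agent.H8.KS6.BoxT

/-!
# The contexts of the case of one-dimensional fans

`F.ctx σ w r U P a s t` is the context `B(w; r, U, P)`: the window `w`, the triangular frame
`(a, s, t)`, the position to `(r, U, P)` digits, the velocity to `(r - w, U - w, P - w)` digits.
The frame has the precisions `U - r` for `a`, `P - U` for `s`, `P - r` for the combination
`t + s a`.

(C1) conserved, (C2) visible, (C3) nested at the exact time, (C4) nested for fixed velocities,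
(C5) the slopes of two windows. The static box is the cell of the position at the exact time.
-/

set_option autoImplicit false

namespace Pool.KA

open Finset Real
open Pool.Agent.H49.Ent Pool.Agent.H32.Dense Pool.STK Pool.K2S

variable {J : ℕ}

/-- The precisions of the velocity. -/
def vpr (w r U P : ℕ) (i : Fin 3) : ℕ := ![r - w, U - w, P - w] i

/-- The precisions of the position. -/
def ppr (r U P : ℕ) (i : Fin 3) : ℕ := ![r, U, P] i

/-- The context `B(w; r, U, P)`. -/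
noncomputable def Fam.ctx (F : Fam 3 J) (σ : Fin 3 → Fin 3) (w r U P : ℕ) (a s t : F.Ω → ℝ) :=
  F.blb w (vpr w r U P) (fun o => tfr σ (a o) (s o) (t o))

/-- The static box: frame and cell of the position at the time of the sample. -/
noncomputable def Fam.sbx (F : Fam 3 J) (σ : Fin 3 → Fin 3) (r U P : ℕ) (a s t : F.Ω → ℝ)
    (ω : F.Ω) : (ℝ × ℝ × ℝ) × (Fin 3 → ℤ) :=
  ((a ω, s ω, t ω), flk (ppr r U P) (mco (tfr σ (a ω) (s ω) (t ω)) (F.x ω)))

/-- Two frames differ by less than the precisions `(r, U, P)`. -/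
def Fnr (r U P : ℕ) (D a s t a' s' t' : ℝ) : Prop :=
  |a' - a| ≤ D * 2 ^ r / 2 ^ U ∧ |s' - s| ≤ D * 2 ^ U / 2 ^ P ∧
    |(t' - t) + (s' - s) * a| ≤ D * 2 ^ r / 2 ^ P

namespace Box

theorem vpr_add {w r U P : ℕ} (hr : w ≤ r) (hU : w ≤ U) (hP : w ≤ P) (i : Fin 3) :
    vpr w r U P i + w = ppr r U P i := by
  fin_cases i
  · exact Nat.sub_add_cancel hr
  · exact Nat.sub_add_cancel hU
  · exact Nat.sub_add_cancel hP

section near

variable {r U P r' U' P' : ℕ} {D D' a s t a' s' t' a'' s'' t'' : ℝ}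

theorem _root_.Pool.KA.Fnr.mono (h : Fnr r U P D a s t a' s' t') (hD : D ≤ D') :
    Fnr r U P D' a s t a' s' t' := by
  obtain ⟨h1, h2, h3⟩ := h
  refine ⟨h1.trans ?_, h2.trans ?_, h3.trans ?_⟩ <;>
  exact div_le_div_of_nonneg_right (mul_le_mul_of_nonneg_right hD (by positivity))
    (by positivity)

theorem _root_.Pool.KA.Fnr.refl (hD : 0 ≤ D) : Fnr r U P D a s t a s t := by
  refine ⟨?_, ?_, ?_⟩ <;> · simp only [sub_self, zero_mul, add_zero, abs_zero]; positivity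

/-- The relation is almost symmetric. -/
theorem _root_.Pool.KA.Fnr.symm (h : Fnr r U P D a s t a' s' t') (hD : 0 ≤ D) :
    Fnr r U P (D + D * D) a' s' t' a s t := by
  obtain ⟨h1, h2, h3⟩ := h
  refine ⟨?_, ?_, ?_⟩
  · rw [abs_sub_comm]
    refine h1.trans (div_le_div_of_nonneg_right (mul_le_mul_of_nonneg_right ?_ (by positivity))
      (by positivity))
    nlinarith only
  · rw [abs_sub_comm]
    refine h2.trans (div_le_div_of_nonneg_right (mul_le_mul_of_nonneg_right ?_ (by positivity))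
      (by positivity))
    nlinarith only
  · have e1 : (t - t') + (s - s') * a' = -((t' - t) + (s' - s) * a) - (s' - s) * (a' - a) := by
      ring
    rw [e1]
    refine (abs_sub _ _).trans ?_
    rw [abs_neg, abs_mul]
    have h4 : |s' - s| * |a' - a| ≤ D * 2 ^ U / 2 ^ P * (D * 2 ^ r / 2 ^ U) :=
      mul_le_mul h2 h1 (abs_nonneg _) (by positivity)
    have h5 : D * 2 ^ U / 2 ^ P * (D * 2 ^ r / 2 ^ U) = D * D * 2 ^ r / (2 : ℝ) ^ P := by
      have : (2 : ℝ) ^ U ≠ 0 := by positivity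
      field_simp
    have h6 : (D + D * D) * 2 ^ r / (2 : ℝ) ^ P = D * 2 ^ r / 2 ^ P + D * D * 2 ^ r / 2 ^ P := by
      ring
    rw [h6]
    linarith only [h3, h4, h5]

/-- The relation is almost transitive. -/
theorem _root_.Pool.KA.Fnr.trans (h : Fnr r U P D a s t a' s' t')
    (h' : Fnr r U P D' a' s' t' a'' s'' t'') (hD : 0 ≤ D) (hD' : 0 ≤ D') :
    Fnr r U P (D + D' + D * D') a s t a'' s'' t'' := by
  obtain ⟨h1, h2, h3⟩ := h
  obtain ⟨g1, g2, g3⟩ := h'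
  have hDD : 0 ≤ D * D' := mul_nonneg hD hD'
  refine ⟨?_, ?_, ?_⟩
  · have e1 : a'' - a = (a' - a) + (a'' - a') := by ring
    rw [e1]
    refine (abs_add_le _ _).trans ((add_le_add h1 g1).trans ?_)
    rw [← add_div, ← add_mul]
    exact div_le_div_of_nonneg_right (mul_le_mul_of_nonneg_right (by linarith only [hDD]) (by positivity))
      (by positivity)
  · have e1 : s'' - s = (s' - s) + (s'' - s') := by ring
    rw [e1]
    refine (abs_add_le _ _).trans ((add_le_add h2 g2).trans ?_)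
    rw [← add_div, ← add_mul]
    exact div_le_div_of_nonneg_right (mul_le_mul_of_nonneg_right (by linarith only [hDD]) (by positivity))
      (by positivity)
  · have e1 : (t'' - t) + (s'' - s) * a = ((t' - t) + (s' - s) * a) +
        ((t'' - t') + (s'' - s') * a') - (s'' - s') * (a' - a) := by ring
    rw [e1]
    refine (abs_sub _ _).trans ?_
    rw [abs_mul]
    have h4 : |s'' - s'| * |a' - a| ≤ D' * 2 ^ U / 2 ^ P * (D * 2 ^ r / 2 ^ U) :=
      mul_le_mul g2 h1 (abs_nonneg _) (by positivity)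
    have h5 : D' * 2 ^ U / 2 ^ P * (D * 2 ^ r / 2 ^ U) = D * D' * 2 ^ r / (2 : ℝ) ^ P := by
      have : (2 : ℝ) ^ U ≠ 0 := by positivity
      field_simp
    have h6 : (D + D' + D * D') * 2 ^ r / (2 : ℝ) ^ P =
        D * 2 ^ r / 2 ^ P + D' * 2 ^ r / 2 ^ P + D * D' * 2 ^ r / 2 ^ P := by
      ring
    rw [h6]
    have h7 := (abs_add_le ((t' - t) + (s' - s) * a) ((t'' - t') + (s'' - s') * a')).trans
      (add_le_add h3 g3)
    linarith only [h4, h5, h7]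

end near

theorem pow_le_div {D : ℝ} (hD : 0 ≤ D) {x y x' y' : ℕ} (h : x + y' ≤ x' + y) :
    D * 2 ^ x / (2 : ℝ) ^ y ≤ D * 2 ^ x' / 2 ^ y' := by
  rw [div_le_div_iff₀ (by positivity) (by positivity), mul_assoc, mul_assoc, ← pow_add, ← pow_add]
  exact mul_le_mul_of_nonneg_left (pow_le_pow_right₀ (by norm_num) h) hD

theorem tfr_eq {σ : Fin 3 → Fin 3} (hσ : Function.Injective σ) {a s t a' s' t' : ℝ}
    (h : tfr σ a s t = tfr σ a' s' t') : a = a' ∧ s = s' ∧ t = t' := by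
  have h01 : σ 0 ≠ σ 1 := fun h => by have := hσ h; simp at this
  have h02 : σ 0 ≠ σ 2 := fun h => by have := hσ h; simp at this
  have h12 : σ 1 ≠ σ 2 := fun h => by have := hσ h; simp at this
  have e1 := congrFun (congrFun h 1) (σ 0)
  have e2 := congrFun (congrFun h 2) (σ 1)
  have e3 := congrFun (congrFun h 2) (σ 0)
  simp [tfr, h01, h02, h12, h01.symm] at e1 e2 e3
  exact ⟨e1, e2, e3⟩

section ctx

variable {F : Fam 3 J} {p : F.Ω → ℝ} {σ : Fin 3 → Fin 3} {a s t a' s' t' : F.Ω → ℝ}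

/-- Components of equal contexts. -/
theorem ctx_ext (hσ : Function.Injective σ) {w r U P : ℕ} {ω ω' : F.Ω}
    (h : F.ctx σ w r U P a s t ω = F.ctx σ w r U P a s t ω') :
    F.T1 w ω = F.T1 w ω' ∧ (a ω = a ω' ∧ s ω = s ω' ∧ t ω = t ω') ∧ F.Z ω = F.Z ω' := by
  obtain ⟨h1, h2, h3, h4, h5⟩ := mlb_ext (F := F) (g := w)
    (M := fun o => tfr σ (a o) (s o) (t o)) h
  exact ⟨h1, tfr_eq hσ h2, h5⟩

/-- **(C1)** The context is a function of the line, the window and the side information, if the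
frame is one. -/
theorem ctx_det {w r U P : ℕ} {ω ω' : F.Ω} (h : Pool.KSAT.slam F w ω = Pool.KSAT.slam F w ω')
    (ha : a ω = a ω') (hs : s ω = s ω') (ht : t ω = t ω') :
    F.ctx σ w r U P a s t ω = F.ctx σ w r U P a s t ω' := by
  have h1 : F.l ω = F.l ω' := (Prod.ext_iff.mp h).1
  have h2 := Prod.ext_iff.mp (Prod.ext_iff.mp h).2
  have h3 : F.Z ω = F.Z ω' := h2.1
  have h4 : F.T1 w ω = F.T1 w ω' := h2.2
  refine (label_det F (M := fun o => tfr σ (a o) (s o) (t o)) h1 h4 ?_ h3).1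
  change tfr σ (a ω) (s ω) (t ω) = tfr σ (a ω') (s ω') (t ω')
  rw [ha, hs, ht]

/-- **(C2)** The context is visible: it is a function of the exact point, of `r - w` digits of the
base velocity and of the frame, up to a bounded number of values. `(α, s₀, t₀)` is the frame at the
exact points: the fans are straight in it to `U - w` and `P - w` digits. -/
theorem CH_ctx_of_pt {S : Type} (hp : IsLaw p) {w r U P : ℕ} (hw : w ≤ J) (hr : w ≤ r)
    (hU : w ≤ U) (hP : w ≤ P) (hrJ : r ≤ J) (hUJ : U ≤ J) (hPJ : P ≤ J)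
    {α s₀ t₀ : F.Ω → ℝ} {B D : ℝ} (hB : 1 ≤ B) (hD : 1 ≤ D)
    (hb : ∀ ω, 0 < p ω → |α ω| ≤ B ∧ |s₀ ω| ≤ B ∧ |t₀ ω| ≤ B)
    (hn : ∀ ω, 0 < p ω → Fnr r U P D (α ω) (s₀ ω) (t₀ ω) (a ω) (s ω) (t ω))
    (W : F.Ω → S) (hW : ∀ ω ω', 0 < p ω → 0 < p ω' → W ω = W ω' →
      F.X J ω = F.X J ω' ∧ F.W ω = F.W ω' ∧ (α ω = α ω' ∧ s₀ ω = s₀ ω' ∧ t₀ ω = t₀ ω') ∧
      (a ω = a ω' ∧ s ω = s ω' ∧ t ω = t ω') ∧
      |F.d ω (σ 0) - F.d ω' (σ 0)| ≤ B / 2 ^ (r - w) ∧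
      |(F.d ω (σ 1) - α ω * F.d ω (σ 0)) - (F.d ω' (σ 1) - α ω * F.d ω' (σ 0))| ≤
        B / 2 ^ (U - w) ∧
      |(F.d ω (σ 2) - s₀ ω * F.d ω (σ 1) - t₀ ω * F.d ω (σ 0)) -
        (F.d ω' (σ 2) - s₀ ω * F.d ω' (σ 1) - t₀ ω * F.d ω' (σ 0))| ≤ B / 2 ^ (P - w)) :
    CH p (F.ctx σ w r U P a s t) W ≤
      2 * ((3 : ℕ) * Real.log (2 * ((3 : ℕ) * D * (2 * ((3 : ℕ) * (3 * B) + (3 * B)))) + 3)) := by
  have hB0 : 0 ≤ B := by linarith only [hB]
  have tb : ∀ ω, 0 < p ω → ∀ i j, |tfr σ (α ω) (s₀ ω) (t₀ ω) i j| ≤ 3 * B := by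
    intro ω hω i j
    obtain ⟨b1, b2, b3⟩ := hb ω hω
    have i1 : ∀ k : Fin 3, |(if j = σ k then (1 : ℝ) else 0)| ≤ 1 := by
      intro k
      split_ifs <;> simp
    have i2 : ∀ (x : ℝ) (k : Fin 3), |x| ≤ B → |x * (if j = σ k then (1 : ℝ) else 0)| ≤ B := by
      intro x k hx
      rw [abs_mul]
      calc |x| * |(if j = σ k then (1 : ℝ) else 0)| ≤ B * 1 :=
            mul_le_mul hx (i1 k) (abs_nonneg _) hB0
        _ = B := mul_one B
    fin_cases i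
    · change |(if j = σ 0 then (1 : ℝ) else 0)| ≤ _
      have := i1 0
      linarith only [hB, this]
    · change |(if j = σ 1 then (1 : ℝ) else 0) - α ω * (if j = σ 0 then (1 : ℝ) else 0)| ≤ _
      refine (abs_sub _ _).trans ?_
      have h1 := i1 1
      have h2 := i2 (α ω) 0 b1
      linarith only [hB, h1, h2]
    · change |(if j = σ 2 then (1 : ℝ) else 0) - s₀ ω * (if j = σ 1 then (1 : ℝ) else 0) -
        t₀ ω * (if j = σ 0 then (1 : ℝ) else 0)| ≤ _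
      refine (abs_sub _ _).trans ?_
      have h1 := i1 2
      have h2 := i2 (s₀ ω) 1 b2
      have h3 := i2 (t₀ ω) 0 b3
      have h4 := abs_sub (if j = σ 2 then (1 : ℝ) else 0) (s₀ ω * (if j = σ 1 then (1 : ℝ) else 0))
      linarith only [hB, h1, h2, h3, h4]
  refine CH_mlb_of_pt (F := F) (k := fun i => vpr w r U P i + w) (c := vpr w r U P)
    (h := vpr w r U P) (r := ppr r U P) (N := fun o => tfr σ (α o) (s₀ o) (t₀ o))
    (M := fun o => tfr σ (a o) (s o) (t o)) (B := 3 * B) (D := D) hp hw (by linarith only [hB])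
    (by linarith only [hD]) tb ?_ ?_ ?_ W ?_
  · intro i
    fin_cases i
    · exact hrJ
    · exact hUJ
    · exact hPJ
  · intro i
    rw [vpr_add hr hU hP]
  · intro ω hω
    refine ⟨_, cg_tfr σ (α ω) (s₀ ω) (t₀ ω) (a ω) (s ω) (t ω), ?_, ?_⟩
    · intro i j
      have e : vpr w r U P i + w = ppr r U P i := vpr_add hr hU hP i
      rw [e]
      obtain ⟨n1, n2, n3⟩ := hn ω hω
      exact tch_le hD le_rfl le_rfl le_rfl n1 n2 n3 i j
    · obtain ⟨n1, n2, n3⟩ := hn ω hω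
      refine tch_le hD le_rfl le_rfl le_rfl (n1.trans ?_) (n2.trans ?_) (n3.trans ?_)
      · exact pow_le_div (by linarith only [hD]) (by change r + (U - w) ≤ r - w + U; omega)
      · exact pow_le_div (by linarith only [hD]) (by change U + (P - w) ≤ U - w + P; omega)
      · exact pow_le_div (by linarith only [hD]) (by change r + (P - w) ≤ r - w + P; omega)
  · intro ω ω' hω hω' h
    obtain ⟨b1, b2, ⟨b3, b4, b5⟩, ⟨b6, b7, b8⟩, b9, b10, b11⟩ := hW ω ω' hω hω' h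
    refine ⟨b1, b2, ?_, ?_, ?_⟩
    · change tfr σ (α ω) (s₀ ω) (t₀ ω) = tfr σ (α ω') (s₀ ω') (t₀ ω')
      rw [b3, b4, b5]
    · change tfr σ (a ω) (s ω) (t ω) = tfr σ (a ω') (s ω') (t ω')
      rw [b6, b7, b8]
    · intro i
      have k1 : ∀ n : ℕ, B / (2 : ℝ) ^ n ≤ 3 * B / 2 ^ n := fun n =>
        div_le_div_of_nonneg_right (by linarith only [hB]) (by positivity)
      fin_cases i
      · change |mco (tfr σ (α ω) (s₀ ω) (t₀ ω)) (F.d ω) 0 -
          mco (tfr σ (α ω) (s₀ ω) (t₀ ω)) (F.d ω') 0| ≤ 3 * B / 2 ^ (r - w)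
        rw [mco_tfr0, mco_tfr0]
        exact b9.trans (k1 _)
      · change |mco (tfr σ (α ω) (s₀ ω) (t₀ ω)) (F.d ω) 1 -
          mco (tfr σ (α ω) (s₀ ω) (t₀ ω)) (F.d ω') 1| ≤ 3 * B / 2 ^ (U - w)
        rw [mco_tfr1, mco_tfr1]
        exact b10.trans (k1 _)
      · change |mco (tfr σ (α ω) (s₀ ω) (t₀ ω)) (F.d ω) 2 -
          mco (tfr σ (α ω) (s₀ ω) (t₀ ω)) (F.d ω') 2| ≤ 3 * B / 2 ^ (P - w)
        rw [mco_tfr2, mco_tfr2]
        exact b11.trans (k1 _)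

/-- **(C3)** Fixed rows: the context of the shorter window `w'` from the context of the longer
window `w ≤ w'`, if all the precisions decrease. -/
theorem CH_ctx_rows {S : Type} (hp : IsLaw p) {w r U P w' r' U' P' : ℕ} {D : ℝ} (hw' : w' ≤ J)
    (hww : w ≤ w') (hD : 1 ≤ D) (hr : w' ≤ r') (hU : w' ≤ U') (hP : w' ≤ P') (hrr : r' ≤ r)
    (hUU : U' ≤ U) (hPP : P' ≤ P)
    (hn : ∀ ω, 0 < p ω → |a' ω - a ω| ≤ D * 2 ^ r / 2 ^ U' ∧ |s' ω - s ω| ≤ D * 2 ^ U / 2 ^ P' ∧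
      |(t' ω - t ω) + (s' ω - s ω) * a ω| ≤ D * 2 ^ r / 2 ^ P')
    (W : F.Ω → S) (hW : ∀ ω ω', 0 < p ω → 0 < p ω' → W ω = W ω' →
      F.ctx σ w r U P a s t ω = F.ctx σ w r U P a s t ω' ∧ F.T1 w' ω = F.T1 w' ω' ∧
      a' ω = a' ω' ∧ s' ω = s' ω' ∧ t' ω = t' ω') :
    CH p (F.ctx σ w' r' U' P' a' s' t') W ≤ 2 * ((3 : ℕ) * Real.log (12 * D + 3)) := by
  have e1 := vpr_add (w := w) (r := r) (U := U) (P := P) (by omega) (by omega) (by omega)
  have e2 := vpr_add (w := w') (r := r') (U := U') (P := P') hr hU hP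
  refine CH_blb_rows (a := a) (s := s) (t := t) hp hw' hww hD ?_ ?_ ?_ ?_ W hW
  · intro i
    rw [e1, e2]
    fin_cases i
    · exact hrr
    · exact hUU
    · exact hPP
  · intro ω hω
    rw [e1, e2]
    exact (hn ω hω).1
  · intro ω hω
    rw [e1, e2]
    exact (hn ω hω).2.1
  · intro ω hω
    rw [e1, e2]
    exact (hn ω hω).2.2

/-- **(C4)** Fixed velocities: the context of the longer window `w' ≤ w` from the context of the
window `w`, if the precisions of the velocity decrease. -/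
theorem CH_ctx_vel {S : Type} (hp : IsLaw p) {w r U P w' r' U' P' : ℕ} {D : ℝ} (hw : w ≤ J)
    (hww : w' ≤ w) (hD : 1 ≤ D) (hrr : r' - w' ≤ r - w) (hUU : U' - w' ≤ U - w)
    (hPP : P' - w' ≤ P - w)
    (hn : ∀ ω, 0 < p ω → |a' ω - a ω| ≤ D * 2 ^ (r - w) / 2 ^ (U' - w') ∧
      |s' ω - s ω| ≤ D * 2 ^ (U - w) / 2 ^ (P' - w') ∧
      |(t' ω - t ω) + (s' ω - s ω) * a ω| ≤ D * 2 ^ (r - w) / 2 ^ (P' - w'))
    (W : F.Ω → S) (hW : ∀ ω ω', 0 < p ω → 0 < p ω' → W ω = W ω' →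
      F.ctx σ w r U P a s t ω = F.ctx σ w r U P a s t ω' ∧
      a' ω = a' ω' ∧ s' ω = s' ω' ∧ t' ω = t' ω') :
    CH p (F.ctx σ w' r' U' P' a' s' t') W ≤ 2 * ((3 : ℕ) * Real.log (12 * D + 3)) := by
  refine CH_blb_vel (a := a) (s := s) (t := t) hp hw hww hD ?_ (fun ω hω => (hn ω hω).1)
    (fun ω hω => (hn ω hω).2.1) (fun ω hω => (hn ω hω).2.2) W hW
  intro i
  fin_cases i
  · exact hrr
  · exact hUU
  · exact hPP

/-! ### The static box -/

/-- Cells of the position at the exact time in a frame. -/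
theorem CH_cell_pos {m : ℕ} {F : Fam m J} {p : F.Ω → ℝ} {S : Type} (hp : IsLaw p)
    {k : Fin m → ℕ} {M : F.Ω → Fin m → Fin m → ℝ} {C : ℝ} (W : F.Ω → S)
    (hW : ∀ ω ω', 0 < p ω → 0 < p ω' → W ω = W ω' → M ω = M ω' ∧
      ∀ i, |mco (M ω) (F.x ω) i - mco (M ω) (F.x ω') i| ≤ C / 2 ^ k i) :
    CH p (fun ω => flk k (mco (M ω) (F.x ω))) W ≤ m * Real.log (2 * C + 3) := by
  have e7 : 2 * (C + 1) + 1 = 2 * C + 3 := by ring
  rw [← e7]
  refine Lab.CH_fin_const hp _ W ?_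
  intro ω ω' hω hω' h i
  obtain ⟨b1, b2⟩ := hW ω ω' hω hω' h
  have key := floor_near (b2 i)
  unfold flk
  rw [← b1]
  exact key

theorem CH_sbx {S : Type} (hp : IsLaw p) {r U P : ℕ} {C : ℝ} (W : F.Ω → S)
    (hW : ∀ ω ω', 0 < p ω → 0 < p ω' → W ω = W ω' → (a ω = a ω' ∧ s ω = s ω' ∧ t ω = t ω') ∧
      ∀ i, |mco (tfr σ (a ω) (s ω) (t ω)) (F.x ω) i -
        mco (tfr σ (a ω) (s ω) (t ω)) (F.x ω') i| ≤ C / 2 ^ ppr r U P i) :
    CH p (F.sbx σ r U P a s t) W ≤ (3 : ℕ) * Real.log (2 * C + 3) := by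
  have k1 := CH_cell_pos (F := F) (k := ppr r U P) (M := fun o => tfr σ (a o) (s o) (t o))
    (C := C) hp W (fun ω ω' hω hω' h => by
      obtain ⟨⟨b1, b2, b3⟩, b4⟩ := hW ω ω' hω hω' h
      refine ⟨?_, b4⟩
      change tfr σ (a ω) (s ω) (t ω) = tfr σ (a ω') (s ω') (t ω')
      rw [b1, b2, b3])
  have d1 := CH_le_add hp.nonneg (F.sbx σ r U P a s t)
    (fun ω => flk (ppr r U P) (mco (tfr σ (a ω) (s ω) (t ω)) (F.x ω))) W
  have d2 : CH p (F.sbx σ r U P a s t)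
      (fun ω => (flk (ppr r U P) (mco (tfr σ (a ω) (s ω) (t ω)) (F.x ω)), W ω)) = 0 := by
    refine CH_eq_zero hp.nonneg ?_
    intro ω ω' hω hω' h
    have e1 := Prod.ext_iff.mp h
    obtain ⟨⟨b1, b2, b3⟩, -⟩ := hW ω ω' hω hω' e1.2
    exact Prod.ext (Prod.ext b1 (Prod.ext b2 b3)) e1.1
  linarith only [k1, d1, d2]

/-- The static box is given by the context, the exact time and the frame. -/
theorem CH_sbx_of_ctx {S : Type} (hp : IsLaw p) {w r U P r' U' P' : ℕ} {D : ℝ} (hw : w ≤ J)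
    (hD : 1 ≤ D) (hr : w ≤ r) (hU : w ≤ U) (hP : w ≤ P) (hrr : r' ≤ r) (hUU : U' ≤ U)
    (hPP : P' ≤ P)
    (hn : ∀ ω, 0 < p ω → |a' ω - a ω| ≤ D * 2 ^ r / 2 ^ U' ∧ |s' ω - s ω| ≤ D * 2 ^ U / 2 ^ P' ∧
      |(t' ω - t ω) + (s' ω - s ω) * a ω| ≤ D * 2 ^ r / 2 ^ P')
    (W : F.Ω → S) (hW : ∀ ω ω', 0 < p ω → 0 < p ω' → W ω = W ω' →
      F.ctx σ w r U P a s t ω = F.ctx σ w r U P a s t ω' ∧ F.T ω = F.T ω' ∧
      a' ω = a' ω' ∧ s' ω = s' ω' ∧ t' ω = t' ω') :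
    CH p (F.sbx σ r' U' P' a' s' t') W ≤ (3 : ℕ) * Real.log (12 * D + 3) := by
  have e1 := vpr_add (w := w) (r := r) (U := U) (P := P) hr hU hP
  have key := CH_sbx (F := F) (σ := σ) (a := a') (s := s') (t := t') (r := r') (U := U')
    (P := P') (C := (3 : ℕ) * D * (2 * 1)) hp W (by
      intro ω ω' hω hω' h
      obtain ⟨b1, b2, b3, b4, b5⟩ := hW ω ω' hω hω' h
      refine ⟨⟨b3, b4, b5⟩, ?_⟩
      have ht : F.t ω = F.t ω' := by
        unfold Fam.t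
        rw [b2]
      have hs : |F.t ω - (F.T1 w ω : ℝ) / 2 ^ w| ≤ 1 / 2 ^ w := by
        have := Lab.time_near F hw le_rfl (v := w) (min_eq_left hw).symm ω
        rw [Lab.T1_J] at this
        exact this
      have n1 := nr_of_mlb (F := F) (g := w) (M := fun o => tfr σ (a o) (s o) (t o)) b1
      have n2 := n1.time (k' := ppr r U P) zero_le_one hs
        (fun i => by rw [e1]) (fun i => by rw [e1])
      have x1 : F.xa (F.t ω) ω = F.x ω := rfl
      have x2 : F.xa (F.t ω) ω' = F.x ω' := by rw [ht]; rfl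
      have hl := cg_tfr σ (a ω) (s ω) (t ω) (a' ω) (s' ω) (t' ω)
      intro i
      have n3 := n2.1
      rw [x1, x2] at n3
      rw [hl, hl]
      exact lin_near (by linarith only [hD]) n3 (tch_le hD hrr hUU hPP (hn ω hω).1 (hn ω hω).2.1
        (hn ω hω).2.2 i))
  refine key.trans (le_of_eq ?_)
  congr 2
  push_cast
  ring

/-- The static box is given by the position to `K` digits and the frame. -/
theorem CH_sbx_of_X {S : Type} (hp : IsLaw p) {K r U P : ℕ} {B : ℝ} (hB : 1 ≤ B) (hr : r ≤ K)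
    (hU : U ≤ K) (hP : P ≤ K)
    (hb : ∀ ω, 0 < p ω → |a ω| ≤ B ∧ |s ω| ≤ B ∧ |t ω| ≤ B)
    (W : F.Ω → S) (hW : ∀ ω ω', 0 < p ω → 0 < p ω' → W ω = W ω' →
      F.X K ω = F.X K ω' ∧ a ω = a ω' ∧ s ω = s ω' ∧ t ω = t ω') :
    CH p (F.sbx σ r U P a s t) W ≤ (3 : ℕ) * Real.log (6 * B + 3) := by
  have key := CH_sbx (F := F) (σ := σ) (a := a) (s := s) (t := t) (r := r) (U := U)
    (P := P) (C := 3 * B) hp W (by
      intro ω ω' hω hω' h
      obtain ⟨b1, b3, b4, b5⟩ := hW ω ω' hω hω' h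
      refine ⟨⟨b3, b4, b5⟩, ?_⟩
      obtain ⟨c1, c2, c3⟩ := hb ω hω
      have kx : ∀ i, |F.x ω i - F.x ω' i| ≤ 1 / 2 ^ K := fun i =>
        near_of_floor (congrFun b1 i : ⌊2 ^ K * F.x ω i⌋ = ⌊2 ^ K * F.x ω' i⌋)
      have ka : ∀ (x : ℝ) i, |x| ≤ B → |x * (F.x ω i - F.x ω' i)| ≤ B / 2 ^ K := by
        intro x i hx
        rw [abs_mul]
        calc |x| * |F.x ω i - F.x ω' i| ≤ B * (1 / 2 ^ K) :=
              mul_le_mul hx (kx i) (abs_nonneg _) (by linarith only [hB])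
          _ = B / 2 ^ K := by ring
      have kp : ∀ n : ℕ, n ≤ K → 3 * B / (2 : ℝ) ^ K ≤ 3 * B / 2 ^ n := fun n hn =>
        div_pow_mono (by positivity) hn
      have k1 : (1 : ℝ) / 2 ^ K ≤ B / 2 ^ K := div_le_div_of_nonneg_right hB (by positivity)
      have k3 : (3 * B) / (2 : ℝ) ^ K = B / 2 ^ K + B / 2 ^ K + B / 2 ^ K := by ring
      have kB : 0 ≤ B / (2 : ℝ) ^ K := by positivity
      intro i
      fin_cases i
      · change |mco (tfr σ (a ω) (s ω) (t ω)) (F.x ω) 0 -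
          mco (tfr σ (a ω) (s ω) (t ω)) (F.x ω') 0| ≤ 3 * B / 2 ^ r
        rw [mco_tfr0, mco_tfr0]
        refine le_trans ?_ (kp r hr)
        have := kx (σ 0)
        linarith only [k1, k3, kB, this]
      · change |mco (tfr σ (a ω) (s ω) (t ω)) (F.x ω) 1 -
          mco (tfr σ (a ω) (s ω) (t ω)) (F.x ω') 1| ≤ 3 * B / 2 ^ U
        rw [mco_tfr1, mco_tfr1]
        refine le_trans ?_ (kp U hU)
        have e : F.x ω (σ 1) - a ω * F.x ω (σ 0) - (F.x ω' (σ 1) - a ω * F.x ω' (σ 0)) =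
          (F.x ω (σ 1) - F.x ω' (σ 1)) - a ω * (F.x ω (σ 0) - F.x ω' (σ 0)) := by ring
        rw [e]
        refine (abs_sub _ _).trans ?_
        have g1 := kx (σ 1)
        have g2 := ka (a ω) (σ 0) c1
        linarith only [k1, k3, kB, g1, g2]
      · change |mco (tfr σ (a ω) (s ω) (t ω)) (F.x ω) 2 -
          mco (tfr σ (a ω) (s ω) (t ω)) (F.x ω') 2| ≤ 3 * B / 2 ^ P
        rw [mco_tfr2, mco_tfr2]
        refine le_trans ?_ (kp P hP)
        have e : F.x ω (σ 2) - s ω * F.x ω (σ 1) - t ω * F.x ω (σ 0) -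
          (F.x ω' (σ 2) - s ω * F.x ω' (σ 1) - t ω * F.x ω' (σ 0)) =
          (F.x ω (σ 2) - F.x ω' (σ 2)) - s ω * (F.x ω (σ 1) - F.x ω' (σ 1)) -
          t ω * (F.x ω (σ 0) - F.x ω' (σ 0)) := by ring
        rw [e]
        refine (abs_sub _ _).trans ?_
        have g0 := abs_sub (F.x ω (σ 2) - F.x ω' (σ 2)) (s ω * (F.x ω (σ 1) - F.x ω' (σ 1)))
        have g1 := kx (σ 2)
        have g2 := ka (s ω) (σ 1) c2
        have g3 := ka (t ω) (σ 0) c3
        linarith only [k1, k3, g0, g1, g2, g3])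
  refine key.trans (le_of_eq ?_)
  congr 2
  ring

/-- Conversely, the position to `K` digits is given by the static box of precisions at least `K`. -/
theorem CH_X_of_sbx {S : Type} (hp : IsLaw p) (hσ : Function.Bijective σ) {K r U P : ℕ} {B : ℝ}
    (hB : 1 ≤ B) (hr : K ≤ r) (hU : K ≤ U) (hP : K ≤ P)
    (hb : ∀ ω, 0 < p ω → |a ω| ≤ B ∧ |s ω| ≤ B ∧ |t ω| ≤ B)
    (W : F.Ω → S) (hW : ∀ ω ω', 0 < p ω → 0 < p ω' → W ω = W ω' →
      F.sbx σ r U P a s t ω = F.sbx σ r U P a s t ω') :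
    CH p (F.X K) W ≤ (3 : ℕ) * Real.log (2 * (1 + 2 * B + B * B) + 3) := by
  have e7 : 2 * ((1 + 2 * B + B * B) + 1) + 1 = 2 * (1 + 2 * B + B * B) + 3 := by ring
  rw [← e7]
  refine Lab.CH_fin_const hp _ W ?_
  intro ω ω' hω hω' h i
  have h1 := Prod.ext_iff.mp (hW ω ω' hω hω' h)
  obtain ⟨c1, c2, c3⟩ := hb ω hω
  have h2 := Prod.ext_iff.mp h1.1
  have ha : a ω = a ω' := h2.1
  have hs : s ω = s ω' := (Prod.ext_iff.mp h2.2).1
  have ht : t ω = t ω' := (Prod.ext_iff.mp h2.2).2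
  have hc : flk (ppr r U P) (mco (tfr σ (a ω) (s ω) (t ω)) (F.x ω)) =
    flk (ppr r U P) (mco (tfr σ (a ω') (s ω') (t ω')) (F.x ω')) := h1.2
  rw [← ha, ← hs, ← ht] at hc
  have n : ∀ i, |mco (tfr σ (a ω) (s ω) (t ω)) (F.x ω) i -
      mco (tfr σ (a ω) (s ω) (t ω)) (F.x ω') i| ≤ 1 / 2 ^ ppr r U P i :=
    fun i => near_of_floor (congrFun hc i)
  have kp : ∀ n : ℕ, K ≤ n → (1 : ℝ) / 2 ^ n ≤ 1 / 2 ^ K := fun n hn =>
    div_pow_mono zero_le_one hn
  have n0 := (n 0).trans (kp r hr)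
  have n1 := (n 1).trans (kp U hU)
  have n2 := (n 2).trans (kp P hP)
  rw [mco_tfr0, mco_tfr0] at n0
  rw [mco_tfr1, mco_tfr1] at n1
  rw [mco_tfr2, mco_tfr2] at n2
  have hK : (0 : ℝ) ≤ 1 / 2 ^ K := by positivity
  have hBB : B ≤ B * B := by nlinarith only [hB]
  have g1 : |F.x ω (σ 1) - F.x ω' (σ 1)| ≤ (1 + B) * (1 / 2 ^ K) := by
    have e : F.x ω (σ 1) - F.x ω' (σ 1) = (F.x ω (σ 1) - a ω * F.x ω (σ 0) -
      (F.x ω' (σ 1) - a ω * F.x ω' (σ 0))) + a ω * (F.x ω (σ 0) - F.x ω' (σ 0)) := by ring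
    rw [e]
    refine (abs_add_le _ _).trans ?_
    rw [abs_mul]
    have : |a ω| * |F.x ω (σ 0) - F.x ω' (σ 0)| ≤ B * (1 / 2 ^ K) :=
      mul_le_mul c1 n0 (abs_nonneg _) (by linarith only [hB])
    linarith only [n1, this]
  have g2 : |F.x ω (σ 2) - F.x ω' (σ 2)| ≤ (1 + 2 * B + B * B) * (1 / 2 ^ K) := by
    have e : F.x ω (σ 2) - F.x ω' (σ 2) = (F.x ω (σ 2) - s ω * F.x ω (σ 1) -
      t ω * F.x ω (σ 0) - (F.x ω' (σ 2) - s ω * F.x ω' (σ 1) - t ω * F.x ω' (σ 0))) +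
      s ω * (F.x ω (σ 1) - F.x ω' (σ 1)) + t ω * (F.x ω (σ 0) - F.x ω' (σ 0)) := by ring
    rw [e]
    refine (abs_add_le _ _).trans ?_
    have g3 := abs_add_le (F.x ω (σ 2) - s ω * F.x ω (σ 1) -
      t ω * F.x ω (σ 0) - (F.x ω' (σ 2) - s ω * F.x ω' (σ 1) - t ω * F.x ω' (σ 0)))
      (s ω * (F.x ω (σ 1) - F.x ω' (σ 1)))
    rw [abs_mul] at g3 ⊢
    have g4 : |t ω| * |F.x ω (σ 0) - F.x ω' (σ 0)| ≤ B * (1 / 2 ^ K) :=
      mul_le_mul c3 n0 (abs_nonneg _) (by linarith only [hB])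
    have g5 : |s ω| * |F.x ω (σ 1) - F.x ω' (σ 1)| ≤ B * ((1 + B) * (1 / 2 ^ K)) :=
      mul_le_mul c2 g1 (abs_nonneg _) (by linarith only [hB])
    have e2 : (1 + 2 * B + B * B) * (1 / (2 : ℝ) ^ K) =
      1 / 2 ^ K + B * ((1 + B) * (1 / 2 ^ K)) + B * (1 / 2 ^ K) := by ring
    rw [e2]
    linarith only [n2, g3, g4, g5]
  have fin : ∀ k : Fin 3, |F.x ω (σ k) - F.x ω' (σ k)| ≤ (1 + 2 * B + B * B) / 2 ^ K := by
    intro k
    have e : (1 + 2 * B + B * B) / (2 : ℝ) ^ K = (1 + 2 * B + B * B) * (1 / 2 ^ K) := by ring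
    rw [e]
    fin_cases k
    · change |F.x ω (σ 0) - F.x ω' (σ 0)| ≤ _
      nlinarith only [n0, hK, hB]
    · change |F.x ω (σ 1) - F.x ω' (σ 1)| ≤ _
      nlinarith only [hK, g1, hB]
    · exact g2
  obtain ⟨k, rfl⟩ := hσ.surjective i
  exact floor_near (fin k)

end ctx

/-! ### (C5) the slopes of two windows -/

/-- The normal covectors `(s, t)` of two windows are functions of the line and of the window `v`;
both are small on the directions `(1, α, β)` of the fans at exact points. Where they differ by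
more than `θ` in the second coordinate, the direction is constant on the window `v` to the
precision `4 ρ / θ`. -/
theorem slope_const {Ω S : Type} {A : Ω → Prop} {Y : Ω → S} {α β s t s' t' : Ω → ℝ} {ρ θ : ℝ}
    (hθ : 0 < θ) (hd : ∀ ω ω', A ω → A ω' → Y ω = Y ω' → s ω = s ω' ∧ t ω = t ω')
    (hd' : ∀ ω ω', A ω → A ω' → Y ω = Y ω' → s' ω = s' ω' ∧ t' ω = t' ω')
    (h : ∀ ω, A ω → |β ω - s ω * α ω - t ω| ≤ ρ) (h' : ∀ ω, A ω → |β ω - s' ω * α ω - t' ω| ≤ ρ)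
    {ω ω' : Ω} (hω : A ω) (hω' : A ω') (hY : Y ω = Y ω') (hs : θ ≤ |s ω - s' ω|) :
    |α ω - α ω'| ≤ 4 * ρ / θ := by
  obtain ⟨a1, a2⟩ := hd ω ω' hω hω' hY
  obtain ⟨b1, b2⟩ := hd' ω ω' hω hω' hY
  have k1 := h ω hω
  have k2 := h ω' hω'
  have k3 := h' ω hω
  have k4 := h' ω' hω'
  rw [← a1, ← a2] at k2
  rw [← b1, ← b2] at k4
  have e : (s ω - s' ω) * (α ω - α ω') =
      -(β ω - s ω * α ω - t ω) + (β ω - s' ω * α ω - t' ω) +
      (β ω' - s ω * α ω' - t ω) - (β ω' - s' ω * α ω' - t' ω) := by ring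
  have k5 : |(s ω - s' ω) * (α ω - α ω')| ≤ 4 * ρ := by
    rw [e]
    rw [abs_le] at k1 k2 k3 k4 ⊢
    constructor <;> linarith only [k1, k2, k3, k4, k1.1, k1.2, k2.1, k2.2, k3.1, k3.2, k4.1, k4.2]
  rw [abs_mul] at k5
  rw [le_div_iff₀ hθ]
  calc |α ω - α ω'| * θ ≤ |α ω - α ω'| * |s ω - s' ω| :=
        mul_le_mul_of_nonneg_left hs (abs_nonneg _)
    _ = |s ω - s' ω| * |α ω - α ω'| := mul_comm _ _
    _ ≤ 4 * ρ := k5

/-- If the slopes agree in the second coordinate, they agree in the first. -/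
theorem slope_first {α β s t s' t' ρ θ B : ℝ} (h : |β - s * α - t| ≤ ρ)
    (h' : |β - s' * α - t'| ≤ ρ) (hs : |s - s'| ≤ θ) (hα : |α| ≤ B) :
    |(t - t') + (s - s') * α| ≤ 2 * ρ ∧ |t - t'| ≤ 2 * ρ + θ * B := by
  have e : (t - t') + (s - s') * α = (β - s' * α - t') - (β - s * α - t) := by ring
  have k1 : |(t - t') + (s - s') * α| ≤ 2 * ρ := by
    rw [e]
    rw [abs_le] at h h' ⊢
    constructor <;> linarith only [h, h', h.1, h.2, h'.1, h'.2]
  refine ⟨k1, ?_⟩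
  have e2 : t - t' = ((t - t') + (s - s') * α) - (s - s') * α := by ring
  rw [e2]
  refine (abs_sub _ _).trans ?_
  rw [abs_mul]
  have : |s - s'| * |α| ≤ θ * B := mul_le_mul hs hα (abs_nonneg _) ((abs_nonneg _).trans hs)
  linarith

end Box

end Pool.KA
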