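import Pool.Agent.H8.KS6.BoxR

/-!
# Triangular frames in dimension three

The frame `tfr σ a s c` has the coordinates `x_e`, `x_u - a x_e`, `x_N - s x_u - c x_e`, where
`e, u, N = σ 0, σ 1, σ 2`. Change of the frame, change of the context for fixed rows and for a
fixed velocity block.
-/

set_option autoImplicit false

namespace Pool.KA

open Finset Real
open Pool.Agent.H49.Ent Pool.Agent.H32.Dense Pool.STK

variable {J : ℕ}

/-- The triangular frame. -/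
def tfr (σ : Fin 3 → Fin 3) (a s c : ℝ) (i j : Fin 3) : ℝ :=
  ![fun j => if j = σ 0 then 1 else 0,
    fun j => (if j = σ 1 then 1 else 0) - a * (if j = σ 0 then 1 else 0),
    fun j => (if j = σ 2 then 1 else 0) - s * (if j = σ 1 then 1 else 0) -
      c * (if j = σ 0 then 1 else 0)] i j

/-- The change of the frame. -/
def tch (da ds dc : ℝ) (i j : Fin 3) : ℝ := ![![1, 0, 0], ![-da, 1, 0], ![-dc, -ds, 1]] i j

namespace Box

theorem mco_tfr0 (σ : Fin 3 → Fin 3) (a s c : ℝ) (x : Fin 3 → ℝ) :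
    mco (tfr σ a s c) x 0 = x (σ 0) := by
  simp [mco, tfr]

theorem mco_tfr1 (σ : Fin 3 → Fin 3) (a s c : ℝ) (x : Fin 3 → ℝ) :
    mco (tfr σ a s c) x 1 = x (σ 1) - a * x (σ 0) := by
  simp [mco, tfr, sub_mul, Finset.sum_sub_distrib]

theorem mco_tfr2 (σ : Fin 3 → Fin 3) (a s c : ℝ) (x : Fin 3 → ℝ) :
    mco (tfr σ a s c) x 2 = x (σ 2) - s * x (σ 1) - c * x (σ 0) := by
  simp [mco, tfr, sub_mul, Finset.sum_sub_distrib]

/-- Two triangular frames: the coefficient of `x_e` in the last coordinate is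
`(c' - c) + (s' - s) a`. -/
theorem cg_tfr (σ : Fin 3 → Fin 3) (a s c a' s' c' : ℝ) :
    Cg (tfr σ a s c) (tfr σ a' s' c') (tch (a' - a) (s' - s) ((c' - c) + (s' - s) * a)) := by
  intro x i
  rw [Fin.sum_univ_three, mco_tfr0, mco_tfr1, mco_tfr2]
  fin_cases i
  · change mco (tfr σ a' s' c') x 0 = _
    rw [mco_tfr0]
    simp [tch]
  · change mco (tfr σ a' s' c') x 1 = _
    rw [mco_tfr1]
    simp [tch]
    ring
  · change mco (tfr σ a' s' c') x 2 = _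
    rw [mco_tfr2]
    simp [tch]
    ring

/-- The frame is injective. -/
theorem tfr_inj (σ : Equiv.Perm (Fin 3)) (a s c : ℝ) (x y : Fin 3 → ℝ)
    (h : ∀ i, mco (tfr σ a s c) x i = mco (tfr σ a s c) y i) : x = y := by
  have h0 := h 0
  have h1 := h 1
  have h2 := h 2
  rw [mco_tfr0, mco_tfr0] at h0
  rw [mco_tfr1, mco_tfr1, h0] at h1
  have h1' : x (σ 1) = y (σ 1) := by linarith
  rw [mco_tfr2, mco_tfr2, h0, h1'] at h2
  have h2' : x (σ 2) = y (σ 2) := by linarith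
  funext j
  obtain ⟨i, rfl⟩ := σ.surjective j
  fin_cases i
  · exact h0
  · exact h1'
  · exact h2'

/-- The bounds on the change of the frame. -/
theorem tch_le {k k' : Fin 3 → ℕ} {D da ds dc : ℝ} (hD : 1 ≤ D) (h0 : k' 0 ≤ k 0)
    (h1 : k' 1 ≤ k 1) (h2 : k' 2 ≤ k 2) (ha : |da| ≤ D * 2 ^ k 0 / 2 ^ k' 1)
    (hs : |ds| ≤ D * 2 ^ k 1 / 2 ^ k' 2) (hc : |dc| ≤ D * 2 ^ k 0 / 2 ^ k' 2) (i j : Fin 3) :
    |tch da ds dc i j| ≤ D * 2 ^ k j / 2 ^ k' i := by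
  have one : ∀ {x y : ℕ}, y ≤ x → |(1 : ℝ)| ≤ D * 2 ^ x / 2 ^ y := by
    intro x y h
    rw [abs_one, le_div_iff₀ (by positivity), one_mul]
    have h3 : (2 : ℝ) ^ y ≤ 2 ^ x := pow_le_pow_right₀ (by norm_num) h
    have h4 : (0 : ℝ) < 2 ^ x := by positivity
    nlinarith
  have zer : ∀ {x y : ℕ}, |(0 : ℝ)| ≤ D * 2 ^ x / 2 ^ y := by
    intro x y
    rw [abs_zero]
    positivity
  fin_cases i <;> fin_cases j
  · exact one h0
  · exact zer
  · exact zer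
  · change |-da| ≤ _
    rw [abs_neg]
    exact ha
  · exact one h1
  · exact zer
  · change |-dc| ≤ _
    rw [abs_neg]
    exact hc
  · change |-ds| ≤ _
    rw [abs_neg]
    exact hs
  · exact one h2

/-! ### Natural boxes in triangular frames -/

section chain

variable {F : Fam 3 J} {p : F.Ω → ℝ}

/-- **Change of the context.** From the box `(w, c)` with the frame `(a, s, t)` to the box
`(w', c')` with the frame `(a', s', t')`; `κ = min (position, velocity + min w w')` is the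
precision of the first box at any time of both windows. -/
theorem CH_blb {S : Type} (hp : IsLaw p) {w w' : ℕ} {c c' : Fin 3 → ℕ} {σ : Fin 3 → Fin 3}
    {a s t a' s' t' : F.Ω → ℝ} {D : ℝ} (hw : w ≤ J) (hw' : w' ≤ J) (hD : 1 ≤ D)
    (h0 : c' 0 ≤ c 0) (h1 : c' 1 ≤ c 1) (h2 : c' 2 ≤ c 2)
    (g0 : c' 0 + w' ≤ c 0 + min w w') (g1 : c' 1 + w' ≤ c 1 + min w w')
    (g2 : c' 2 + w' ≤ c 2 + min w w')
    (ha : ∀ ω, 0 < p ω → |a' ω - a ω| ≤ D * 2 ^ (c 0 + min w w') / 2 ^ (c' 1 + w') ∧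
      |a' ω - a ω| ≤ D * 2 ^ c 0 / 2 ^ c' 1)
    (hs : ∀ ω, 0 < p ω → |s' ω - s ω| ≤ D * 2 ^ (c 1 + min w w') / 2 ^ (c' 2 + w') ∧
      |s' ω - s ω| ≤ D * 2 ^ c 1 / 2 ^ c' 2)
    (ht : ∀ ω, 0 < p ω → |(t' ω - t ω) + (s' ω - s ω) * a ω| ≤
      D * 2 ^ (c 0 + min w w') / 2 ^ (c' 2 + w') ∧
      |(t' ω - t ω) + (s' ω - s ω) * a ω| ≤ D * 2 ^ c 0 / 2 ^ c' 2)
    (W : F.Ω → S) (hW : ∀ ω ω', 0 < p ω → 0 < p ω' → W ω = W ω' →
      F.blb w c (fun o => tfr σ (a o) (s o) (t o)) ω =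
        F.blb w c (fun o => tfr σ (a o) (s o) (t o)) ω' ∧ F.T1 w' ω = F.T1 w' ω' ∧
      a' ω = a' ω' ∧ s' ω = s' ω' ∧ t' ω = t' ω') :
    CH p (F.blb w' c' (fun o => tfr σ (a' o) (s' o) (t' o))) W ≤
      2 * ((3 : ℕ) * Real.log (12 * D + 3)) := by
  have key := CH_mlb (F := F) (g := w) (g' := w') (k := fun i => c i + w) (c := c)
    (k' := fun i => c' i + w') (c' := c') (kk := fun i => c i + min w w')
    (M := fun o => tfr σ (a o) (s o) (t o)) (M' := fun o => tfr σ (a' o) (s' o) (t' o))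
    (D := D) hp hw hw' (by linarith) (fun i => by
      have := min_le_left w w'
      change c i + min w w' ≤ c i + w
      omega) (fun i => le_rfl)
    (fun ω hω => ⟨_, cg_tfr σ (a ω) (s ω) (t ω) (a' ω) (s' ω) (t' ω),
      tch_le hD g0 g1 g2 (ha ω hω).1 (hs ω hω).1 (ht ω hω).1,
      tch_le hD h0 h1 h2 (ha ω hω).2 (hs ω hω).2 (ht ω hω).2⟩) W
    (fun ω ω' hω hω' h => by
      obtain ⟨b1, b2, b3, b4, b5⟩ := hW ω ω' hω hω' h
      refine ⟨b1, b2, ?_⟩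
      change tfr σ (a' ω) (s' ω) (t' ω) = tfr σ (a' ω') (s' ω') (t' ω')
      rw [b3, b4, b5])
  refine key.trans (le_of_eq ?_)
  congr 3
  push_cast
  ring

/-- **Fixed rows**: the context `(w', c')` of the shorter window is a function of the context
`(w, c)` of the longer window, `w ≤ w'`, of the window `T1 w'` and of the frame, up to a bounded
number of values, if `c' i + w' ≤ c i + w`. -/
theorem CH_blb_rows {S : Type} (hp : IsLaw p) {w w' : ℕ} {c c' : Fin 3 → ℕ}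
    {σ : Fin 3 → Fin 3} {a s t a' s' t' : F.Ω → ℝ} {D : ℝ} (hw' : w' ≤ J) (hww : w ≤ w')
    (hD : 1 ≤ D) (g : ∀ i, c' i + w' ≤ c i + w)
    (ha : ∀ ω, 0 < p ω → |a' ω - a ω| ≤ D * 2 ^ (c 0 + w) / 2 ^ (c' 1 + w'))
    (hs : ∀ ω, 0 < p ω → |s' ω - s ω| ≤ D * 2 ^ (c 1 + w) / 2 ^ (c' 2 + w'))
    (ht : ∀ ω, 0 < p ω → |(t' ω - t ω) + (s' ω - s ω) * a ω| ≤
      D * 2 ^ (c 0 + w) / 2 ^ (c' 2 + w'))
    (W : F.Ω → S) (hW : ∀ ω ω', 0 < p ω → 0 < p ω' → W ω = W ω' →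
      F.blb w c (fun o => tfr σ (a o) (s o) (t o)) ω =
        F.blb w c (fun o => tfr σ (a o) (s o) (t o)) ω' ∧ F.T1 w' ω = F.T1 w' ω' ∧
      a' ω = a' ω' ∧ s' ω = s' ω' ∧ t' ω = t' ω') :
    CH p (F.blb w' c' (fun o => tfr σ (a' o) (s' o) (t' o))) W ≤
      2 * ((3 : ℕ) * Real.log (12 * D + 3)) := by
  have e : min w w' = w := min_eq_left hww
  have vel : ∀ (x : ℝ) (i j : Fin 3), |x| ≤ D * 2 ^ (c i + w) / 2 ^ (c' j + w') →
      |x| ≤ D * 2 ^ c i / 2 ^ c' j := by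
    intro x i j h
    refine h.trans ?_
    rw [div_le_div_iff₀ (by positivity) (by positivity), pow_add, pow_add]
    have h3 : (2 : ℝ) ^ w ≤ 2 ^ w' := pow_le_pow_right₀ (by norm_num) hww
    have h4 : (0 : ℝ) ≤ D * 2 ^ c i * 2 ^ c' j := by positivity
    calc D * (2 ^ c i * 2 ^ w) * 2 ^ c' j = D * 2 ^ c i * 2 ^ c' j * 2 ^ w := by ring
      _ ≤ D * 2 ^ c i * 2 ^ c' j * 2 ^ w' := mul_le_mul_of_nonneg_left h3 h4
      _ = D * 2 ^ c i * (2 ^ c' j * 2 ^ w') := by ring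
  refine CH_blb (a := a) (s := s) (t := t) hp (hww.trans hw') hw' hD
    ?_ ?_ ?_ ?_ ?_ ?_ ?_ ?_ ?_ W hW
  · have := g 0; omega
  · have := g 1; omega
  · have := g 2; omega
  · rw [e]; exact g 0
  · rw [e]; exact g 1
  · rw [e]; exact g 2
  · intro ω hω
    rw [e]
    exact ⟨ha ω hω, vel _ 0 1 (ha ω hω)⟩
  · intro ω hω
    rw [e]
    exact ⟨hs ω hω, vel _ 1 2 (hs ω hω)⟩
  · intro ω hω
    rw [e]
    exact ⟨ht ω hω, vel _ 0 2 (ht ω hω)⟩

/-- **Shorter window, fixed velocity block**: the context of the longer window `w' ≤ w` is a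
function of the context of the window `w` and of the frame, if `c' i ≤ c i`. -/
theorem CH_blb_vel {S : Type} (hp : IsLaw p) {w w' : ℕ} {c c' : Fin 3 → ℕ}
    {σ : Fin 3 → Fin 3} {a s t a' s' t' : F.Ω → ℝ} {D : ℝ} (hw : w ≤ J) (hww : w' ≤ w)
    (hD : 1 ≤ D) (g : ∀ i, c' i ≤ c i)
    (ha : ∀ ω, 0 < p ω → |a' ω - a ω| ≤ D * 2 ^ c 0 / 2 ^ c' 1)
    (hs : ∀ ω, 0 < p ω → |s' ω - s ω| ≤ D * 2 ^ c 1 / 2 ^ c' 2)
    (ht : ∀ ω, 0 < p ω → |(t' ω - t ω) + (s' ω - s ω) * a ω| ≤ D * 2 ^ c 0 / 2 ^ c' 2)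
    (W : F.Ω → S) (hW : ∀ ω ω', 0 < p ω → 0 < p ω' → W ω = W ω' →
      F.blb w c (fun o => tfr σ (a o) (s o) (t o)) ω =
        F.blb w c (fun o => tfr σ (a o) (s o) (t o)) ω' ∧
      a' ω = a' ω' ∧ s' ω = s' ω' ∧ t' ω = t' ω') :
    CH p (F.blb w' c' (fun o => tfr σ (a' o) (s' o) (t' o))) W ≤
      2 * ((3 : ℕ) * Real.log (12 * D + 3)) := by
  have e : min w w' = w' := min_eq_right hww
  have pos : ∀ (x : ℝ) (i j : Fin 3), |x| ≤ D * 2 ^ c i / 2 ^ c' j →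
      |x| ≤ D * 2 ^ (c i + w') / 2 ^ (c' j + w') := by
    intro x i j h
    refine h.trans (le_of_eq ?_)
    rw [pow_add, pow_add]
    have : (2 : ℝ) ^ w' ≠ 0 := by positivity
    field_simp
  refine CH_blb (a := a) (s := s) (t := t) hp hw (hww.trans hw) hD (g 0) (g 1) (g 2)
    ?_ ?_ ?_ ?_ ?_ ?_ W ?_
  · rw [e]; have := g 0; omega
  · rw [e]; have := g 1; omega
  · rw [e]; have := g 2; omega
  · intro ω hω
    rw [e]
    exact ⟨pos _ 0 1 (ha ω hω), ha ω hω⟩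
  · intro ω hω
    rw [e]
    exact ⟨pos _ 1 2 (hs ω hω), hs ω hω⟩
  · intro ω hω
    rw [e]
    exact ⟨pos _ 0 2 (ht ω hω), ht ω hω⟩
  · intro ω ω' hω hω' h
    obtain ⟨b1, b2⟩ := hW ω ω' hω hω' h
    refine ⟨b1, ?_, b2⟩
    obtain ⟨K, rfl⟩ := Nat.exists_eq_add_of_le hww
    rw [Pool.KSAT.T1_div F hw ω, Pool.KSAT.T1_div F hw ω', (mlb_ext b1).1]

end chain

/-! ### The row of the normal coordinate -/

/-- Normalised coefficients of the normal covector of the frame `(a', s', t')` relative to the box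
with the frame `(a, s, t)`. -/
noncomputable def tsl (κ : Fin 3 → ℕ) (k : ℕ) (ds dt : ℝ) (j : Fin 3) : ℝ :=
  ![2 ^ k / 2 ^ κ 0 * -dt, 2 ^ k / 2 ^ κ 1 * -ds, 2 ^ k / 2 ^ κ 2] j

theorem cf_tfr (σ : Fin 3 → Fin 3) (κ : Fin 3 → ℕ) (k : ℕ) (a s t a' s' t' : ℝ) :
    Cf (tfr σ a s t) κ (tfr σ a' s' t' 2) k (tsl κ k (s' - s) ((t' - t) + (s' - s) * a)) := by
  intro x
  have h1 := cg_tfr σ a s t a' s' t' x 2
  rw [Fin.sum_univ_three] at h1
  have h2 : ∑ j, tfr σ a' s' t' 2 j * x j = mco (tfr σ a' s' t') x 2 := rfl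
  rw [h2, h1, Fin.sum_univ_three]
  simp only [tch, tsl, Matrix.cons_val_zero, Matrix.cons_val_one, Matrix.cons_val_two,
    Matrix.tail_cons, Matrix.head_cons]
  have e0 : (2 : ℝ) ^ κ 0 ≠ 0 := by positivity
  have e1 : (2 : ℝ) ^ κ 1 ≠ 0 := by positivity
  have e2 : (2 : ℝ) ^ κ 2 ≠ 0 := by positivity
  field_simp

/-- Normalised coefficients of the second covector. -/
noncomputable def tsu (κ : Fin 3 → ℕ) (k : ℕ) (da : ℝ) (j : Fin 3) : ℝ :=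
  ![2 ^ k / 2 ^ κ 0 * -da, 2 ^ k / 2 ^ κ 1, 0] j

theorem cf_tfr1 (σ : Fin 3 → Fin 3) (κ : Fin 3 → ℕ) (k : ℕ) (a s t a' s' t' : ℝ) :
    Cf (tfr σ a s t) κ (tfr σ a' s' t' 1) k (tsu κ k (a' - a)) := by
  intro x
  have h1 := cg_tfr σ a s t a' s' t' x 1
  rw [Fin.sum_univ_three] at h1
  have h2 : ∑ j, tfr σ a' s' t' 1 j * x j = mco (tfr σ a' s' t') x 1 := rfl
  rw [h2, h1, Fin.sum_univ_three]
  simp only [tch, tsu, Matrix.cons_val_zero, Matrix.cons_val_one, Matrix.cons_val_two,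
    Matrix.tail_cons, Matrix.head_cons]
  have e0 : (2 : ℝ) ^ κ 0 ≠ 0 := by positivity
  have e1 : (2 : ℝ) ^ κ 1 ≠ 0 := by positivity
  field_simp
  ring

end Box

end Pool.KA
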