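import Pool.Agent.H54.K2S.Lab2

/-!
# Labels of boxes with several precisions

A box is given by a window of the time, a frame (a matrix of linear coordinates), the cells of the
position at the beginning of the window (`k i` digits of the coordinate `i`), the cells of the
velocity (`c i` digits), and the side information. Tubes and planks of every kind are special cases:
a natural box has `k i = c i + w`.

`Nr` is the relation: two lines are near each other at the time `s`, in the frame `N`, with the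
precisions `k` (positions) and `c` (velocities). Equal labels are near; change of the time and
change of the frame are lemmas on `Nr`; near lines have near cells.
-/

set_option autoImplicit false

namespace Pool.KA

open Finset Real
open Pool.Agent.H49.Ent Pool.Agent.H32.Dense Pool.STK

variable {m J : ℕ}

/-- Coordinates of a vector; the rows of `M` are the coordinates. -/
def mco (M : Fin m → Fin m → ℝ) (x : Fin m → ℝ) (i : Fin m) : ℝ := ∑ j, M i j * x j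

/-- Cells with several precisions. -/
noncomputable def flk (k : Fin m → ℕ) (x : Fin m → ℝ) (i : Fin m) : ℤ := ⌊(2 : ℝ) ^ k i * x i⌋

/-- The cell of the position at the beginning of the window. -/
noncomputable def Fam.mps (F : Fam m J) (g : ℕ) (k : Fin m → ℕ) (M : F.Ω → Fin m → Fin m → ℝ)
    (ω : F.Ω) : Fin m → ℤ := flk k (mco (M ω) (F.x1 g ω))

/-- The cell of the velocity. -/
noncomputable def Fam.mvl (F : Fam m J) (c : Fin m → ℕ) (M : F.Ω → Fin m → Fin m → ℝ)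
    (ω : F.Ω) : Fin m → ℤ := flk c (mco (M ω) (F.d ω))

/-- The label of a box. -/
noncomputable def Fam.mlb (F : Fam m J) (g : ℕ) (k c : Fin m → ℕ)
    (M : F.Ω → Fin m → Fin m → ℝ) (ω : F.Ω) :
    ((ℕ × (Fin m → Fin m → ℝ)) × ((Fin m → ℤ) × (Fin m → ℤ))) × F.ζ :=
  (((F.T1 g ω, M ω), (F.mps g k M ω, F.mvl c M ω)), F.Z ω)

/-- The natural box of a window: the line does not leave the box during the window. -/
noncomputable def Fam.blb (F : Fam m J) (w : ℕ) (c : Fin m → ℕ)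
    (M : F.Ω → Fin m → Fin m → ℝ) :=
  F.mlb w (fun i => c i + w) c M

/-- The position inside the cell. -/
noncomputable def Fam.mu (F : Fam m J) (g : ℕ) (k : Fin m → ℕ) (M : F.Ω → Fin m → Fin m → ℝ)
    (ω : F.Ω) (i : Fin m) : ℝ := Int.fract (2 ^ k i * mco (M ω) (F.x1 g ω) i)

/-- The velocity inside the cell. -/
noncomputable def Fam.md (F : Fam m J) (c : Fin m → ℕ) (M : F.Ω → Fin m → Fin m → ℝ)
    (ω : F.Ω) (i : Fin m) : ℝ := Int.fract (2 ^ c i * mco (M ω) (F.d ω) i)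

/-- Two lines are near each other at the time `s`. -/
def Nr (F : Fam m J) (N : Fin m → Fin m → ℝ) (s : ℝ) (k c : Fin m → ℕ) (C : ℝ)
    (ω ω' : F.Ω) : Prop :=
  (∀ i, |mco N (F.xa s ω) i - mco N (F.xa s ω') i| ≤ C / 2 ^ k i) ∧
  ∀ i, |mco N (F.d ω) i - mco N (F.d ω') i| ≤ C / 2 ^ c i

/-- Change of the coordinates: `N' = L N`. -/
def Cg (N N' L : Fin m → Fin m → ℝ) : Prop :=
  ∀ (x : Fin m → ℝ) (i : Fin m), mco N' x i = ∑ j, L i j * mco N x j

namespace Box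

/-! ### Coordinates -/

theorem mco_add_mul (M : Fin m → Fin m → ℝ) (x y : Fin m → ℝ) (t : ℝ) (i : Fin m) :
    mco M (fun j => x j + t * y j) i = mco M x i + t * mco M y i := by
  unfold mco
  rw [Finset.mul_sum, ← Finset.sum_add_distrib]
  refine Finset.sum_congr rfl fun j _ => ?_
  ring

theorem mco_sub (M : Fin m → Fin m → ℝ) (x y : Fin m → ℝ) (i : Fin m) :
    mco M (fun j => x j - y j) i = mco M x i - mco M y i := by
  unfold mco
  rw [← Finset.sum_sub_distrib]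
  refine Finset.sum_congr rfl fun j _ => ?_
  ring

theorem cg_refl (N : Fin m → Fin m → ℝ) : Cg N N fun i j => if i = j then 1 else 0 := by
  intro x i
  simp

theorem cg_mul (N N' L : Fin m → Fin m → ℝ) (h : ∀ i j, N' i j = ∑ k, L i k * N k j) :
    Cg N N' L := by
  intro x i
  unfold mco
  have e1 : ∀ j, N' i j * x j = ∑ k, L i k * (N k j * x j) := by
    intro j
    rw [h, Finset.sum_mul]
    exact Finset.sum_congr rfl fun k _ => by ring
  rw [Finset.sum_congr rfl fun j _ => e1 j, Finset.sum_comm]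
  exact Finset.sum_congr rfl fun k _ => by rw [Finset.mul_sum]

theorem mps_add (F : Fam m J) (g : ℕ) (k : Fin m → ℕ) (M : F.Ω → Fin m → Fin m → ℝ)
    (ω : F.Ω) (i : Fin m) : 2 ^ k i * mco (M ω) (F.x1 g ω) i =
      F.mps g k M ω i + F.mu g k M ω i :=
  (Int.floor_add_fract _).symm

theorem mvl_add (F : Fam m J) (c : Fin m → ℕ) (M : F.Ω → Fin m → Fin m → ℝ)
    (ω : F.Ω) (i : Fin m) : 2 ^ c i * mco (M ω) (F.d ω) i =
      F.mvl c M ω i + F.md c M ω i :=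
  (Int.floor_add_fract _).symm

theorem mu_mem (F : Fam m J) (g : ℕ) (k : Fin m → ℕ) (M : F.Ω → Fin m → Fin m → ℝ)
    (ω : F.Ω) (i : Fin m) : 0 ≤ F.mu g k M ω i ∧ F.mu g k M ω i < 1 :=
  ⟨Int.fract_nonneg _, Int.fract_lt_one _⟩

theorem md_mem (F : Fam m J) (c : Fin m → ℕ) (M : F.Ω → Fin m → Fin m → ℝ)
    (ω : F.Ω) (i : Fin m) : 0 ≤ F.md c M ω i ∧ F.md c M ω i < 1 :=
  ⟨Int.fract_nonneg _, Int.fract_lt_one _⟩

theorem mlb_eq (F : Fam m J) (g : ℕ) (k c : Fin m → ℕ) (M : F.Ω → Fin m → Fin m → ℝ)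
    (ω : F.Ω) : F.mlb g k c M ω =
      (((F.T1 g ω, M ω), (F.mps g k M ω, F.mvl c M ω)), F.Z ω) := rfl

section ext

variable {F : Fam m J} {g : ℕ} {k c : Fin m → ℕ} {M : F.Ω → Fin m → Fin m → ℝ} {ω ω' : F.Ω}

theorem mlb_ext (h : F.mlb g k c M ω = F.mlb g k c M ω') :
    F.T1 g ω = F.T1 g ω' ∧ M ω = M ω' ∧ F.mps g k M ω = F.mps g k M ω' ∧
      F.mvl c M ω = F.mvl c M ω' ∧ F.Z ω = F.Z ω' := by
  have h4 := Prod.ext_iff.mp h
  have h5 := Prod.ext_iff.mp h4.1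
  exact ⟨(Prod.ext_iff.mp h5.1).1, (Prod.ext_iff.mp h5.1).2, (Prod.ext_iff.mp h5.2).1,
    (Prod.ext_iff.mp h5.2).2, h4.2⟩

theorem mlb_mk (h1 : F.T1 g ω = F.T1 g ω') (h2 : M ω = M ω')
    (h3 : F.mps g k M ω = F.mps g k M ω') (h4 : F.mvl c M ω = F.mvl c M ω')
    (h5 : F.Z ω = F.Z ω') : F.mlb g k c M ω = F.mlb g k c M ω' := by
  rw [mlb_eq, mlb_eq, h1, h2, h3, h4, h5]

/-- Cells of two digits. -/
theorem near_of_floor {x y : ℝ} {k : ℕ} (h : ⌊(2 : ℝ) ^ k * x⌋ = ⌊(2 : ℝ) ^ k * y⌋) :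
    |x - y| ≤ 1 / 2 ^ k := by
  have k1 := Plk.abs_sub_lt_of_floor h
  rw [← mul_sub, abs_mul, abs_of_pos (by positivity : (0 : ℝ) < 2 ^ k)] at k1
  rw [le_div_iff₀ (by positivity), mul_comm]
  exact k1

theorem floor_near {x y C : ℝ} {k : ℕ} (h : |x - y| ≤ C / 2 ^ k) :
    |((⌊(2 : ℝ) ^ k * x⌋ - ⌊(2 : ℝ) ^ k * y⌋ : ℤ) : ℝ)| ≤ C + 1 := by
  refine Plk.floor_sub_lt ?_
  rw [← mul_sub, abs_mul, abs_of_pos (by positivity : (0 : ℝ) < 2 ^ k)]
  calc (2 : ℝ) ^ k * |x - y| ≤ 2 ^ k * (C / 2 ^ k) :=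
        mul_le_mul_of_nonneg_left h (by positivity)
    _ = C := by field_simp

/-- Equal labels are near. -/
theorem nr_of_mlb (h : F.mlb g k c M ω = F.mlb g k c M ω') :
    Nr F (M ω) ((F.T1 g ω : ℝ) / 2 ^ g) k c 1 ω ω' := by
  obtain ⟨h1, h2, h3, h4, h5⟩ := mlb_ext h
  have e1 : F.xa ((F.T1 g ω : ℝ) / 2 ^ g) ω = F.x1 g ω := rfl
  have e2 : F.xa ((F.T1 g ω : ℝ) / 2 ^ g) ω' = F.x1 g ω' := by
    rw [h1]
    rfl
  refine ⟨fun i => ?_, fun i => ?_⟩
  · rw [e1, e2]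
    refine near_of_floor (k := k i) ?_
    have := congrFun h3 i
    unfold Fam.mps flk at this
    rw [← h2] at this
    exact this
  · refine near_of_floor (k := c i) ?_
    have := congrFun h4 i
    unfold Fam.mvl flk at this
    rw [← h2] at this
    exact this

end ext

section nr

variable {F : Fam m J} {N N' L : Fin m → Fin m → ℝ} {s s' : ℝ} {k c k' c' : Fin m → ℕ}
  {C D : ℝ} {ω ω' : F.Ω} {v : ℕ}

theorem div_pow_mono {C : ℝ} (hC : 0 ≤ C) {a b : ℕ} (h : a ≤ b) :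
    C / (2 : ℝ) ^ b ≤ C / 2 ^ a :=
  div_le_div_of_nonneg_left hC (by positivity) (pow_le_pow_right₀ (by norm_num) h)

theorem _root_.Pool.KA.Nr.mono (h : Nr F N s k c C ω ω') (hC : 0 ≤ C) (hCD : C ≤ D) (hk : ∀ i, k' i ≤ k i)
    (hc : ∀ i, c' i ≤ c i) : Nr F N s k' c' D ω ω' :=
  ⟨fun i => ((h.1 i).trans (div_pow_mono hC (hk i))).trans
      (div_le_div_of_nonneg_right hCD (by positivity)),
    fun i => ((h.2 i).trans (div_pow_mono hC (hc i))).trans
      (div_le_div_of_nonneg_right hCD (by positivity))⟩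

theorem _root_.Pool.KA.Nr.symm (h : Nr F N s k c C ω ω') : Nr F N s k c C ω' ω :=
  ⟨fun i => by rw [abs_sub_comm]; exact h.1 i, fun i => by rw [abs_sub_comm]; exact h.2 i⟩

theorem _root_.Pool.KA.Nr.trans {ω'' : F.Ω} (h : Nr F N s k c C ω ω') (h' : Nr F N s k c D ω' ω'') :
    Nr F N s k c (C + D) ω ω'' :=
  ⟨fun i => by
      refine (abs_sub_le _ (mco N (F.xa s ω') i) _).trans ?_
      rw [add_div]
      exact add_le_add (h.1 i) (h'.1 i),
    fun i => by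
      refine (abs_sub_le _ (mco N (F.d ω') i) _).trans ?_
      rw [add_div]
      exact add_le_add (h.2 i) (h'.2 i)⟩

/-- Change of the time. -/
theorem _root_.Pool.KA.Nr.time (h : Nr F N s k c C ω ω') (hC : 0 ≤ C) (hs : |s' - s| ≤ 1 / 2 ^ v)
    (h1 : ∀ i, k' i ≤ k i) (h2 : ∀ i, k' i ≤ c i + v) : Nr F N s' k' c (2 * C) ω ω' := by
  refine ⟨fun i => ?_, fun i => (h.2 i).trans
    (div_le_div_of_nonneg_right (by linarith) (by positivity))⟩
  have e1 : ∀ o : F.Ω, F.xa s' o = fun j => F.xa s o j + (s' - s) * F.d o j := by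
    intro o
    funext j
    exact Kin.xa_add F s s' o j
  rw [e1, e1, mco_add_mul, mco_add_mul]
  have e2 : mco N (F.xa s ω) i + (s' - s) * mco N (F.d ω) i -
      (mco N (F.xa s ω') i + (s' - s) * mco N (F.d ω') i) =
      (mco N (F.xa s ω) i - mco N (F.xa s ω') i) +
        (s' - s) * (mco N (F.d ω) i - mco N (F.d ω') i) := by ring
  rw [e2]
  refine (abs_add_le _ _).trans ?_
  rw [abs_mul]
  have k1 : |s' - s| * |mco N (F.d ω) i - mco N (F.d ω') i| ≤ 1 / 2 ^ v * (C / 2 ^ c i) :=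
    mul_le_mul hs (h.2 i) (abs_nonneg _) (by positivity)
  have k2 : (1 : ℝ) / 2 ^ v * (C / 2 ^ c i) ≤ C / 2 ^ k' i := by
    have e3 : (1 : ℝ) / 2 ^ v * (C / 2 ^ c i) = C / 2 ^ (c i + v) := by
      rw [pow_add]
      field_simp
    rw [e3]
    exact div_pow_mono hC (h2 i)
  have k3 := (h.1 i).trans (div_pow_mono hC (h1 i))
  have e4 : 2 * C / (2 : ℝ) ^ k' i = C / 2 ^ k' i + C / 2 ^ k' i := by ring
  rw [e4]
  linarith

theorem lin_near {a b : Fin m → ℝ} {k : Fin m → ℕ} {n : ℕ} (hD : 0 ≤ D)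
    (hab : ∀ j, |a j - b j| ≤ C / 2 ^ k j) {i : Fin m}
    (hL : ∀ j, |L i j| ≤ D * 2 ^ k j / 2 ^ n) :
    |∑ j, L i j * a j - ∑ j, L i j * b j| ≤ m * D * C / 2 ^ n := by
  rw [← Finset.sum_sub_distrib]
  refine (Finset.abs_sum_le_sum_abs _ _).trans ?_
  have h1 : ∀ j ∈ (Finset.univ : Finset (Fin m)), |L i j * a j - L i j * b j| ≤
      D * C / 2 ^ n := by
    intro j _
    rw [← mul_sub, abs_mul]
    calc |L i j| * |a j - b j| ≤ D * 2 ^ k j / 2 ^ n * (C / 2 ^ k j) :=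
          mul_le_mul (hL j) (hab j) (abs_nonneg _) (by positivity)
      _ = D * C / 2 ^ n := by
          have : (2 : ℝ) ^ k j ≠ 0 := by positivity
          field_simp
  refine (Finset.sum_le_sum h1).trans (le_of_eq ?_)
  rw [Finset.sum_const, Finset.card_univ, Fintype.card_fin, nsmul_eq_mul]
  ring

/-- Change of the frame. -/
theorem _root_.Pool.KA.Nr.frame (h : Nr F N s k c C ω ω') (hD : 0 ≤ D) (hL : Cg N N' L)
    (h1 : ∀ i j, |L i j| ≤ D * 2 ^ k j / 2 ^ k' i) (h2 : ∀ i j, |L i j| ≤ D * 2 ^ c j / 2 ^ c' i) :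
    Nr F N' s k' c' (m * D * C) ω ω' := by
  refine ⟨fun i => ?_, fun i => ?_⟩
  · rw [hL, hL]
    exact lin_near hD h.1 (h1 i)
  · rw [hL, hL]
    exact lin_near hD h.2 (h2 i)

/-- Near lines have near cells. -/
theorem _root_.Pool.KA.Nr.cell (h : Nr F N s k c C ω ω') (i : Fin m) :
    |((⌊(2 : ℝ) ^ k i * mco N (F.xa s ω) i⌋ - ⌊(2 : ℝ) ^ k i * mco N (F.xa s ω') i⌋ : ℤ) : ℝ)| ≤
      C + 1 := floor_near (h.1 i)

theorem _root_.Pool.KA.Nr.vcell (h : Nr F N s k c C ω ω') (i : Fin m) :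
    |((⌊(2 : ℝ) ^ c i * mco N (F.d ω) i⌋ - ⌊(2 : ℝ) ^ c i * mco N (F.d ω') i⌋ : ℤ) : ℝ)| ≤
      C + 1 := floor_near (h.2 i)

end nr

/-! ### Conditional entropies -/

section ent

variable {F : Fam m J} {p : F.Ω → ℝ}

/-- The label is known up to a bounded number of values, if equal conditions give near lines. -/
theorem CH_of_nr {S : Type} (hp : IsLaw p) {g : ℕ} {k c : Fin m → ℕ}
    {M : F.Ω → Fin m → Fin m → ℝ} {C : ℝ} (W : F.Ω → S)
    (hW : ∀ ω ω', 0 < p ω → 0 < p ω' → W ω = W ω' →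
      Nr F (M ω) ((F.T1 g ω : ℝ) / 2 ^ g) k c C ω ω' ∧ F.T1 g ω = F.T1 g ω' ∧ M ω = M ω' ∧
        F.Z ω = F.Z ω') :
    CH p (F.mlb g k c M) W ≤ 2 * (m * Real.log (2 * C + 3)) := by
  have h0 := hp.nonneg
  have e7 : 2 * (C + 1) + 1 = 2 * C + 3 := by ring
  have k1 : CH p (F.mps g k M) W ≤ m * Real.log (2 * C + 3) := by
    rw [← e7]
    refine Lab.CH_fin_const hp _ W ?_
    intro ω ω' hω hω' h i
    obtain ⟨b1, b2, b3, b4⟩ := hW ω ω' hω hω' h
    have key := b1.cell i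
    have c1 : F.xa ((F.T1 g ω : ℝ) / 2 ^ g) ω = F.x1 g ω := rfl
    have c2 : F.xa ((F.T1 g ω : ℝ) / 2 ^ g) ω' = F.x1 g ω' := by rw [b2]; rfl
    rw [c1, c2] at key
    unfold Fam.mps flk
    rw [← b3]
    exact key
  have k2 : CH p (F.mvl c M) W ≤ m * Real.log (2 * C + 3) := by
    rw [← e7]
    refine Lab.CH_fin_const hp _ W ?_
    intro ω ω' hω hω' h i
    obtain ⟨b1, b2, b3, b4⟩ := hW ω ω' hω hω' h
    have key := b1.vcell i
    unfold Fam.mvl flk
    rw [← b3]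
    exact key
  have k3 : CH p (F.mlb g k c M) W ≤ CH p (fun ω => (F.mps g k M ω, F.mvl c M ω)) W := by
    have d1 := CH_le_add h0 (F.mlb g k c M) (fun ω => (F.mps g k M ω, F.mvl c M ω)) W
    have d2 : CH p (F.mlb g k c M) (fun ω => ((F.mps g k M ω, F.mvl c M ω), W ω)) = 0 := by
      refine CH_eq_zero h0 ?_
      intro ω ω' hω hω' h
      have e1 := Prod.ext_iff.mp h
      have e2 := Prod.ext_iff.mp e1.1
      obtain ⟨b1, b2, b3, b4⟩ := hW ω ω' hω hω' e1.2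
      exact mlb_mk b2 b3 e2.1 e2.2 b4
    linarith
  have k4 := CH_subadd h0 (F.mps g k M) (F.mvl c M) W
  linarith

/-- **Change of the label.** `W` determines the label `(g, k, c, M)`, the window `T1 g'` and the
frame `M'`. -/
theorem CH_mlb {S : Type} (hp : IsLaw p) {g g' : ℕ} {k c k' c' kk : Fin m → ℕ}
    {M M' : F.Ω → Fin m → Fin m → ℝ} {D : ℝ} (hg : g ≤ J) (hg' : g' ≤ J) (hD : 0 ≤ D)
    (hk1 : ∀ i, kk i ≤ k i) (hk2 : ∀ i, kk i ≤ c i + min g g')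
    (hL : ∀ ω, 0 < p ω → ∃ L, Cg (M ω) (M' ω) L ∧
      (∀ i j, |L i j| ≤ D * 2 ^ kk j / 2 ^ k' i) ∧ ∀ i j, |L i j| ≤ D * 2 ^ c j / 2 ^ c' i)
    (W : F.Ω → S) (hW : ∀ ω ω', 0 < p ω → 0 < p ω' → W ω = W ω' →
      F.mlb g k c M ω = F.mlb g k c M ω' ∧ F.T1 g' ω = F.T1 g' ω' ∧ M' ω = M' ω') :
    CH p (F.mlb g' k' c' M') W ≤ 2 * (m * Real.log (4 * m * D + 3)) := by
  have key := CH_of_nr (F := F) (g := g') (k := k') (c := c') (M := M') (C := m * D * (2 * 1))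
    hp W (by
      intro ω ω' hω hω' h
      obtain ⟨b1, b2, b3⟩ := hW ω ω' hω hω' h
      obtain ⟨L, l1, l2, l3⟩ := hL ω hω
      have n1 := nr_of_mlb b1
      have hs := Lab.time_near F hg hg' rfl ω
      have n2 := n1.time (s' := (F.T1 g' ω : ℝ) / 2 ^ g') zero_le_one hs hk1 hk2
      have n3 := n2.frame hD l1 l2 l3
      exact ⟨n3, b2, b3, (mlb_ext b1).2.2.2.2⟩)
  refine key.trans (le_of_eq ?_)
  congr 3
  ring

/-- The cells of the position at the exact time, in a frame. -/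
theorem CH_cell_of_nr {S : Type} (hp : IsLaw p) {k c : Fin m → ℕ}
    {M : F.Ω → Fin m → Fin m → ℝ} {C : ℝ} (W : F.Ω → S)
    (hW : ∀ ω ω', 0 < p ω → 0 < p ω' → W ω = W ω' →
      Nr F (M ω) (F.t ω) k c C ω ω' ∧ F.t ω = F.t ω' ∧ M ω = M ω') :
    CH p (fun ω => flk k (mco (M ω) (F.x ω))) W ≤ m * Real.log (2 * C + 3) := by
  have e7 : 2 * (C + 1) + 1 = 2 * C + 3 := by ring
  rw [← e7]
  refine Lab.CH_fin_const hp _ W ?_
  intro ω ω' hω hω' h i
  obtain ⟨b1, b2, b3⟩ := hW ω ω' hω hω' h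
  have key := b1.cell i
  have c1 : F.xa (F.t ω) ω = F.x ω := rfl
  have c2 : F.xa (F.t ω) ω' = F.x ω' := by rw [b2]; rfl
  rw [c1, c2] at key
  unfold flk
  rw [← b3]
  exact key

/-- A vector of real numbers on a grid which is known up to a few units of the grid. -/
theorem CH_grid {S : Type} (hp : IsLaw p) {n l : ℕ} (f : F.Ω → Fin n → ℝ) (C : ℝ)
    (hgr : ∀ ω i, ∃ a : ℤ, f ω i = a / 2 ^ l) (W : F.Ω → S)
    (hW : ∀ ω ω', 0 < p ω → 0 < p ω' → W ω = W ω' → ∀ i, |f ω i - f ω' i| ≤ C / 2 ^ l) :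
    CH p f W ≤ n * Real.log (2 * C + 3) := by
  have h0 := hp.nonneg
  have e7 : 2 * (C + 1) + 1 = 2 * C + 3 := by ring
  have k1 : CH p (fun ω (i : Fin n) => ⌊(2 : ℝ) ^ l * f ω i⌋) W ≤ n * Real.log (2 * C + 3) := by
    rw [← e7]
    exact Plk.CH_vec_const (m := n) hp (fun ω (i : Fin n) => ⌊(2 : ℝ) ^ l * f ω i⌋) W
      (c := C + 1) (fun ω ω' hω hω' h i => floor_near (hW ω ω' hω hω' h i))
  refine le_trans (CH_mono_left h0 ?_) k1
  intro ω ω' _ _ h
  have h1 : (fun i => ⌊(2 : ℝ) ^ l * f ω i⌋) = fun i => ⌊(2 : ℝ) ^ l * f ω' i⌋ :=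
    (Prod.ext_iff.mp h).1
  funext i
  obtain ⟨a, ha⟩ := hgr ω i
  obtain ⟨b, hb⟩ := hgr ω' i
  have h2 := congrFun h1 i
  have e1 : (2 : ℝ) ^ l * f ω i = a := by
    rw [ha]
    field_simp
  have e2 : (2 : ℝ) ^ l * f ω' i = b := by
    rw [hb]
    field_simp
  simp only [e1, e2, Int.floor_intCast] at h2
  rw [ha, hb, h2]

end ent

end Box

end Pool.KA
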