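import Pool.Agent.H8.KS6.Box

/-!
# Boxes with several precisions: positions, rows, digits

The position at the exact time in the coordinates of the natural box; the rows of the position in
a moving frame; change of the context for fixed rows; digits of the coordinates in the box.
-/

set_option autoImplicit false

namespace Pool.KA

open Finset Real
open Pool.Agent.H49.Ent Pool.Agent.H32.Dense Pool.STK

variable {m J : ℕ}

/-- The position in the natural box at the time of the sample, in units of the box, relative to the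
corner of the cell moving with the velocity of the cell. -/
noncomputable def Fam.mx (F : Fam m J) (w : ℕ) (c : Fin m → ℕ) (M : F.Ω → Fin m → Fin m → ℝ)
    (ω : F.Ω) (i : Fin m) : ℝ := F.mu w (fun i => c i + w) M ω i + F.wt w ω * F.md c M ω i

/-- The known part of the position. -/
noncomputable def Fam.mkn (F : Fam m J) (w : ℕ) (c : Fin m → ℕ) (M : F.Ω → Fin m → Fin m → ℝ)
    (ω : F.Ω) (i : Fin m) : ℝ :=
  F.mps w (fun i => c i + w) M ω i + F.wt w ω * F.mvl c M ω i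

/-- The rows of the position in the frame with the coefficients `S` relative to the box. -/
noncomputable def Fam.mr (F : Fam m J) (w : ℕ) (c : Fin m → ℕ) (M : F.Ω → Fin m → Fin m → ℝ)
    (S : F.Ω → Fin m → ℝ) (ω : F.Ω) : ℝ := ∑ j, S ω j * F.mx w c M ω j

/-- The known part of the row. -/
noncomputable def Fam.mrk (F : Fam m J) (w : ℕ) (c : Fin m → ℕ) (M : F.Ω → Fin m → Fin m → ℝ)
    (S : F.Ω → Fin m → ℝ) (ω : F.Ω) : ℝ := ∑ j, S ω j * F.mkn w c M ω j

/-- The covector `n`, with `k` digits, has the coefficients `S` relative to the box. -/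
def Cf (M : Fin m → Fin m → ℝ) (κ : Fin m → ℕ) (n : Fin m → ℝ) (k : ℕ) (S : Fin m → ℝ) : Prop :=
  ∀ x : Fin m → ℝ, 2 ^ k * (∑ j, n j * x j) = ∑ j, S j * (2 ^ κ j * mco M x j)

namespace Box

/-! ### Coefficients of covectors -/

theorem cf_row (M : Fin m → Fin m → ℝ) (κ : Fin m → ℕ) (i : Fin m) :
    Cf M κ (M i) (κ i) fun j => if j = i then 1 else 0 := by
  intro x
  simp [mco]

theorem cf_add {M : Fin m → Fin m → ℝ} {κ : Fin m → ℕ} {n n' : Fin m → ℝ} {k : ℕ}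
    {S S' : Fin m → ℝ} (h : Cf M κ n k S) (h' : Cf M κ n' k S') :
    Cf M κ (fun j => n j + n' j) k fun j => S j + S' j := by
  intro x
  have e1 : (2 : ℝ) ^ k * (∑ j, (n j + n' j) * x j) =
      2 ^ k * (∑ j, n j * x j) + 2 ^ k * (∑ j, n' j * x j) := by
    rw [← mul_add, ← Finset.sum_add_distrib]
    congr 1
    exact Finset.sum_congr rfl fun j _ => by ring
  rw [e1, h x, h' x, ← Finset.sum_add_distrib]
  exact Finset.sum_congr rfl fun j _ => by ring

theorem cf_smul {M : Fin m → Fin m → ℝ} {κ : Fin m → ℕ} {n : Fin m → ℝ} {k : ℕ}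
    {S : Fin m → ℝ} (h : Cf M κ n k S) (t : ℝ) :
    Cf M κ (fun j => t * n j) k fun j => t * S j := by
  intro x
  have e1 : (2 : ℝ) ^ k * (∑ j, t * n j * x j) = t * (2 ^ k * (∑ j, n j * x j)) := by
    rw [Finset.mul_sum, Finset.mul_sum, Finset.mul_sum]
    exact Finset.sum_congr rfl fun j _ => by ring
  rw [e1, h x, Finset.mul_sum]
  exact Finset.sum_congr rfl fun j _ => by ring

/-- Every covector has coefficients, if the matrix has a left inverse. -/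
theorem cf_inv {M M' : Fin m → Fin m → ℝ} (h : ∀ (x : Fin m → ℝ) (i : Fin m),
    ∑ j, M' i j * mco M x j = x i) (κ : Fin m → ℕ) (n : Fin m → ℝ) (k : ℕ) :
    Cf M κ n k fun j => 2 ^ k / 2 ^ κ j * ∑ i, n i * M' i j := by
  intro x
  have e1 : ∀ j, 2 ^ k / 2 ^ κ j * (∑ i, n i * M' i j) * (2 ^ κ j * mco M x j) =
      2 ^ k * ∑ i, n i * (M' i j * mco M x j) := by
    intro j
    have : (2 : ℝ) ^ κ j ≠ 0 := by positivity
    have e2 : 2 ^ k / 2 ^ κ j * (∑ i, n i * M' i j) * (2 ^ κ j * mco M x j) =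
        2 ^ k * ((∑ i, n i * M' i j) * mco M x j) := by
      field_simp
    rw [e2, Finset.sum_mul]
    congr 1
    exact Finset.sum_congr rfl fun i _ => by ring
  rw [Finset.sum_congr rfl fun j _ => e1 j, ← Finset.mul_sum, Finset.sum_comm]
  congr 1
  refine Finset.sum_congr rfl fun i _ => ?_
  rw [← Finset.mul_sum, h x i]

/-! ### Positions -/

theorem pos_eq (F : Fam m J) {w : ℕ} (hw : w ≤ J) (c : Fin m → ℕ)
    (M : F.Ω → Fin m → Fin m → ℝ) (ω : F.Ω) (i : Fin m) :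
    2 ^ (c i + w) * mco (M ω) (F.x ω) i = F.mx w c M ω i + F.mkn w c M ω i := by
  have h1 : F.x ω = fun j => F.x1 w ω j + (F.wt w ω * (2 ^ w)⁻¹) * F.d ω j := by
    funext j
    unfold Fam.x Fam.x1
    rw [Lab.t_eq F hw ω]
    ring
  have h2 := mps_add F w (fun i => c i + w) M ω i
  have h3 := mvl_add F c M ω i
  have h4 : (2 : ℝ) ^ (c i + w) * (F.wt w ω * (2 ^ w)⁻¹ * mco (M ω) (F.d ω) i) =
      F.wt w ω * (2 ^ c i * mco (M ω) (F.d ω) i) := by
    rw [pow_add]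
    have : (2 : ℝ) ^ w ≠ 0 := by positivity
    field_simp
  rw [h1, mco_add_mul, mul_add, h2, h4, h3]
  unfold Fam.mx Fam.mkn
  ring

/-- The row is the position in the moving frame up to the known part. -/
theorem row_eq (F : Fam m J) {w : ℕ} (hw : w ≤ J) {c : Fin m → ℕ}
    {M : F.Ω → Fin m → Fin m → ℝ} {S : F.Ω → Fin m → ℝ} {ω : F.Ω} {n : Fin m → ℝ} {k : ℕ}
    (hS : Cf (M ω) (fun i => c i + w) n k (S ω)) :
    F.mr w c M S ω = 2 ^ k * (∑ j, n j * F.x ω j) - F.mrk w c M S ω := by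
  have h1 := hS (F.x ω)
  have h2 : ∑ j, S ω j * (2 ^ (c j + w) * mco (M ω) (F.x ω) j) =
      F.mr w c M S ω + F.mrk w c M S ω := by
    unfold Fam.mr Fam.mrk
    rw [← Finset.sum_add_distrib]
    refine Finset.sum_congr rfl fun j _ => ?_
    rw [pos_eq F hw]
    ring
  rw [h2] at h1
  linarith

section det

variable {F : Fam m J} {w : ℕ} {c : Fin m → ℕ} {M : F.Ω → Fin m → Fin m → ℝ}
  {S : F.Ω → Fin m → ℝ} {ω ω' : F.Ω}

theorem mkn_det (hb : F.blb w c M ω = F.blb w c M ω') (hT : F.T ω = F.T ω') :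
    F.mkn w c M ω = F.mkn w c M ω' := by
  obtain ⟨h1, h2, h3, h4, h5⟩ := mlb_ext hb
  funext i
  unfold Fam.mkn Fam.wt
  rw [h3, h4, hT]

theorem mrk_det (hb : F.blb w c M ω = F.blb w c M ω') (hT : F.T ω = F.T ω')
    (hS : S ω = S ω') : F.mrk w c M S ω = F.mrk w c M S ω' := by
  unfold Fam.mrk
  rw [mkn_det hb hT, hS]

/-- Two places with the same label, time and coefficients. -/
theorem row_sub (hw : w ≤ J) {n n' : Fin m → ℝ} {k : ℕ}
    (hS : Cf (M ω) (fun i => c i + w) n k (S ω))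
    (hS' : Cf (M ω') (fun i => c i + w) n' k (S ω'))
    (hb : F.blb w c M ω = F.blb w c M ω') (hT : F.T ω = F.T ω') (hSS : S ω = S ω') :
    F.mr w c M S ω - F.mr w c M S ω' =
      2 ^ k * (∑ j, n j * F.x ω j) - 2 ^ k * (∑ j, n' j * F.x ω' j) := by
  rw [row_eq F hw hS, row_eq F hw hS', mrk_det hb hT hSS]
  ring

/-- The differences of the positions at the exact time, in units of the box. -/
theorem mx_near (hw : w ≤ J) (hb : F.blb w c M ω = F.blb w c M ω') (hT : F.T ω = F.T ω')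
    (i : Fin m) : |2 ^ (c i + w) * mco (M ω) (F.x ω) i - 2 ^ (c i + w) * mco (M ω) (F.x ω') i| ≤
      2 := by
  have n1 := nr_of_mlb hb
  have hs : |F.t ω - (F.T1 w ω : ℝ) / 2 ^ w| ≤ 1 / 2 ^ w := by
    have := Lab.time_near F hw le_rfl (v := w) (min_eq_left hw).symm ω
    rw [Lab.T1_J] at this
    exact this
  have n2 := (n1.time (k' := fun i => c i + w) zero_le_one hs (fun _ => le_rfl)
    (fun _ => le_rfl)).1 i
  have x1 : F.xa (F.t ω) ω = F.x ω := rfl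
  have x2 : F.xa (F.t ω) ω' = F.x ω' := by
    have : F.t ω = F.t ω' := by
      unfold Fam.t
      rw [hT]
    rw [this]
    rfl
  rw [x1, x2] at n2
  rw [← mul_sub, abs_mul, abs_of_pos (by positivity : (0 : ℝ) < 2 ^ (c i + w))]
  calc (2 : ℝ) ^ (c i + w) * |mco (M ω) (F.x ω) i - mco (M ω) (F.x ω') i| ≤
      2 ^ (c i + w) * (2 * 1 / 2 ^ (c i + w)) := mul_le_mul_of_nonneg_left n2 (by positivity)
    _ = 2 := by field_simp

end det

/-- Change of the context for fixed rows: two places with the same labels, times and coefficients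
in two contexts; the covectors of the two contexts differ by a covector with coefficients at most
`D / 2 ^ X` relative to the second box. The rows differ by the same amount up to `2 m D` units of
the digit `X`. -/
theorem row_change (F : Fam m J) {w w' : ℕ} (hw : w ≤ J) (hw' : w' ≤ J) {c c' : Fin m → ℕ}
    {M M' : F.Ω → Fin m → Fin m → ℝ} {S S' : F.Ω → Fin m → ℝ} {ω ω' : F.Ω} {n n' : Fin m → ℝ}
    {k X : ℕ} (hS : Cf (M ω) (fun i => c i + w) n k (S ω))
    (hSo : Cf (M ω') (fun i => c i + w) n k (S ω'))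
    (hS' : Cf (M' ω) (fun i => c' i + w') n' k (S' ω))
    (hSo' : Cf (M' ω') (fun i => c' i + w') n' k (S' ω'))
    (hb : F.blb w c M ω = F.blb w c M ω') (hb' : F.blb w' c' M' ω = F.blb w' c' M' ω')
    (hT : F.T ω = F.T ω') (hSS : S ω = S ω') (hSS' : S' ω = S' ω') {E : Fin m → ℝ} {D : ℝ}
    (hE : Cf (M' ω) (fun i => c' i + w') (fun j => n j - n' j) k E)
    (hD : ∀ j, 2 ^ X * |E j| ≤ D) :
    |2 ^ X * (F.mr w c M S ω - F.mr w c M S ω') -
      2 ^ X * (F.mr w' c' M' S' ω - F.mr w' c' M' S' ω')| ≤ 2 * m * D := by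
  have n1 := row_sub hw hS hSo hb hT hSS
  have n2 := row_sub hw' hS' hSo' hb' hT hSS'
  have h1 := hE (F.x ω)
  have h2 := hE (F.x ω')
  have e3 : ∀ x : Fin m → ℝ, (2 : ℝ) ^ k * (∑ j, (n j - n' j) * x j) =
      2 ^ k * (∑ j, n j * x j) - 2 ^ k * (∑ j, n' j * x j) := by
    intro x
    rw [← mul_sub, ← Finset.sum_sub_distrib]
    congr 1
    exact Finset.sum_congr rfl fun j _ => by ring
  rw [e3] at h1 h2
  have e4 : 2 ^ X * (F.mr w c M S ω - F.mr w c M S ω') -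
      2 ^ X * (F.mr w' c' M' S' ω - F.mr w' c' M' S' ω') =
      ∑ j, (2 ^ X * E j) * (2 ^ (c' j + w') * mco (M' ω) (F.x ω) j -
        2 ^ (c' j + w') * mco (M' ω) (F.x ω') j) := by
    have e5 : ∑ j, (2 ^ X * E j) * (2 ^ (c' j + w') * mco (M' ω) (F.x ω) j -
        2 ^ (c' j + w') * mco (M' ω) (F.x ω') j) =
        2 ^ X * (∑ j, E j * (2 ^ (c' j + w') * mco (M' ω) (F.x ω) j)) -
        2 ^ X * (∑ j, E j * (2 ^ (c' j + w') * mco (M' ω) (F.x ω') j)) := by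
      rw [← mul_sub, ← Finset.sum_sub_distrib, Finset.mul_sum]
      exact Finset.sum_congr rfl fun j _ => by ring
    rw [e5, ← h1, ← h2, n1, n2]
    ring
  rw [e4]
  refine (Finset.abs_sum_le_sum_abs _ _).trans ?_
  have h3 : ∀ j ∈ (Finset.univ : Finset (Fin m)), |(2 ^ X * E j) *
      (2 ^ (c' j + w') * mco (M' ω) (F.x ω) j - 2 ^ (c' j + w') * mco (M' ω) (F.x ω') j)| ≤
      D * 2 := by
    intro j _
    rw [abs_mul, abs_mul, abs_of_pos (by positivity : (0 : ℝ) < 2 ^ X)]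
    have hD0 : 0 ≤ D := le_trans (by positivity) (hD j)
    exact mul_le_mul (hD j) (mx_near hw' hb' hT j) (abs_nonneg _) hD0
  refine (Finset.sum_le_sum h3).trans (le_of_eq ?_)
  rw [Finset.sum_const, Finset.card_univ, Fintype.card_fin, nsmul_eq_mul]
  ring

/-! ### Digits -/

theorem fl_mu (F : Fam m J) (g : ℕ) (k : Fin m → ℕ) (M : F.Ω → Fin m → Fin m → ℝ) (X : ℕ)
    (ω : F.Ω) (i : Fin m) : ⌊(2 : ℝ) ^ X * F.mu g k M ω i⌋ =
      F.mps g (fun i => k i + X) M ω i - 2 ^ X * F.mps g k M ω i := by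
  change ⌊(2 : ℝ) ^ X * Int.fract (2 ^ k i * mco (M ω) (F.x1 g ω) i)⌋ =
    ⌊(2 : ℝ) ^ (k i + X) * mco (M ω) (F.x1 g ω) i⌋ -
      2 ^ X * ⌊(2 : ℝ) ^ k i * mco (M ω) (F.x1 g ω) i⌋
  rw [Lab.floor_fract, pow_add]
  congr 2
  ring

theorem fl_md (F : Fam m J) (c : Fin m → ℕ) (M : F.Ω → Fin m → Fin m → ℝ) (X : ℕ)
    (ω : F.Ω) (i : Fin m) : ⌊(2 : ℝ) ^ X * F.md c M ω i⌋ =
      F.mvl (fun i => c i + X) M ω i - 2 ^ X * F.mvl c M ω i := by
  change ⌊(2 : ℝ) ^ X * Int.fract (2 ^ c i * mco (M ω) (F.d ω) i)⌋ =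
    ⌊(2 : ℝ) ^ (c i + X) * mco (M ω) (F.d ω) i⌋ -
      2 ^ X * ⌊(2 : ℝ) ^ c i * mco (M ω) (F.d ω) i⌋
  rw [Lab.floor_fract, pow_add]
  congr 2
  ring

/-- The digits of the line in the box are a function of the finer label. -/
theorem digits_det {F : Fam m J} {g : ℕ} {k c : Fin m → ℕ} {M : F.Ω → Fin m → Fin m → ℝ}
    {X : ℕ} {ω ω' : F.Ω} (h : F.mlb g k c M ω = F.mlb g k c M ω')
    (hX : F.mlb g (fun i => k i + X) (fun i => c i + X) M ω =
      F.mlb g (fun i => k i + X) (fun i => c i + X) M ω') (i : Fin m) :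
    ⌊(2 : ℝ) ^ X * F.mu g k M ω i⌋ = ⌊(2 : ℝ) ^ X * F.mu g k M ω' i⌋ ∧
      ⌊(2 : ℝ) ^ X * F.md c M ω i⌋ = ⌊(2 : ℝ) ^ X * F.md c M ω' i⌋ := by
  obtain ⟨h1, h2, h3, h4, h5⟩ := mlb_ext h
  obtain ⟨g1, g2, g3, g4, g5⟩ := mlb_ext hX
  rw [fl_mu, fl_mu, fl_md, fl_md, h3, h4, g3, g4]
  exact ⟨rfl, rfl⟩

theorem fract_lift {x y : ℝ} {k X : ℕ} (h1 : ⌊(2 : ℝ) ^ k * x⌋ = ⌊(2 : ℝ) ^ k * y⌋)
    (h2 : ⌊(2 : ℝ) ^ X * Int.fract (2 ^ k * x)⌋ = ⌊(2 : ℝ) ^ X * Int.fract (2 ^ k * y)⌋) :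
    ⌊(2 : ℝ) ^ (k + X) * x⌋ = ⌊(2 : ℝ) ^ (k + X) * y⌋ := by
  rw [Lab.floor_fract, Lab.floor_fract, h1] at h2
  have e1 : ∀ z : ℝ, (2 : ℝ) ^ (k + X) * z = 2 ^ X * (2 ^ k * z) := by
    intro z
    rw [pow_add]
    ring
  rw [e1, e1]
  linarith

/-- Conversely, the finer label is a function of the label and the digits. -/
theorem digits_mk {F : Fam m J} {g : ℕ} {k c : Fin m → ℕ} {M : F.Ω → Fin m → Fin m → ℝ}
    {X : ℕ} {ω ω' : F.Ω} (h : F.mlb g k c M ω = F.mlb g k c M ω')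
    (hX : ∀ i, ⌊(2 : ℝ) ^ X * F.mu g k M ω i⌋ = ⌊(2 : ℝ) ^ X * F.mu g k M ω' i⌋ ∧
      ⌊(2 : ℝ) ^ X * F.md c M ω i⌋ = ⌊(2 : ℝ) ^ X * F.md c M ω' i⌋) :
    F.mlb g (fun i => k i + X) (fun i => c i + X) M ω =
      F.mlb g (fun i => k i + X) (fun i => c i + X) M ω' := by
  obtain ⟨h1, h2, h3, h4, h5⟩ := mlb_ext h
  refine mlb_mk h1 h2 ?_ ?_ h5
  · funext i
    exact fract_lift (congrFun h3 i) (hX i).1
  · funext i
    exact fract_lift (congrFun h4 i) (hX i).2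

/-! ### The line in the box -/

theorem label_det (F : Fam m J) {g : ℕ} {k c : Fin m → ℕ} {M : F.Ω → Fin m → Fin m → ℝ}
    {ω ω' : F.Ω} (hl : F.l ω = F.l ω') (hT : F.T1 g ω = F.T1 g ω') (hM : M ω = M ω')
    (hZ : F.Z ω = F.Z ω') : F.mlb g k c M ω = F.mlb g k c M ω' ∧
      F.mu g k M ω = F.mu g k M ω' ∧ F.md c M ω = F.md c M ω' := by
  have hu : F.u ω = F.u ω' := (Prod.ext_iff.mp hl).1
  have hd : F.d ω = F.d ω' := (Prod.ext_iff.mp hl).2
  have hx : F.x1 g ω = F.x1 g ω' := by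
    funext i
    unfold Fam.x1
    rw [hu, hd, hT]
  refine ⟨?_, ?_, ?_⟩
  · unfold Fam.mlb Fam.mps Fam.mvl
    rw [hT, hM, hx, hd, hZ]
  · funext i
    unfold Fam.mu
    rw [hM, hx]
  · funext i
    unfold Fam.md
    rw [hM, hd]

/-- The line is a function of the label and the line in the box, if the frame is injective. -/
theorem line_det_mlb (F : Fam m J) {g : ℕ} {k c : Fin m → ℕ} {M : F.Ω → Fin m → Fin m → ℝ}
    {ω ω' : F.Ω} (hI : ∀ x y : Fin m → ℝ, (∀ i, mco (M ω) x i = mco (M ω) y i) → x = y)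
    (hb : F.mlb g k c M ω = F.mlb g k c M ω') (hu : F.mu g k M ω = F.mu g k M ω')
    (hd : F.md c M ω = F.md c M ω') :
    F.l ω = F.l ω' ∧ F.T1 g ω = F.T1 g ω' ∧ M ω = M ω' ∧ F.Z ω = F.Z ω' := by
  obtain ⟨h1, h2, h3, h4, h5⟩ := mlb_ext hb
  have hD : F.d ω = F.d ω' := by
    refine hI _ _ fun i => ?_
    have k1 := mvl_add F c M ω i
    have k2 := mvl_add F c M ω' i
    rw [h4, hd, ← k2, ← h2] at k1
    exact mul_left_cancel₀ (by positivity) k1
  have hx : F.x1 g ω = F.x1 g ω' := by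
    refine hI _ _ fun i => ?_
    have k1 := mps_add F g k M ω i
    have k2 := mps_add F g k M ω' i
    rw [h3, hu, ← k2, ← h2] at k1
    exact mul_left_cancel₀ (by positivity) k1
  have hU : F.u ω = F.u ω' := by
    funext i
    have k1 := congrFun hx i
    unfold Fam.x1 at k1
    rw [h1, hD] at k1
    linarith
  exact ⟨Prod.ext hU hD, h1, h2, h5⟩

/-! ### Labels from the exact point -/

/-- The label is given up to a bounded number of values by the exact point, the time, and the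
velocity in the frame of the exact point to the precisions `h`. -/
theorem CH_mlb_of_pt {F : Fam m J} {p : F.Ω → ℝ} {S : Type} (hp : IsLaw p) {g : ℕ} (hg : g ≤ J)
    {k c h r : Fin m → ℕ} {N M : F.Ω → Fin m → Fin m → ℝ} {B D : ℝ} (hB : 0 ≤ B) (hD : 0 ≤ D)
    (hN : ∀ ω, 0 < p ω → ∀ i j, |N ω i j| ≤ B) (hr : ∀ i, r i ≤ J) (hr2 : ∀ i, r i ≤ h i + g)
    (hL : ∀ ω, 0 < p ω → ∃ L, Cg (N ω) (M ω) L ∧
      (∀ i j, |L i j| ≤ D * 2 ^ r j / 2 ^ k i) ∧ ∀ i j, |L i j| ≤ D * 2 ^ h j / 2 ^ c i)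
    (W : F.Ω → S) (hW : ∀ ω ω', 0 < p ω → 0 < p ω' → W ω = W ω' →
      F.X J ω = F.X J ω' ∧ F.W ω = F.W ω' ∧ N ω = N ω' ∧ M ω = M ω' ∧
        ∀ i, |mco (N ω) (F.d ω) i - mco (N ω) (F.d ω') i| ≤ B / 2 ^ h i) :
    CH p (F.mlb g k c M) W ≤ 2 * (m * Real.log (2 * (m * D * (2 * (m * B + B))) + 3)) := by
  refine CH_of_nr hp W ?_
  intro ω ω' hω hω' hh
  obtain ⟨b1, b2, b3, b4, b5⟩ := hW ω ω' hω hω' hh
  have bT : F.T ω = F.T ω' := (Prod.ext_iff.mp b2).1
  have bZ : F.Z ω = F.Z ω' := (Prod.ext_iff.mp b2).2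
  have ht : F.t ω = F.t ω' := by
    unfold Fam.t
    rw [bT]
  have kx : ∀ i, |F.x ω i - F.x ω' i| ≤ 1 / 2 ^ J := fun i =>
    near_of_floor (congrFun b1 i : ⌊2 ^ J * F.x ω i⌋ = ⌊2 ^ J * F.x ω' i⌋)
  have n0 : Nr F (N ω) (F.t ω) (fun _ => J) h (m * B + B) ω ω' := by
    refine ⟨fun i => ?_, fun i => (b5 i).trans (div_le_div_of_nonneg_right (by
      have : 0 ≤ (m : ℝ) * B := by positivity
      linarith) (by positivity))⟩
    have x1 : F.xa (F.t ω) ω = F.x ω := rfl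
    have x2 : F.xa (F.t ω) ω' = F.x ω' := by
      rw [ht]
      rfl
    rw [x1, x2]
    have key := lin_near (a := F.x ω) (b := F.x ω') (k := fun _ => J) (n := J) (C := 1)
      (L := N ω) hB kx (i := i) (fun j => by
        have e : B * 2 ^ J / (2 : ℝ) ^ J = B := by field_simp
        rw [e]
        exact hN ω hω i j)
    refine key.trans (div_le_div_of_nonneg_right (by linarith) (by positivity))
  have hs : |(F.T1 g ω : ℝ) / 2 ^ g - F.t ω| ≤ 1 / 2 ^ g := by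
    have := Lab.time_near F hg le_rfl (v := g) (min_eq_left hg).symm ω
    rw [Lab.T1_J, abs_sub_comm] at this
    exact this
  have n1 := n0.time (k' := r) (by positivity) hs hr hr2
  obtain ⟨L, l1, l2, l3⟩ := hL ω hω
  exact ⟨n1.frame hD l1 l2 l3, Lab.T1_of_T bT, b4, bZ⟩

end Box

end Pool.KA
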