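import Pool.Agent.H8.KS6.YEnt

set_option autoImplicit false

/-!
# The full block lemma in any dimension (row FBK)

`X` a random integer vector of dimension `d`, `F` a context.  If, for most values `f` of `F`, the law of `X` given `f` is
nearly invariant under `d` vectors `v_1, .., v_d` of length at most `a` with determinant at least `delta a^d`, then the
vector `X / a` has nearly full entropy in every cube of side `m`: it has mean conditional probability at most
`d n e + (3 (2 D + 1))^d / n^d`, for every `n ≤ m / d`, `D ≥ d! / delta`.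
-/

namespace Pool.S6F

open Finset Pool.Agent.H49.Ent

/-- coordinatewise floor division -/
def dv {d : ℕ} (a : ℤ) (x : Fin d → ℤ) : Fin d → ℤ := fun i => x i / a

/-- integer combination of the vectors `v j` -/
def cmb {d : ℕ} (v : Fin d → Fin d → ℤ) (l : Fin d → ℤ) : Fin d → ℤ := fun i => ∑ j, l j * v j i

lemma dv_dv {d : ℕ} {a m : ℤ} (ha : 0 ≤ a) (x : Fin d → ℤ) : dv m (dv a x) = dv (a * m) x := by
  funext i
  show x i / a / m = x i / (a * m)
  rw [Int.ediv_ediv_of_nonneg ha]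

/-- Cramer: integer coefficients of a short combination are bounded -/
lemma coef_bound {d : ℕ} (v : Fin d → Fin d → ℤ) (a : ℤ) (ha : 0 < a) (hv : ∀ j i, |v j i| ≤ a) (D : ℕ)
    (hD : (d.factorial : ℤ) * a ^ d ≤ D * |(Matrix.of v).det|) (z : Fin d → ℤ) (hz : ∀ i, |cmb v z i| ≤ a)
    (j : Fin d) : |z j| ≤ D := by
  set A : Matrix (Fin d) (Fin d) ℤ := (Matrix.of v).transpose with hA
  have hdet : A.det = (Matrix.of v).det := Matrix.det_transpose _
  have hb : A.mulVec z = cmb v z := by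
    funext i
    show ∑ j, A i j * z j = ∑ j, z j * v j i
    refine Finset.sum_congr rfl (fun j _ => ?_)
    rw [hA, Matrix.transpose_apply, Matrix.of_apply]
    ring
  have h1 : A.cramer (cmb v z) = A.det • z := by
    rw [← hb, Matrix.cramer_eq_adjugate_mulVec, Matrix.mulVec_mulVec, Matrix.adjugate_mul,
      Matrix.smul_mulVec, Matrix.one_mulVec]
  have h2 : (A.updateCol j (cmb v z)).det = A.det * z j := by
    have := congrFun h1 j
    rw [Matrix.cramer_apply] at this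
    rw [this]; rfl
  have h3 : |(A.updateCol j (cmb v z)).det| ≤ (d.factorial : ℤ) * a ^ d := by
    have h4 := Matrix.det_le (A := A.updateCol j (cmb v z)) (abv := AbsoluteValue.abs) (x := a) (by
      intro i k
      show |(A.updateCol j (cmb v z)) i k| ≤ a
      rw [Matrix.updateCol_apply]
      split_ifs
      · exact hz i
      · rw [hA, Matrix.transpose_apply, Matrix.of_apply]; exact hv k i)
    rw [Fintype.card_fin] at h4
    simpa using h4
  rw [h2, abs_mul, hdet] at h3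
  have h5 : 0 < (d.factorial : ℤ) * a ^ d := by
    have : 0 < (d.factorial : ℤ) := by exact_mod_cast d.factorial_pos
    positivity
  have h6 : 0 < |(Matrix.of v).det| := by
    by_contra hc
    have : |(Matrix.of v).det| = 0 := le_antisymm (not_lt.1 hc) (abs_nonneg _)
    rw [this, mul_zero] at hD
    omega
  have h7 : |(Matrix.of v).det| * |z j| ≤ |(Matrix.of v).det| * D := by
    rw [mul_comm _ (D : ℤ)]; exact le_trans h3 hD
  exact le_of_mul_le_mul_left h7 h6

lemma abs_sub_of_ediv_eq {a x y : ℤ} (ha : 0 < a) (h : x / a = y / a) : |x - y| ≤ a := by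
  have h1 := Int.emod_add_mul_ediv x a
  have h2 := Int.emod_add_mul_ediv y a
  have h3 := Int.emod_nonneg x ha.ne'
  have h4 := Int.emod_lt_of_pos x ha
  have h5 := Int.emod_nonneg y ha.ne'
  have h6 := Int.emod_lt_of_pos y ha
  rw [h] at h1
  rw [abs_le]
  constructor <;> linarith

/-- few combinations fall into one cube of side `a` -/
lemma mult_bound {d : ℕ} (v : Fin d → Fin d → ℤ) (a : ℤ) (ha : 0 < a) (hv : ∀ j i, |v j i| ≤ a) (D : ℕ)
    (hD : (d.factorial : ℤ) * a ^ d ≤ D * |(Matrix.of v).det|) (n : ℕ) (x y : Fin d → ℤ) :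
    (univ.filter (fun l : Fin d → Fin n => dv a (x + cmb v (fun j => ((l j : ℕ) : ℤ))) = y)).card
      ≤ (2 * D + 1) ^ d := by
  classical
  set S := univ.filter (fun l : Fin d → Fin n => dv a (x + cmb v (fun j => ((l j : ℕ) : ℤ))) = y) with hS
  rcases Finset.eq_empty_or_nonempty S with h0 | ⟨l0, hl0⟩
  · rw [h0]; simp
  · have hc : (Fintype.piFinset (fun j : Fin d => Icc (((l0 j : ℕ) : ℤ) - D) (((l0 j : ℕ) : ℤ) + D))).card
        = (2 * D + 1) ^ d := by
      rw [Fintype.card_piFinset]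
      have : ∀ j ∈ (univ : Finset (Fin d)), (Icc (((l0 j : ℕ) : ℤ) - D) (((l0 j : ℕ) : ℤ) + D)).card
          = 2 * D + 1 := by
        intro j _
        rw [Int.card_Icc]
        have : ((l0 j : ℕ) : ℤ) + D + 1 - (((l0 j : ℕ) : ℤ) - D) = ((2 * D + 1 : ℕ) : ℤ) := by
          push_cast; ring
        rw [this, Int.toNat_natCast]
      rw [Finset.prod_congr rfl this, Finset.prod_const, Finset.card_univ, Fintype.card_fin]
    rw [← hc]
    refine Finset.card_le_card_of_injOn (fun l j => ((l j : ℕ) : ℤ)) ?_ ?_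
    · intro l hl
      have hl' := (Finset.mem_filter.1 (Finset.mem_coe.1 hl)).2
      have hl0' := (Finset.mem_filter.1 hl0).2
      have hz : ∀ i, |cmb v (fun j => ((l j : ℕ) : ℤ) - ((l0 j : ℕ) : ℤ)) i| ≤ a := by
        intro i
        have e1 : (x i + cmb v (fun j => ((l j : ℕ) : ℤ)) i) / a
            = (x i + cmb v (fun j => ((l0 j : ℕ) : ℤ)) i) / a := by
          have := congrFun (hl'.trans hl0'.symm) i
          exact this
        have e2 := abs_sub_of_ediv_eq ha e1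
        have e3 : cmb v (fun j => ((l j : ℕ) : ℤ) - ((l0 j : ℕ) : ℤ)) i
            = x i + cmb v (fun j => ((l j : ℕ) : ℤ)) i - (x i + cmb v (fun j => ((l0 j : ℕ) : ℤ)) i) := by
          unfold cmb
          simp only [sub_mul, Finset.sum_sub_distrib]
          ring
        rw [e3]; exact e2
      have hb := coef_bound v a ha hv D hD _ hz
      rw [Finset.mem_coe, Fintype.mem_piFinset]
      intro j
      rw [Finset.mem_Icc]
      have := abs_le.1 (hb j)
      constructor <;> linarith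
    · intro l _ l' _ h
      funext j
      have := congrFun h j
      simp only [Nat.cast_inj] at this
      exact Fin.ext this

/-- weights of the cubes near `x` -/
lemma sum_cells {d : ℕ} (W : (Fin d → ℤ) → ℝ) (m : ℤ)
    (hcell : ∀ (S : Finset (Fin d → ℤ)) (c : Fin d → ℤ), ∑ y ∈ S with dv m y = c, W y ≤ 1)
    (S : Finset (Fin d → ℤ)) (c0 : Fin d → ℤ) (hS : ∀ y ∈ S, ∀ i, dv m y i ∈ Icc (c0 i - 1) (c0 i + 1)) :
    ∑ y ∈ S, W y ≤ 3 ^ d := by
  classical
  set C := Fintype.piFinset (fun i : Fin d => Icc (c0 i - 1) (c0 i + 1)) with hC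
  have hc : C.card = 3 ^ d := by
    rw [hC, Fintype.card_piFinset]
    have : ∀ j ∈ (univ : Finset (Fin d)), (Icc (c0 j - 1) (c0 j + 1)).card = 3 := by
      intro j _
      rw [Int.card_Icc]
      have : c0 j + 1 + 1 - (c0 j - 1) = 3 := by ring
      rw [this]; rfl
    rw [Finset.prod_congr rfl this, Finset.prod_const, Finset.card_univ, Fintype.card_fin]
  have h1 : ∑ y ∈ S, W y = ∑ c ∈ C, ∑ y ∈ S with dv m y = c, W y :=
    (Finset.sum_fiberwise_of_maps_to (g := fun y => dv m y)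
      (fun y hy => by rw [hC, Fintype.mem_piFinset]; exact hS y hy) W).symm
  rw [h1]
  refine le_trans (Finset.sum_le_sum (fun c _ => hcell S c)) ?_
  rw [Finset.sum_const, hc]
  simp

lemma ediv_near {L x y : ℤ} (hL : 0 < L) (h : |y - x| ≤ L) : y / L ∈ Icc (x / L - 1) (x / L + 1) := by
  have hb := abs_le.1 h
  rw [Finset.mem_Icc]
  constructor
  · have : (x + (-1) * L) / L ≤ y / L := Int.ediv_le_ediv hL (by linarith)
    rw [Int.add_mul_ediv_right _ _ hL.ne'] at this
    omega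
  · have : y / L ≤ (x + 1 * L) / L := Int.ediv_le_ediv hL (by linarith)
    rw [Int.add_mul_ediv_right _ _ hL.ne'] at this
    omega

/-- the sum over all translates -/
lemma sum_translates {d : ℕ} (v : Fin d → Fin d → ℤ) (a m : ℤ) (ha : 0 < a) (hm : 0 < m)
    (hv : ∀ j i, |v j i| ≤ a) (D : ℕ) (hD : (d.factorial : ℤ) * a ^ d ≤ D * |(Matrix.of v).det|) (n : ℕ)
    (hn : (d : ℤ) * n ≤ m) (W : (Fin d → ℤ) → ℝ) (hW : ∀ y, 0 ≤ W y)
    (hcell : ∀ (S : Finset (Fin d → ℤ)) (c : Fin d → ℤ), ∑ y ∈ S with dv m y = c, W y ≤ 1) (x : Fin d → ℤ) :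
    ∑ l : Fin d → Fin n, W (dv a (x + cmb v (fun j => ((l j : ℕ) : ℤ)))) ≤ (3 * (2 * D + 1)) ^ d := by
  classical
  set g : (Fin d → Fin n) → (Fin d → ℤ) := fun l => dv a (x + cmb v (fun j => ((l j : ℕ) : ℤ))) with hg
  set S := univ.image g with hS
  have h1 : ∑ l : Fin d → Fin n, W (g l) = ∑ y ∈ S, ∑ l ∈ univ.filter (fun l => g l = y), W (g l) :=
    (Finset.sum_fiberwise_of_maps_to (fun l _ => Finset.mem_image_of_mem g (Finset.mem_univ l)) _).symm
  have h2 : ∀ y ∈ S, ∑ l ∈ univ.filter (fun l => g l = y), W (g l) ≤ ((2 * D + 1) ^ d : ℕ) * W y := by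
    intro y _
    have e : ∑ l ∈ univ.filter (fun l => g l = y), W (g l)
        = ((univ.filter (fun l => g l = y)).card : ℝ) * W y := by
      rw [Finset.sum_congr rfl (fun l hl => by rw [(Finset.mem_filter.1 hl).2]), Finset.sum_const,
        nsmul_eq_mul]
    rw [e]
    refine mul_le_mul_of_nonneg_right ?_ (hW y)
    exact_mod_cast mult_bound v a ha hv D hD n x y
  rw [h1]
  refine le_trans (Finset.sum_le_sum h2) ?_
  rw [← Finset.mul_sum]
  have h3 : ∑ y ∈ S, W y ≤ 3 ^ d := by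
    refine sum_cells W m hcell S (dv (a * m) x) ?_
    intro y hy i
    rw [hS, Finset.mem_image] at hy
    obtain ⟨l, _, rfl⟩ := hy
    have e : dv m (g l) i = (x i + cmb v (fun j => ((l j : ℕ) : ℤ)) i) / (a * m) := by
      rw [hg]
      simp only
      rw [dv_dv ha.le]
      rfl
    rw [e]
    refine ediv_near (by positivity) ?_
    have e2 : x i + cmb v (fun j => ((l j : ℕ) : ℤ)) i - x i = ∑ j, ((l j : ℕ) : ℤ) * v j i := by
      unfold cmb; ring
    rw [e2]
    refine le_trans (Finset.abs_sum_le_sum_abs _ _) ?_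
    have e3 : ∀ j ∈ (univ : Finset (Fin d)), |((l j : ℕ) : ℤ) * v j i| ≤ n * a := by
      intro j _
      rw [abs_mul, Nat.abs_cast]
      refine mul_le_mul ?_ (hv j i) (abs_nonneg _) (by positivity)
      exact_mod_cast (l j).2.le
    refine le_trans (Finset.sum_le_sum e3) ?_
    rw [Finset.sum_const, Finset.card_univ, Fintype.card_fin, nsmul_eq_mul]
    have := mul_le_mul_of_nonneg_left hn ha.le
    calc (d : ℤ) * (n * a) = a * (d * n) := by ring
      _ ≤ a * m := this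
  have h4 : (((2 * D + 1) ^ d : ℕ) : ℝ) * ∑ y ∈ S, W y ≤ (((2 * D + 1) ^ d : ℕ) : ℝ) * 3 ^ d :=
    mul_le_mul_of_nonneg_left h3 (by positivity)
  refine le_trans h4 (le_of_eq ?_)
  rw [mul_pow]
  push_cast
  ring

/-! ### smoothing of the weight of a cube -/

/-- the offsets -/
noncomputable def offs (d : ℕ) (a : ℤ) : Finset (Fin d → ℤ) := Fintype.piFinset (fun _ : Fin d => Ico (-a) a)

lemma card_Ico_sym {a : ℤ} (ha : 0 < a) : ((Ico (-a) a).card : ℝ) = 2 * a := by
  rw [Int.card_Ico]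
  have h1 : a - -a = 2 * a := by ring
  rw [h1]
  have h2 : (((2 * a).toNat : ℤ) : ℝ) = ((2 * a : ℤ) : ℝ) := by rw [Int.toNat_of_nonneg (by omega)]
  have h3 : (((2 * a).toNat : ℤ) : ℝ) = ((2 * a).toNat : ℝ) := by push_cast; rfl
  rw [← h3, h2]; push_cast; ring

lemma card_offs {d : ℕ} {a : ℤ} (ha : 0 < a) : ((offs d a).card : ℝ) = (2 * a) ^ d := by
  unfold offs
  rw [Fintype.card_piFinset, Finset.prod_const, Finset.card_univ, Fintype.card_fin]
  push_cast
  rw [card_Ico_sym ha]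

/-- the smoothed weight -/
noncomputable def sm {d : ℕ} (a : ℤ) (W : (Fin d → ℤ) → ℝ) (z : Fin d → ℤ) : ℝ :=
  (∑ u ∈ offs d a, W (dv a (z + u))) / (2 * a) ^ d

lemma sm_nonneg {d : ℕ} {a : ℤ} (ha : 0 < a) (W : (Fin d → ℤ) → ℝ) (hW : ∀ y, 0 ≤ W y) (z : Fin d → ℤ) :
    0 ≤ sm a W z := by
  have : (0 : ℝ) < a := by exact_mod_cast ha
  exact div_nonneg (Finset.sum_nonneg (fun u _ => hW _)) (by positivity)

lemma sm_le {d : ℕ} {a : ℤ} (ha : 0 < a) (W : (Fin d → ℤ) → ℝ) (B : ℝ) (z : Fin d → ℤ)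
    (hW : ∀ u ∈ offs d a, W (dv a (z + u)) ≤ B) : sm a W z ≤ B := by
  have h0 : (0 : ℝ) < a := by exact_mod_cast ha
  have hpos : (0 : ℝ) < (2 * (a : ℝ)) ^ d := by positivity
  unfold sm
  rw [div_le_iff₀ hpos]
  refine le_trans (Finset.sum_le_sum hW) ?_
  rw [Finset.sum_const, nsmul_eq_mul, card_offs ha]
  linarith

/-- the smoothed weight is at least a fixed part of the weight -/
lemma sm_ge {d : ℕ} {a : ℤ} (ha : 0 < a) (W : (Fin d → ℤ) → ℝ) (hW : ∀ y, 0 ≤ W y) (z : Fin d → ℤ) :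
    W (dv a z) ≤ 2 ^ d * sm a W z := by
  have h0 : (0 : ℝ) < a := by exact_mod_cast ha
  have hpos : (0 : ℝ) < (2 * (a : ℝ)) ^ d := by positivity
  set S := Fintype.piFinset (fun i : Fin d => Ico (-(z i % a)) (a - z i % a)) with hS
  have hsub : S ⊆ offs d a := by
    intro u hu
    rw [hS, Fintype.mem_piFinset] at hu
    unfold offs
    rw [Fintype.mem_piFinset]
    intro i
    have h1 := hu i
    have h2 := Int.emod_nonneg (z i) ha.ne'
    have h3 := Int.emod_lt_of_pos (z i) ha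
    rw [Finset.mem_Ico] at h1 ⊢
    constructor <;> omega
  have hval : ∀ u ∈ S, W (dv a (z + u)) = W (dv a z) := by
    intro u hu
    rw [hS, Fintype.mem_piFinset] at hu
    congr 1
    funext i
    have h1 := Finset.mem_Ico.1 (hu i)
    have h2 := Int.emod_add_mul_ediv (z i) a
    show (z i + u i) / a = z i / a
    have e : z i + u i = (z i % a + u i) + a * (z i / a) := by linarith
    rw [e, Int.add_mul_ediv_left _ _ ha.ne', Int.ediv_eq_zero_of_lt (by omega) (by omega), zero_add]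
  have hcard : (S.card : ℝ) = (a : ℝ) ^ d := by
    rw [hS, Fintype.card_piFinset]
    have : ∀ i ∈ (univ : Finset (Fin d)), ((Ico (-(z i % a)) (a - z i % a)).card) = a.toNat := by
      intro i _
      rw [Int.card_Ico]
      congr 1
      ring
    rw [Finset.prod_congr rfl this, Finset.prod_const, Finset.card_univ, Fintype.card_fin]
    push_cast
    have h2 : ((a.toNat : ℤ) : ℝ) = (a : ℝ) := by rw [Int.toNat_of_nonneg ha.le]
    have h3 : ((a.toNat : ℤ) : ℝ) = (a.toNat : ℝ) := by push_cast; rfl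
    rw [← h3, h2]
  have h1 : (a : ℝ) ^ d * W (dv a z) ≤ ∑ u ∈ offs d a, W (dv a (z + u)) := by
    rw [← hcard, ← nsmul_eq_mul, ← Finset.sum_const]
    refine le_trans (le_of_eq (Finset.sum_congr rfl (fun u hu => (hval u hu).symm))) ?_
    exact Finset.sum_le_sum_of_subset_of_nonneg hsub (fun u _ _ => hW _)
  unfold sm
  rw [mul_div_assoc', le_div_iff₀ hpos, mul_pow]
  have h2 : (0:ℝ) < 2 ^ d := by positivity
  calc W (dv a z) * (2 ^ d * (a : ℝ) ^ d) = 2 ^ d * ((a : ℝ) ^ d * W (dv a z)) := by ring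
    _ ≤ 2 ^ d * ∑ u ∈ offs d a, W (dv a (z + u)) := mul_le_mul_of_nonneg_left h1 h2.le

lemma ediv_succ_ne {a x : ℤ} (ha : 0 < a) (h : x / a ≠ (x + 1) / a) : x + 1 = a * (x / a + 1) := by
  have h1 := Int.emod_add_mul_ediv x a
  have h3 := Int.emod_nonneg x ha.ne'
  have h4 := Int.emod_lt_of_pos x ha
  by_cases h5 : x % a + 1 < a
  · exfalso
    apply h
    have e : x + 1 = (x % a + 1) + a * (x / a) := by linarith
    rw [e, Int.add_mul_ediv_left _ _ ha.ne', Int.ediv_eq_zero_of_lt (by omega) h5, zero_add]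
  · have : x % a = a - 1 := by omega
    have : a * (x / a + 1) = a * (x / a) + a := by ring
    linarith

/-- at most two offsets separate two consecutive integers -/
lemma sep_one {a : ℤ} (ha : 0 < a) (z : ℤ) :
    ((Ico (-a) a).filter (fun u => (z + u) / a ≠ (z + 1 + u) / a)).card ≤ 2 := by
  set u0 : ℤ := (-(z + 1)) % a - a with hu0
  have hsub : (Ico (-a) a).filter (fun u => (z + u) / a ≠ (z + 1 + u) / a) ⊆ {u0, u0 + a} := by
    intro u hu
    rw [Finset.mem_filter, Finset.mem_Ico] at hu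
    obtain ⟨⟨h1, h2⟩, h3⟩ := hu
    have h3' : (z + u) / a ≠ (z + u + 1) / a := by
      have : z + 1 + u = z + u + 1 := by ring
      rw [this] at h3; exact h3
    have h4 := ediv_succ_ne ha h3'
    have h5 := Int.emod_add_mul_ediv (-(z + 1)) a
    have h6 := Int.emod_nonneg (-(z + 1)) ha.ne'
    have h7 := Int.emod_lt_of_pos (-(z + 1)) ha
    set t : ℤ := (z + u) / a + 1 + (-(z + 1)) / a + 1 with ht
    have h8 : u - u0 = a * t := by
      rw [ht, hu0]
      have : a * ((z + u) / a + 1 + (-(z + 1)) / a + 1)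
          = a * ((z + u) / a + 1) + a * ((-(z + 1)) / a) + a := by ring
      rw [this]
      linarith
    have h9 : -1 < t := by
      by_contra hc
      have : a * t ≤ a * (-1) := mul_le_mul_of_nonneg_left (by omega) ha.le
      linarith
    have h10 : t < 2 := by
      by_contra hc
      have : a * 2 ≤ a * t := mul_le_mul_of_nonneg_left (by omega) ha.le
      linarith
    rw [Finset.mem_insert, Finset.mem_singleton]
    have h11 : t = 0 ∨ t = 1 := by omega
    rcases h11 with h | h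
    · left; rw [h] at h8; linarith
    · right; rw [h] at h8; linarith
  exact le_trans (Finset.card_le_card hsub) Finset.card_le_two

lemma sep_nat {a : ℤ} (ha : 0 < a) (z : ℤ) (k : ℕ) :
    ((Ico (-a) a).filter (fun u => (z + u) / a ≠ (z + k + u) / a)).card ≤ 2 * k := by
  induction k with
  | zero => simp
  | succ k ih =>
    have hsub : (Ico (-a) a).filter (fun u => (z + u) / a ≠ (z + ((k + 1 : ℕ) : ℤ) + u) / a)
        ⊆ (Ico (-a) a).filter (fun u => (z + u) / a ≠ (z + k + u) / a)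
          ∪ (Ico (-a) a).filter (fun u => (z + k + u) / a ≠ (z + k + 1 + u) / a) := by
      intro u hu
      rw [Finset.mem_filter] at hu
      rw [Finset.mem_union, Finset.mem_filter, Finset.mem_filter]
      by_cases h : (z + u) / a = (z + k + u) / a
      · right
        refine ⟨hu.1, fun hc => hu.2 ?_⟩
        rw [h, hc]
        push_cast
        congr 1
        ring
      · left; exact ⟨hu.1, h⟩
    refine le_trans (Finset.card_le_card hsub) (le_trans (Finset.card_union_le _ _) ?_)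
    have := sep_one ha (z + k)
    omega

/-- the number of offsets which separate two integers -/
lemma sep_count {a : ℤ} (ha : 0 < a) (z z' : ℤ) :
    (((Ico (-a) a).filter (fun u => (z + u) / a ≠ (z' + u) / a)).card : ℤ) ≤ 2 * |z - z'| := by
  rcases le_total z z' with h | h
  · have e : z' = z + ((z' - z).toNat : ℤ) := by rw [Int.toNat_of_nonneg (by omega)]; ring
    have h1 := sep_nat ha z (z' - z).toNat
    rw [← e] at h1
    have h2 : (((Ico (-a) a).filter (fun u => (z + u) / a ≠ (z' + u) / a)).card : ℤ)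
        ≤ ((2 * (z' - z).toNat : ℕ) : ℤ) := by exact_mod_cast h1
    rw [abs_sub_comm, abs_of_nonneg (by omega)]
    push_cast at h2
    omega
  · have e : z = z' + ((z - z').toNat : ℤ) := by rw [Int.toNat_of_nonneg (by omega)]; ring
    have h1 := sep_nat ha z' (z - z').toNat
    rw [← e] at h1
    have h3 : (Ico (-a) a).filter (fun u => (z + u) / a ≠ (z' + u) / a)
        = (Ico (-a) a).filter (fun u => (z' + u) / a ≠ (z + u) / a) :=
      Finset.filter_congr (fun u _ => ⟨fun hc h => hc h.symm, fun hc h => hc h.symm⟩)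
    rw [h3]
    have h2 : (((Ico (-a) a).filter (fun u => (z' + u) / a ≠ (z + u) / a)).card : ℤ)
        ≤ ((2 * (z - z').toNat : ℕ) : ℤ) := by exact_mod_cast h1
    rw [abs_of_nonneg (by omega)]
    push_cast at h2
    omega

/-- the smoothed weight is Lipschitz -/
lemma sm_lip {d : ℕ} {a : ℤ} (ha : 0 < a) (W : (Fin d → ℤ) → ℝ) (hW : ∀ y, 0 ≤ W y) (hW1 : ∀ y, W y ≤ 1)
    (z z' : Fin d → ℤ) : |sm a W z - sm a W z'| ≤ (∑ i, |((z i - z' i : ℤ) : ℝ)|) / a := by
  classical
  have h0 : (0 : ℝ) < a := by exact_mod_cast ha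
  have hpos : (0 : ℝ) < (2 * (a : ℝ)) ^ d := by positivity
  unfold sm
  rw [← sub_div, abs_div, abs_of_pos hpos, div_le_iff₀ hpos, ← Finset.sum_sub_distrib]
  refine le_trans (Finset.abs_sum_le_sum_abs _ _) ?_
  have h1 : ∀ u ∈ offs d a, |W (dv a (z + u)) - W (dv a (z' + u))|
      ≤ ∑ i, if (z i + u i) / a ≠ (z' i + u i) / a then (1 : ℝ) else 0 := by
    intro u _
    by_cases h : ∀ i, (z i + u i) / a = (z' i + u i) / a
    · have : dv a (z + u) = dv a (z' + u) := funext h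
      rw [this, sub_self, abs_zero]
      exact Finset.sum_nonneg (fun i _ => by split_ifs <;> norm_num)
    · push Not at h
      obtain ⟨i, hi⟩ := h
      have h2 : |W (dv a (z + u)) - W (dv a (z' + u))| ≤ 1 := by
        rw [abs_le]
        constructor <;> linarith [hW (dv a (z + u)), hW (dv a (z' + u)), hW1 (dv a (z + u)),
          hW1 (dv a (z' + u))]
      refine le_trans h2 ?_
      have h3 : (1 : ℝ) = if (z i + u i) / a ≠ (z' i + u i) / a then (1 : ℝ) else 0 := by rw [if_pos hi]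
      refine le_trans (le_of_eq h3) ?_
      exact Finset.single_le_sum (f := fun i => if (z i + u i) / a ≠ (z' i + u i) / a then (1 : ℝ) else 0)
        (fun i _ => by split_ifs <;> norm_num) (Finset.mem_univ i)
  refine le_trans (Finset.sum_le_sum h1) ?_
  rw [Finset.sum_comm, Finset.sum_div, Finset.sum_mul]
  refine Finset.sum_le_sum (fun i _ => ?_)
  rw [← Finset.sum_filter, Finset.sum_const, nsmul_eq_mul, mul_one]
  have hd : 0 < d := lt_of_le_of_lt (Nat.zero_le _) i.2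
  have h4 : ((offs d a).filter (fun u => (z i + u i) / a ≠ (z' i + u i) / a)).card
      = ((Ico (-a) a).filter (fun x => (z i + x) / a ≠ (z' i + x) / a)).card * (Ico (-a) a).card ^ (d - 1) := by
    have e1 : (offs d a).filter (fun u => (z i + u i) / a ≠ (z' i + u i) / a)
        = ((Ico (-a) a).filter (fun x => (z i + x) / a ≠ (z' i + x) / a)).biUnion
          (fun x => (offs d a).filter (fun u => u i = x)) := by
      ext u
      rw [Finset.mem_filter, Finset.mem_biUnion]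
      constructor
      · rintro ⟨hu, hne⟩
        refine ⟨u i, ?_, Finset.mem_filter.2 ⟨hu, rfl⟩⟩
        rw [Finset.mem_filter]
        unfold offs at hu
        rw [Fintype.mem_piFinset] at hu
        exact ⟨hu i, hne⟩
      · rintro ⟨x, hx, hu⟩
        rw [Finset.mem_filter] at hx hu
        refine ⟨hu.1, ?_⟩
        rw [hu.2]; exact hx.2
    rw [e1, Finset.card_biUnion]
    · have e2 : ∀ x ∈ (Ico (-a) a).filter (fun x => (z i + x) / a ≠ (z' i + x) / a),
          ((offs d a).filter (fun u => u i = x)).card = (Ico (-a) a).card ^ (d - 1) := by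
        intro x hx
        unfold offs
        rw [Fintype.card_filter_piFinset_const, if_pos (Finset.mem_filter.1 hx).1, Fintype.card_fin]
      rw [Finset.sum_congr rfl e2, Finset.sum_const, smul_eq_mul]
    · intro x _ y _ hxy
      show Disjoint _ _
      rw [Finset.disjoint_left]
      intro u hu hu'
      exact hxy ((Finset.mem_filter.1 hu).2.symm.trans (Finset.mem_filter.1 hu').2)
  rw [h4]
  push_cast
  rw [card_Ico_sym ha]
  have h5 := sep_count ha (z i) (z' i)
  have h6 : (((Ico (-a) a).filter (fun x => (z i + x) / a ≠ (z' i + x) / a)).card : ℝ)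
      ≤ 2 * |((z i - z' i : ℤ) : ℝ)| := by
    have : ((((Ico (-a) a).filter (fun x => (z i + x) / a ≠ (z' i + x) / a)).card : ℤ) : ℝ)
        ≤ ((2 * |z i - z' i| : ℤ) : ℝ) := by exact_mod_cast h5
    push_cast at this ⊢
    exact this
  push_cast at h6
  have h7 : (2 * (a : ℝ)) ^ d = (2 * a) ^ (d - 1) * (2 * a) := by
    rw [← pow_succ]
    congr 1
    omega
  rw [h7]
  have h8 : (0 : ℝ) < (2 * (a : ℝ)) ^ (d - 1) := by positivity
  calc (((Ico (-a) a).filter (fun x => (z i + x) / a ≠ (z' i + x) / a)).card : ℝ) * (2 * a) ^ (d - 1)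
      ≤ (2 * |(z i : ℝ) - z' i|) * (2 * a) ^ (d - 1) := mul_le_mul_of_nonneg_right h6 h8.le
    _ = |(z i : ℝ) - z' i| / a * ((2 * a) ^ (d - 1) * (2 * a)) := by field_simp

/-- the sum of the smoothed weight over all translates -/
lemma sum_translates_sm {d : ℕ} (v : Fin d → Fin d → ℤ) (a m : ℤ) (ha : 0 < a) (hm : 0 < m)
    (hv : ∀ j i, |v j i| ≤ a) (D : ℕ) (hD : (d.factorial : ℤ) * a ^ d ≤ D * |(Matrix.of v).det|) (n : ℕ)
    (hn : (d : ℤ) * n ≤ m) (W : (Fin d → ℤ) → ℝ) (hW : ∀ y, 0 ≤ W y)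
    (hcell : ∀ (S : Finset (Fin d → ℤ)) (c : Fin d → ℤ), ∑ y ∈ S with dv m y = c, W y ≤ 1) (x : Fin d → ℤ) :
    ∑ l : Fin d → Fin n, sm a W (x + cmb v (fun j => ((l j : ℕ) : ℤ))) ≤ (3 * (2 * D + 1)) ^ d := by
  have h0 : (0 : ℝ) < a := by exact_mod_cast ha
  have hpos : (0 : ℝ) < (2 * (a : ℝ)) ^ d := by positivity
  unfold sm
  rw [← Finset.sum_div, div_le_iff₀ hpos, Finset.sum_comm]
  have h1 : ∀ u ∈ offs d a, ∑ l : Fin d → Fin n, W (dv a (x + cmb v (fun j => ((l j : ℕ) : ℤ)) + u))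
      ≤ (3 * (2 * (D : ℝ) + 1)) ^ d := by
    intro u _
    have := sum_translates v a m ha hm hv D hD n hn W hW hcell (x + u)
    refine le_trans (le_of_eq (Finset.sum_congr rfl (fun l _ => ?_))) this
    rw [add_right_comm]
  refine le_trans (Finset.sum_le_sum h1) ?_
  rw [Finset.sum_const, nsmul_eq_mul, card_offs ha]
  linarith

section

variable {Ω : Type*} [Fintype Ω] {U : Type*}

/-- the law of `X` (weights `p`) is invariant under `u` up to `ε`, against functions with values in the unit interval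
whose Lipschitz constant is at most `1/a` -/
def Inv {d : ℕ} (a : ℤ) (p : Ω → ℝ) (X : Ω → Fin d → ℤ) (u : Fin d → ℤ) (ε : ℝ) : Prop :=
  ∀ φ : (Fin d → ℤ) → ℝ, (∀ z, 0 ≤ φ z ∧ φ z ≤ 1) →
    (∀ z z', |φ z - φ z'| ≤ (∑ i, |((z i - z' i : ℤ) : ℝ)|) / a) →
    |∑ ω, p ω * (φ (X ω) - φ (X ω + u))| ≤ ε

lemma Inv.zero {d : ℕ} (a : ℤ) (p : Ω → ℝ) (X : Ω → Fin d → ℤ) : Inv a p X 0 0 := by
  intro φ _ _
  simp

lemma Inv.add {d : ℕ} {a : ℤ} {p : Ω → ℝ} {X : Ω → Fin d → ℤ} {u u' : Fin d → ℤ} {ε ε' : ℝ}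
    (h : Inv a p X u ε) (h' : Inv a p X u' ε') : Inv a p X (u + u') (ε + ε') := by
  intro φ hφ hL
  have h1 := h' φ hφ hL
  have h2 := h (fun z => φ (z + u')) (fun z => hφ _) (fun z z' => by
    have := hL (z + u') (z' + u')
    simpa using this)
  have e : ∑ ω, p ω * (φ (X ω) - φ (X ω + (u + u')))
      = ∑ ω, p ω * (φ (X ω) - φ (X ω + u'))
        + ∑ ω, p ω * ((fun z => φ (z + u')) (X ω) - (fun z => φ (z + u')) (X ω + u)) := by
    rw [← Finset.sum_add_distrib]
    refine Finset.sum_congr rfl (fun ω _ => ?_)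
    simp only [add_assoc]
    ring
  rw [e]
  refine le_trans (abs_add_le _ _) ?_
  linarith

lemma Inv.nsmul {d : ℕ} {a : ℤ} {p : Ω → ℝ} {X : Ω → Fin d → ℤ} {u : Fin d → ℤ} {ε : ℝ}
    (h : Inv a p X u ε) (k : ℕ) : Inv a p X ((k : ℤ) • u) (k * ε) := by
  induction k with
  | zero => simpa using Inv.zero a p X
  | succ k ih =>
    have := ih.add h
    have e1 : ((k + 1 : ℕ) : ℤ) • u = (k : ℤ) • u + u := by push_cast; rw [add_smul, one_smul]
    have e2 : ((k + 1 : ℕ) : ℝ) * ε = k * ε + ε := by push_cast; ring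
    rw [e1, e2]
    exact this

lemma Inv.cmb {d : ℕ} {a : ℤ} {p : Ω → ℝ} {X : Ω → Fin d → ℤ} {v : Fin d → Fin d → ℤ} {ε : ℝ}
    (h : ∀ j, Inv a p X (v j) ε) (l : Fin d → ℕ) :
    Inv a p X (S6F.cmb v (fun j => (l j : ℤ))) ((∑ j, (l j : ℝ)) * ε) := by
  classical
  have key : ∀ T : Finset (Fin d), Inv a p X (∑ j ∈ T, (l j : ℤ) • v j) ((∑ j ∈ T, (l j : ℝ)) * ε) := by
    intro T
    induction T using Finset.induction_on with
    | empty => simpa using Inv.zero a p X
    | insert j T hj ih =>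
      rw [Finset.sum_insert hj, Finset.sum_insert hj, add_mul]
      exact ((h j).nsmul (l j)).add ih
  have := key univ
  have e : S6F.cmb v (fun j => (l j : ℤ)) = ∑ j, (l j : ℤ) • v j := by
    funext i
    rw [Finset.sum_apply]
    rfl
  rw [e]
  exact this

/-- mean weight of the cube of `X` -/
lemma mean_weight {d : ℕ} (p : Ω → ℝ) (hp : ∀ ω, 0 ≤ p ω) (X : Ω → Fin d → ℤ) (v : Fin d → Fin d → ℤ)
    (a m : ℤ) (ha : 0 < a) (hm : 0 < m) (hv : ∀ j i, |v j i| ≤ a) (D : ℕ)
    (hD : (d.factorial : ℤ) * a ^ d ≤ D * |(Matrix.of v).det|) (n : ℕ) (hn0 : 0 < n)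
    (hn : (d : ℤ) * n ≤ m) (W : (Fin d → ℤ) → ℝ) (hW : ∀ y, 0 ≤ W y) (hW1 : ∀ y, W y ≤ 1)
    (hcell : ∀ (S : Finset (Fin d → ℤ)) (c : Fin d → ℤ), ∑ y ∈ S with dv m y = c, W y ≤ 1)
    (ε : ℝ) (hε : 0 ≤ ε) (hinv : ∀ j, Inv a p X (v j) ε) :
    ∑ ω, p ω * W (dv a (X ω)) ≤ 2 ^ d * (d * n * ε + (3 * (2 * D + 1)) ^ d / n ^ d * ∑ ω, p ω) := by
  classical
  have h0 : ∑ ω, p ω * W (dv a (X ω)) ≤ 2 ^ d * ∑ ω, p ω * sm a W (X ω) := by
    rw [Finset.mul_sum]
    refine Finset.sum_le_sum (fun ω _ => ?_)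
    have := mul_le_mul_of_nonneg_left (sm_ge ha W hW (X ω)) (hp ω)
    calc p ω * W (dv a (X ω)) ≤ p ω * (2 ^ d * sm a W (X ω)) := this
      _ = 2 ^ d * (p ω * sm a W (X ω)) := by ring
  refine le_trans h0 (mul_le_mul_of_nonneg_left ?_ (by positivity))
  set E := ∑ ω, p ω * sm a W (X ω) with hE
  have h1 : ∀ l : Fin d → Fin n, E ≤ d * n * ε
      + ∑ ω, p ω * sm a W (X ω + cmb v (fun j => ((l j : ℕ) : ℤ))) := by
    intro l
    have h2 := Inv.cmb hinv (fun j => (l j : ℕ)) (sm a W)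
      (fun z => ⟨sm_nonneg ha W hW z, sm_le ha W 1 z (fun u _ => hW1 _)⟩) (sm_lip ha W hW hW1)
    have h3 := (abs_le.1 h2).2
    simp only [mul_sub, Finset.sum_sub_distrib] at h3
    have h4 : (∑ j, (((l j : ℕ) : ℕ) : ℝ)) * ε ≤ d * n * ε := by
      refine mul_le_mul_of_nonneg_right ?_ hε
      have : ∀ j ∈ (univ : Finset (Fin d)), (((l j : ℕ) : ℕ) : ℝ) ≤ n := by
        intro j _
        exact_mod_cast (l j).2.le
      refine le_trans (Finset.sum_le_sum this) ?_
      rw [Finset.sum_const, Finset.card_univ, Fintype.card_fin, nsmul_eq_mul]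
    linarith
  have h5 : ∑ l : Fin d → Fin n, E ≤ ∑ l : Fin d → Fin n, (d * n * ε
      + ∑ ω, p ω * sm a W (X ω + cmb v (fun j => ((l j : ℕ) : ℤ)))) := Finset.sum_le_sum (fun l _ => h1 l)
  have hcard : (univ : Finset (Fin d → Fin n)).card = n ^ d := by
    rw [Finset.card_univ, Fintype.card_fun, Fintype.card_fin, Fintype.card_fin]
  rw [Finset.sum_add_distrib, Finset.sum_const, Finset.sum_const, hcard, nsmul_eq_mul, nsmul_eq_mul,
    Finset.sum_comm] at h5
  have h6 : ∑ ω, ∑ l : Fin d → Fin n, p ω * sm a W (X ω + cmb v (fun j => ((l j : ℕ) : ℤ)))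
      ≤ (3 * (2 * D + 1)) ^ d * ∑ ω, p ω := by
    rw [Finset.mul_sum]
    refine Finset.sum_le_sum (fun ω _ => ?_)
    rw [← Finset.mul_sum, mul_comm]
    exact mul_le_mul_of_nonneg_right
      (sum_translates_sm v a m ha hm hv D hD n hn W hW hcell (X ω)) (hp ω)
  have hnd : (0 : ℝ) < (n : ℝ) ^ d := by
    have : (0 : ℝ) < n := by exact_mod_cast hn0
    positivity
  have h7 : ((n ^ d : ℕ) : ℝ) = (n : ℝ) ^ d := by push_cast; ring
  rw [h7] at h5
  have h8 : (n : ℝ) ^ d * E ≤ (n : ℝ) ^ d * (d * n * ε + (3 * (2 * D + 1)) ^ d / n ^ d * ∑ ω, p ω) := by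
    have e : (n : ℝ) ^ d * (d * n * ε + (3 * (2 * D + 1)) ^ d / n ^ d * ∑ ω, p ω)
        = (n : ℝ) ^ d * (d * n * ε) + (3 * (2 * D + 1)) ^ d * ∑ ω, p ω := by
      field_simp
    rw [e]
    linarith
  exact le_of_mul_le_mul_left h8 hnd

/-- the weights of one context value: conditional probability of the cube `y` in its large cube -/
noncomputable def wtd {d : ℕ} (p : Ω → ℝ) (Y : Ω → Fin d → ℤ) (F : Ω → U) (m : ℤ) (f : U) (y : Fin d → ℤ) : ℝ :=
  law p (fun ω => (Y ω, (dv m (Y ω), F ω))) (y, (dv m y, f)) / law p (fun ω => (dv m (Y ω), F ω)) (dv m y, f)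

lemma wtd_nonneg {d : ℕ} (p : Ω → ℝ) (hp : ∀ ω, 0 ≤ p ω) (Y : Ω → Fin d → ℤ) (F : Ω → U) (m : ℤ) (f : U)
    (y : Fin d → ℤ) : 0 ≤ wtd p Y F m f y := div_nonneg (law_nonneg hp _ _) (law_nonneg hp _ _)

lemma wtd_cell {d : ℕ} (p : Ω → ℝ) (hp : ∀ ω, 0 ≤ p ω) (Y : Ω → Fin d → ℤ) (F : Ω → U) (m : ℤ) (f : U)
    (S : Finset (Fin d → ℤ)) (c : Fin d → ℤ) : ∑ y ∈ S with dv m y = c, wtd p Y F m f y ≤ 1 := by
  classical
  have e : ∀ y ∈ S.filter (fun y => dv m y = c), wtd p Y F m f y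
      = law p (fun ω => (Y ω, (dv m (Y ω), F ω))) (y, (c, f)) / law p (fun ω => (dv m (Y ω), F ω)) (c, f) := by
    intro i hi
    rw [Finset.mem_filter] at hi
    unfold wtd
    rw [hi.2]
  rw [Finset.sum_congr rfl e, ← Finset.sum_div]
  have hl := law_nonneg hp (fun ω => (dv m (Y ω), F ω)) (c, f)
  apply div_le_one_of_le₀ _ hl
  unfold law
  rw [Finset.sum_comm]
  refine Finset.sum_le_sum (fun ω _ => ?_)
  by_cases h : (dv m (Y ω), F ω) = (c, f)
  · rw [if_pos h]
    have : ∀ y ∈ S.filter (fun y => dv m y = c),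
        (@ite ℝ ((fun ω => (Y ω, (dv m (Y ω), F ω))) ω = (y, (c, f))) (Classical.propDecidable _) (p ω) 0)
          = if Y ω = y then p ω else 0 := by
      intro y _
      by_cases h' : Y ω = y
      · rw [if_pos h', if_pos (by show (Y ω, (dv m (Y ω), F ω)) = (y, (c, f)); rw [h, h'])]
      · rw [if_neg h', if_neg (fun hc => h' (Prod.ext_iff.1 hc).1)]
    rw [Finset.sum_congr rfl this, Finset.sum_ite_eq]
    split_ifs
    · exact le_rfl
    · exact hp ω
  · rw [if_neg h]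
    refine le_of_eq (Finset.sum_eq_zero (fun i _ => ?_))
    rw [if_neg]
    intro hc
    exact h (Prod.ext_iff.1 hc).2

lemma wtd_le_one {d : ℕ} (p : Ω → ℝ) (hp : ∀ ω, 0 ≤ p ω) (Y : Ω → Fin d → ℤ) (F : Ω → U) (m : ℤ) (f : U)
    (y : Fin d → ℤ) : wtd p Y F m f y ≤ 1 := by
  classical
  have h := wtd_cell p hp Y F m f {y} (dv m y)
  have e : ({y} : Finset (Fin d → ℤ)).filter (fun z => dv m z = dv m y) = {y} := by
    rw [Finset.filter_singleton, if_pos rfl]
  rw [e, Finset.sum_singleton] at h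
  exact h

open Classical in
/-- FBK: the full block lemma -/
theorem fbk {d : ℕ} (p : Ω → ℝ) (hp : ∀ ω, 0 ≤ p ω) (hp1 : ∑ ω, p ω = 1) (F : Ω → U)
    (X : Ω → Fin d → ℤ) (a m : ℤ) (ha : 0 < a) (hm : 0 < m) (n : ℕ) (hn0 : 0 < n) (hn : (d : ℤ) * n ≤ m)
    (D : ℕ) (V : Finset U) (ε : U → ℝ) (hε : ∀ f ∈ V, 0 ≤ ε f)
    (hinv : ∀ f ∈ V, ∃ v : Fin d → Fin d → ℤ, (∀ j i, |v j i| ≤ a) ∧
      (d.factorial : ℤ) * a ^ d ≤ D * |(Matrix.of v).det| ∧
      ∀ j, Inv a (fun ω => if F ω = f then p ω else 0) X (v j) (ε f))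
    (G : Finset Ω) (hG : ∀ ω ∈ G, F ω ∈ V) (E : ℝ)
    (hE : 2 ^ d * (d * n * ∑ f ∈ V, ε f + (3 * (2 * D + 1)) ^ d / n ^ d) ≤ E) :
    (∑ ω ∈ G, p ω) * Real.log ((∑ ω ∈ G, p ω) / E)
      ≤ CH p (fun ω => dv a (X ω)) (fun ω => (dv (a * m) (X ω), F ω)) := by
  set Y : Ω → Fin d → ℤ := fun ω => dv a (X ω) with hY
  have hYX : ∀ ω, dv (a * m) (X ω) = dv m (Y ω) := fun ω => (dv_dv ha.le (X ω)).symm
  have hfun : (fun ω => (dv (a * m) (X ω), F ω)) = fun ω => (dv m (Y ω), F ω) := by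
    funext ω; rw [hYX]
  rw [hfun]
  have hnr : (0 : ℝ) < n := by exact_mod_cast hn0
  have hE0 : 0 < E := by
    refine lt_of_lt_of_le ?_ hE
    have := Finset.sum_nonneg hε
    have h2 : (0 : ℝ) < (3 * (2 * D + 1)) ^ d / n ^ d := by positivity
    have : 0 ≤ (d : ℝ) * n * ∑ f ∈ V, ε f := by positivity
    positivity
  apply Pool.S6Y.CH_ge_event p hp Y (fun ω => (dv m (Y ω), F ω)) G E hE0
  have one : ∀ f ∈ V, ∑ ω, (if F ω = f then p ω else 0) * wtd p Y F m f (Y ω)
      ≤ 2 ^ d * (d * n * ε f + (3 * (2 * D + 1)) ^ d / n ^ d * law p F f) := by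
    intro f hf
    obtain ⟨v, hv, hD, hi⟩ := hinv f hf
    have := mean_weight (fun ω => if F ω = f then p ω else 0)
      (fun ω => by split_ifs; exacts [hp ω, le_rfl]) X v a m ha hm hv D hD n hn0 hn (wtd p Y F m f)
      (wtd_nonneg p hp Y F m f) (wtd_le_one p hp Y F m f) (wtd_cell p hp Y F m f) (ε f) (hε f hf) hi
    exact this
  have h1 : ∑ ω ∈ G, p ω * (law p (fun ω => (Y ω, (dv m (Y ω), F ω))) (Y ω, (dv m (Y ω), F ω))
      / law p (fun ω => (dv m (Y ω), F ω)) (dv m (Y ω), F ω))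
      = ∑ ω ∈ G, p ω * wtd p Y F m (F ω) (Y ω) := rfl
  rw [h1]
  have h2 : ∑ ω ∈ G, p ω * wtd p Y F m (F ω) (Y ω)
      ≤ ∑ f ∈ V, ∑ ω, (if F ω = f then p ω else 0) * wtd p Y F m f (Y ω) := by
    rw [Finset.sum_comm]
    have h3 : ∀ ω ∈ (univ : Finset Ω), ∑ f ∈ V, (if F ω = f then p ω else 0) * wtd p Y F m f (Y ω)
        = if F ω ∈ V then p ω * wtd p Y F m (F ω) (Y ω) else 0 := by
      intro ω _
      have : ∀ f ∈ V, (if F ω = f then p ω else 0) * wtd p Y F m f (Y ω)
          = if F ω = f then p ω * wtd p Y F m f (Y ω) else 0 := by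
        intro f _
        split_ifs
        · rfl
        · rw [zero_mul]
      rw [Finset.sum_congr rfl this, Finset.sum_ite_eq]
    rw [Finset.sum_congr rfl h3]
    have h4 : ∑ ω ∈ G, p ω * wtd p Y F m (F ω) (Y ω)
        = ∑ ω ∈ G, if F ω ∈ V then p ω * wtd p Y F m (F ω) (Y ω) else 0 :=
      Finset.sum_congr rfl (fun ω hω => by rw [if_pos (hG ω hω)])
    rw [h4]
    refine Finset.sum_le_sum_of_subset_of_nonneg (Finset.subset_univ _) (fun ω _ _ => ?_)
    split_ifs
    · exact mul_nonneg (hp ω) (wtd_nonneg p hp Y F m _ _)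
    · exact le_rfl
  refine le_trans h2 (le_trans (Finset.sum_le_sum one) (le_trans ?_ hE))
  rw [← Finset.mul_sum, Finset.sum_add_distrib, ← Finset.mul_sum, ← Finset.mul_sum]
  have h5 : ∑ f ∈ V, law p F f ≤ 1 := by
    rw [← hp1]
    unfold law
    rw [Finset.sum_comm]
    refine Finset.sum_le_sum (fun ω _ => ?_)
    rw [Finset.sum_ite_eq]
    split_ifs
    · exact le_rfl
    · exact hp ω
  have h6 : (3 * (2 * (D : ℝ) + 1)) ^ d / n ^ d * ∑ f ∈ V, law p F f ≤ (3 * (2 * D + 1)) ^ d / n ^ d * 1 :=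
    mul_le_mul_of_nonneg_left h5 (by positivity)
  exact mul_le_mul_of_nonneg_left (by linarith) (by positivity)

end

end Pool.S6F
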