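import Pool.Agent.H8.KS6.YTV
import Pool.Agent.H8.KS6.FBK

set_option autoImplicit false

/-!
# Full block from three mutual informations (row FBM, any dimension)

The step of K3_S6_h46 section 1.  `X` the block of position digits at the base time, `Q` the block of position digits at
the partner time transported to the base time, `om` the velocity block, `vv` the frame of the partner (and the time
digits), `X = Q + g (om, vv)` up to `R`.  If `om` is nearly independent of `(X, vv)` and of `(Q, vv)` given the context `F`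
and `vv` is nearly independent of `X` given `F`, then the law of `X` given `F` is nearly invariant under
`g (o, s) - g (o', s)`; if these vectors span in dimension `d`, the block `X / a` is full.
-/

namespace Pool.S6F

open Finset Pool.Agent.H49.Ent Pool.S6Y

variable {Ω : Type*} [Fintype Ω] {S U O : Type*}

open Classical in
/-- invariance of the law of `X` from the three dependences -/
lemma inv_of_dep {d : ℕ} (a : ℤ) (ha : 0 < a) (p : Ω → ℝ) (hp : ∀ ω, 0 ≤ p ω) (hp1 : ∑ ω, p ω = 1)
    (X Q : Ω → Fin d → ℤ) (om : Ω → O) (vv : Ω → S) (g : O → S → Fin d → ℤ) (ok : Ω → Prop) (R : ℝ) (hR : 0 ≤ R)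
    (hX : ∀ ω, ok ω → ∀ i, |((X ω i - (Q ω i + g (om ω) (vv ω) i) : ℤ) : ℝ)| ≤ R)
    (p5 : ℝ) (hok : 1 - p5 ≤ ∑ ω with ok ω, p ω) (o o' : O) (s : S) (π π' : ℝ) (hπ : 0 < π) (hπ' : 0 < π')
    (ho : π ≤ law p om o) (ho' : π ≤ law p om o') (hs : π' ≤ law p vv s) :
    Inv a p X (g o s - g o' s)
      ((2 * ((dep p (fun ω => (X ω, vv ω)) om + dep p (fun ω => (Q ω, vv ω)) om + p5) / π + d * R / a)
        + 2 * dep p X vv) / π') := by
  intro φ hφ hL
  have har : (0 : ℝ) < a := by exact_mod_cast ha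
  set d1 := dep p (fun ω => (X ω, vv ω)) om with hd1
  set d2 := dep p (fun ω => (Q ω, vv ω)) om with hd2
  set d3 := dep p X vv with hd3
  have hd10 : 0 ≤ d1 := dep_nonneg _ _ _
  have hd20 : 0 ≤ d2 := dep_nonneg _ _ _
  have hp5 : 0 ≤ p5 := by
    have : ∑ ω with ok ω, p ω ≤ ∑ ω, p ω :=
      Finset.sum_le_sum_of_subset_of_nonneg (Finset.subset_univ _) (fun ω _ _ => hp ω)
    linarith
  have hls : 0 < law p vv s := lt_of_lt_of_le hπ' hs
  have habs : ∀ z, |φ z| ≤ 1 := fun z => by
    rw [abs_le]; constructor <;> linarith [(hφ z).1, (hφ z).2]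
  -- the comparison for one value of `om`
  have cmp : ∀ (o : O), π ≤ law p om o → ∀ w : Fin d → ℤ,
      |∑ ω, p ω * (φ (X ω + w) * if vv ω = s then 1 else 0)
        - ∑ ω, p ω * (φ (Q ω + (g o s + w)) * if vv ω = s then 1 else 0)|
        ≤ (d1 + d2 + p5) / π + d * R / a := by
    intro o ho w
    have hlo : 0 < law p om o := lt_of_lt_of_le hπ ho
    have m1 := mean_dep p (fun ω => (X ω, vv ω)) om o
      (fun q : (Fin d → ℤ) × S => φ (q.1 + w) * if q.2 = s then 1 else 0) 1 (by
        intro q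
        split_ifs
        · rw [mul_one]; exact habs _
        · rw [mul_zero, abs_zero]; norm_num)
    have m2 := mean_dep p (fun ω => (Q ω, vv ω)) om o
      (fun q : (Fin d → ℤ) × S => φ (q.1 + (g o s + w)) * if q.2 = s then 1 else 0) 1 (by
        intro q
        split_ifs
        · rw [mul_one]; exact habs _
        · rw [mul_zero, abs_zero]; norm_num)
    rw [one_mul] at m1 m2
    set A1 := ∑ ω, p ω * (φ (X ω + w) * if vv ω = s then 1 else 0) with hA1
    set A2 := ∑ ω, p ω * (φ (Q ω + (g o s + w)) * if vv ω = s then 1 else 0) with hA2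
    set B1 := ∑ ω, p ω * ((φ (X ω + w) * if vv ω = s then 1 else 0) * if om ω = o then 1 else 0) with hB1
    set B2 := ∑ ω, p ω * ((φ (Q ω + (g o s + w)) * if vv ω = s then 1 else 0) * if om ω = o then 1 else 0)
      with hB2
    have m1' : |B1 - law p om o * A1| ≤ d1 := m1
    have m2' : |B2 - law p om o * A2| ≤ d2 := m2
    have m3 : |B1 - B2| ≤ d * R / a * law p om o + p5 := by
      rw [hB1, hB2, ← Finset.sum_sub_distrib]
      refine le_trans (Finset.abs_sum_le_sum_abs _ _) ?_
      have b1 : ∀ ω ∈ (univ : Finset Ω),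
          |p ω * ((φ (X ω + w) * if vv ω = s then 1 else 0) * if om ω = o then 1 else 0)
            - p ω * ((φ (Q ω + (g o s + w)) * if vv ω = s then 1 else 0) * if om ω = o then 1 else 0)|
          ≤ d * R / a * (if om ω = o then p ω else 0) + (p ω - if ok ω then p ω else 0) := by
        intro ω _
        have c0 := hp ω
        have hdRa : 0 ≤ d * R / (a : ℝ) := by positivity
        by_cases c1 : vv ω = s
        · by_cases c2 : om ω = o
          · simp only [c1, c2, if_true, mul_one]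
            rw [← mul_sub, abs_mul, abs_of_nonneg c0]
            by_cases c3 : ok ω
            · rw [if_pos c3, sub_self, add_zero, mul_comm]
              refine mul_le_mul_of_nonneg_right ?_ c0
              refine le_trans (hL _ _) ?_
              apply div_le_div_of_nonneg_right _ har.le
              have b2 : ∀ i ∈ (univ : Finset (Fin d)),
                  |(((X ω + w) i - (Q ω + (g o s + w)) i : ℤ) : ℝ)| ≤ R := by
                intro i _
                have := hX ω c3 i
                rw [c1, c2] at this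
                have e : (X ω + w) i - (Q ω + (g o s + w)) i = X ω i - (Q ω i + g o s i) := by
                  simp only [Pi.add_apply]; ring
                rw [e]; exact this
              refine le_trans (Finset.sum_le_sum b2) ?_
              rw [Finset.sum_const, Finset.card_univ, Fintype.card_fin, nsmul_eq_mul]
            · rw [if_neg c3, sub_zero]
              have : |φ (X ω + w) - φ (Q ω + (g o s + w))| ≤ 1 := by
                rw [abs_le]
                constructor <;> linarith [(hφ (X ω + w)).1, (hφ (X ω + w)).2, (hφ (Q ω + (g o s + w))).1,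
                  (hφ (Q ω + (g o s + w))).2]
              have := mul_le_mul_of_nonneg_left this c0
              have : 0 ≤ d * R / a * p ω := by positivity
              linarith
          · simp only [c1, if_true, if_neg c2, mul_zero, sub_zero, abs_zero, zero_add]
            split_ifs
            · rw [sub_self]
            · rw [sub_zero]; exact c0
        · have e1 : |p ω * ((φ (X ω + w) * if vv ω = s then 1 else 0) * if om ω = o then 1 else 0)
            - p ω * ((φ (Q ω + (g o s + w)) * if vv ω = s then 1 else 0) * if om ω = o then 1 else 0)| = 0 := by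
            simp only [if_neg c1, mul_zero, zero_mul, sub_zero, abs_zero]
          rw [e1]
          have e2 : 0 ≤ d * R / a * (if om ω = o then p ω else 0) := by
            split_ifs
            · positivity
            · rw [mul_zero]
          have e3 : 0 ≤ p ω - (if ok ω then p ω else 0) := by
            split_ifs
            · rw [sub_self]
            · rw [sub_zero]; exact c0
          linarith
      refine le_trans (Finset.sum_le_sum b1) ?_
      rw [Finset.sum_add_distrib, ← Finset.mul_sum, Finset.sum_sub_distrib, hp1, ← Finset.sum_filter ok]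
      have b3 : ∑ ω, (if om ω = o then p ω else 0) = law p om o := rfl
      rw [b3]
      linarith
    have m4 : law p om o * |A1 - A2| ≤ d1 + d2 + (d * R / a * law p om o + p5) := by
      rw [← abs_of_pos hlo, ← abs_mul, abs_of_pos hlo]
      have e : law p om o * (A1 - A2) = -(B1 - law p om o * A1) + (B2 - law p om o * A2) + (B1 - B2) := by ring
      rw [e]
      refine le_trans (abs_add_le _ _) ?_
      refine le_trans (add_le_add_left (abs_add_le _ _) _) ?_
      rw [abs_neg]
      linarith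
    have m5 : |A1 - A2| ≤ (d1 + d2 + p5) / law p om o + d * R / a := by
      rw [← sub_le_iff_le_add, le_div_iff₀ hlo]
      linarith
    refine le_trans m5 ?_
    have m6 : (d1 + d2 + p5) / law p om o ≤ (d1 + d2 + p5) / π := by
      apply div_le_div_of_nonneg_left _ hπ ho
      positivity
    linarith
  -- the shift
  set v : Fin d → ℤ := g o s - g o' s with hv
  have c1 := cmp o ho 0
  have c2 := cmp o' ho' v
  have e0 : g o s + 0 = g o s := add_zero _
  have e1 : g o' s + v = g o s := by rw [hv]; abel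
  rw [e0] at c1
  rw [e1] at c2
  simp only [add_zero] at c1
  have n1 := mean_dep p X vv s (fun x => φ x) 1 (fun x => habs x)
  have n2 := mean_dep p X vv s (fun x => φ (x + v)) 1 (fun x => habs _)
  rw [one_mul] at n1 n2
  set E1 := ∑ ω, p ω * φ (X ω) with hE1
  set E2 := ∑ ω, p ω * φ (X ω + v) with hE2
  set F1 := ∑ ω, p ω * (φ (X ω) * if vv ω = s then 1 else 0) with hF1
  set F2 := ∑ ω, p ω * (φ (X ω + v) * if vv ω = s then 1 else 0) with hF2
  set F3 := ∑ ω, p ω * (φ (Q ω + g o s) * if vv ω = s then 1 else 0) with hF3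
  have n1' : |F1 - law p vv s * E1| ≤ d3 := n1
  have n2' : |F2 - law p vv s * E2| ≤ d3 := n2
  have tot : ∑ ω, p ω * (φ (X ω) - φ (X ω + v)) = E1 - E2 := by
    rw [hE1, hE2, ← Finset.sum_sub_distrib]
    exact Finset.sum_congr rfl (fun ω _ => by ring)
  rw [tot]
  set δ := (d1 + d2 + p5) / π + d * R / a with hδ
  have k1 : law p vv s * |E1 - E2| ≤ 2 * δ + 2 * d3 := by
    have hab : law p vv s * |E1 - E2| = |law p vv s * (E1 - E2)| := by rw [abs_mul, abs_of_pos hls]
    rw [hab]
    have e : law p vv s * (E1 - E2) = -(F1 - law p vv s * E1) + (F2 - law p vv s * E2)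
        + ((F1 - F3) - (F2 - F3)) := by ring
    rw [e]
    refine le_trans (abs_add_le _ _) ?_
    refine le_trans (add_le_add (abs_add_le _ _) (abs_sub _ _)) ?_
    rw [abs_neg]
    linarith
  have k2 : π' * |E1 - E2| ≤ 2 * δ + 2 * d3 :=
    le_trans (mul_le_mul_of_nonneg_right hs (abs_nonneg _)) k1
  rw [le_div_iff₀ hπ']
  linarith

open Classical in
/-- FBM: full block from three conditional mutual informations -/
theorem full_of_mi {d : ℕ} (p : Ω → ℝ) (hp : ∀ ω, 0 ≤ p ω) (hp1 : ∑ ω, p ω = 1) (F : Ω → U)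
    (X Q : Ω → Fin d → ℤ) (om : Ω → O) (vv : Ω → S) (g : O → S → Fin d → ℤ) (a m : ℤ) (ha : 0 < a) (hm : 0 < m)
    (n : ℕ) (hn0 : 0 < n) (hn : (d : ℤ) * n ≤ m) (D : ℕ) (ok : Ω → Prop) (R : ℝ) (hR : 0 ≤ R)
    (hX : ∀ ω, ok ω → ∀ i, |((X ω i - (Q ω i + g (om ω) (vv ω) i) : ℤ) : ℝ)| ≤ R)
    (p5 : ℝ) (hok : 1 - p5 ≤ ∑ ω with ok ω, p ω) (π π' : ℝ) (hπ : 0 < π) (hπ' : 0 < π') (V : Finset U)
    (hV : ∀ f ∈ V, 0 < law p F f ∧ ∃ (o o' : Fin d → O) (s : Fin d → S),
      (∀ j, π ≤ law (cond p F f) om (o j) ∧ π ≤ law (cond p F f) om (o' j) ∧ π' ≤ law (cond p F f) vv (s j)) ∧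
      (∀ j i, |(g (o j) (s j) - g (o' j) (s j)) i| ≤ a) ∧
      (d.factorial : ℤ) * a ^ d ≤ D * |(Matrix.of (fun j => g (o j) (s j) - g (o' j) (s j))).det|)
    (G : Finset Ω) (hG : ∀ ω ∈ G, F ω ∈ V) (ι1 ι2 ι3 : ℝ)
    (hι1 : CH p (fun ω => (X ω, vv ω)) F + CH p om F - CH p (fun ω => ((X ω, vv ω), om ω)) F ≤ ι1)
    (hι2 : CH p (fun ω => (Q ω, vv ω)) F + CH p om F - CH p (fun ω => ((Q ω, vv ω), om ω)) F ≤ ι2)
    (hι3 : CH p X F + CH p vv F - CH p (fun ω => (X ω, vv ω)) F ≤ ι3) (E : ℝ)
    (hE : 2 ^ d * (d * n * ((2 * ((2 * Real.sqrt ι1 + 2 * Real.sqrt ι2 + p5) / π + d * R / a)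
      + 4 * Real.sqrt ι3) / π') + (3 * (2 * D + 1)) ^ d / n ^ d) ≤ E) :
    (∑ ω ∈ G, p ω) * Real.log ((∑ ω ∈ G, p ω) / E)
      ≤ CH p (fun ω => dv a (X ω)) (fun ω => (dv (a * m) (X ω), F ω)) := by
  have har : (0 : ℝ) < a := by exact_mod_cast ha
  set pc : U → Ω → ℝ := fun f => Pool.Agent.H49.Ent.cond p F f with hpc
  set q5 : U → ℝ := fun f => 1 - ∑ ω with ok ω, pc f ω with hq5
  set D1 : U → ℝ := fun f => dep (pc f) (fun ω => (X ω, vv ω)) om with hD1
  set D2 : U → ℝ := fun f => dep (pc f) (fun ω => (Q ω, vv ω)) om with hD2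
  set D3 : U → ℝ := fun f => dep (pc f) X vv with hD3
  set ε : U → ℝ := fun f => law p F f * ((2 * ((D1 f + D2 f + q5 f) / π + d * R / a) + 2 * D3 f) / π') with hεd
  have hlw : ∀ f ∈ V, 0 < law p F f := fun f hf => (hV f hf).1
  have hpc0 : ∀ f ω, 0 ≤ pc f ω := fun f ω => cond_nonneg hp F f ω
  have hpc1 : ∀ f ∈ V, ∑ ω, pc f ω = 1 := fun f hf => sum_cond p F (hlw f hf).ne'
  have hq50 : ∀ f ∈ V, 0 ≤ q5 f := by
    intro f hf
    have : ∑ ω with ok ω, pc f ω ≤ ∑ ω, pc f ω :=
      Finset.sum_le_sum_of_subset_of_nonneg (Finset.subset_univ _) (fun ω _ _ => hpc0 f ω)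
    rw [hpc1 f hf] at this
    simp only [hq5]
    linarith
  have hcm : ∀ f ∈ V, ∀ g : Ω → ℝ, ∑ ω, (if F ω = f then p ω else 0) * g ω = law p F f * ∑ ω, pc f ω * g ω := by
    intro f hf g
    rw [Finset.mul_sum]
    refine Finset.sum_congr rfl (fun ω _ => ?_)
    simp only [hpc, Pool.Agent.H49.Ent.cond]
    split_ifs
    · have := (hlw f hf).ne'
      field_simp
    · ring
  have hs1 : ∑ f ∈ V, law p F f * D1 f ≤ 2 * Real.sqrt ι1 := sqrt_mean p hp hp1 F _ om V hlw ι1 hι1
  have hs2 : ∑ f ∈ V, law p F f * D2 f ≤ 2 * Real.sqrt ι2 := sqrt_mean p hp hp1 F _ om V hlw ι2 hι2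
  have hs3 : ∑ f ∈ V, law p F f * D3 f ≤ 2 * Real.sqrt ι3 := sqrt_mean p hp hp1 F X vv V hlw ι3 hι3
  have hlsum : ∑ f ∈ V, law p F f = ∑ ω with F ω ∈ V, p ω := by
    unfold law
    rw [Finset.sum_comm, Finset.sum_filter]
    refine Finset.sum_congr rfl (fun ω _ => ?_)
    rw [Finset.sum_ite_eq]
  have hlle : ∑ f ∈ V, law p F f ≤ 1 := by
    rw [hlsum, ← hp1]
    exact Finset.sum_le_sum_of_subset_of_nonneg (Finset.subset_univ _) (fun ω _ _ => hp ω)
  have hoksum : ∑ f ∈ V, law p F f * ∑ ω with ok ω, pc f ω = ∑ ω with (ok ω ∧ F ω ∈ V), p ω := by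
    have h1 : ∀ f ∈ V, law p F f * ∑ ω with ok ω, pc f ω = ∑ ω, if F ω = f then (if ok ω then p ω else 0) else 0 := by
      intro f hf
      rw [Finset.sum_filter]
      have h2 := hcm f hf (fun ω => if ok ω then 1 else 0)
      have h3 : ∑ ω, pc f ω * (if ok ω then (1:ℝ) else 0) = ∑ ω, if ok ω then pc f ω else 0 :=
        Finset.sum_congr rfl (fun ω _ => by split_ifs <;> ring)
      rw [← h3, ← h2]
      refine Finset.sum_congr rfl (fun ω _ => ?_)
      split_ifs <;> ring
    rw [Finset.sum_congr rfl h1, Finset.sum_comm, Finset.sum_filter]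
    refine Finset.sum_congr rfl (fun ω _ => ?_)
    rw [Finset.sum_ite_eq]
    by_cases c1 : F ω ∈ V <;> by_cases c2 : ok ω <;> simp [c1, c2]
  have hs4 : ∑ f ∈ V, law p F f * q5 f ≤ p5 := by
    have e : ∑ f ∈ V, law p F f * q5 f
        = ∑ f ∈ V, law p F f - ∑ f ∈ V, law p F f * ∑ ω with ok ω, pc f ω := by
      rw [← Finset.sum_sub_distrib]
      exact Finset.sum_congr rfl (fun f _ => by simp only [hq5]; ring)
    rw [e, hlsum, hoksum]
    have h1 : ∑ ω with F ω ∈ V, p ω + ∑ ω with ok ω, p ω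
        ≤ ∑ ω with (ok ω ∧ F ω ∈ V), p ω + ∑ ω, p ω := by
      rw [Finset.sum_filter, Finset.sum_filter, Finset.sum_filter, ← Finset.sum_add_distrib,
        ← Finset.sum_add_distrib]
      refine Finset.sum_le_sum (fun ω _ => ?_)
      have := hp ω
      by_cases c1 : F ω ∈ V <;> by_cases c2 : ok ω <;> simp [c1, c2, this]
    linarith
  refine fbk p hp hp1 F X a m ha hm n hn0 hn D V ε ?_ ?_ G hG E ?_
  · intro f hf
    have h1 := law_nonneg hp F f
    have h2 : 0 ≤ D1 f := dep_nonneg _ _ _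
    have h3 : 0 ≤ D2 f := dep_nonneg _ _ _
    have h4 : 0 ≤ D3 f := dep_nonneg _ _ _
    have h5 := hq50 f hf
    simp only [hεd]
    positivity
  · intro f hf
    obtain ⟨_, o, o', s, hπs, hva, hdet⟩ := hV f hf
    refine ⟨fun j => g (o j) (s j) - g (o' j) (s j), hva, hdet, ?_⟩
    intro j φ hφ hL
    obtain ⟨w1, w2, w3⟩ := hπs j
    have h1 := inv_of_dep a ha (pc f) (hpc0 f) (hpc1 f hf) X Q om vv g ok R hR hX (q5 f)
      (by simp only [hq5]; linarith) (o j) (o' j) (s j) π π' hπ hπ' w1 w2 w3 φ hφ hL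
    rw [hcm f hf, abs_mul, abs_of_pos (hlw f hf)]
    exact mul_le_mul_of_nonneg_left h1 (hlw f hf).le
  · refine le_trans (mul_le_mul_of_nonneg_left ?_ (by positivity)) hE
    have hnr : (0 : ℝ) < n := by exact_mod_cast hn0
    have s1 : ∑ f ∈ V, ε f ≤ (2 * ((2 * Real.sqrt ι1 + 2 * Real.sqrt ι2 + p5) / π + d * R / a)
      + 4 * Real.sqrt ι3) / π' := by
      have e : ∑ f ∈ V, ε f = (2 * ((∑ f ∈ V, law p F f * D1 f + ∑ f ∈ V, law p F f * D2 f
          + ∑ f ∈ V, law p F f * q5 f) / π + (∑ f ∈ V, law p F f) * (d * R / a))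
          + 2 * ∑ f ∈ V, law p F f * D3 f) / π' := by
        rw [← Finset.sum_add_distrib, ← Finset.sum_add_distrib, Finset.sum_div V _ π, Finset.sum_mul,
          ← Finset.sum_add_distrib, Finset.mul_sum, Finset.mul_sum, ← Finset.sum_add_distrib, Finset.sum_div]
        refine Finset.sum_congr rfl (fun f _ => ?_)
        simp only [hεd]
        ring
      rw [e]
      apply div_le_div_of_nonneg_right _ hπ'.le
      have h1 : (∑ f ∈ V, law p F f * D1 f + ∑ f ∈ V, law p F f * D2 f + ∑ f ∈ V, law p F f * q5 f) / π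
          ≤ (2 * Real.sqrt ι1 + 2 * Real.sqrt ι2 + p5) / π :=
        div_le_div_of_nonneg_right (by linarith) hπ.le
      have h2 : (∑ f ∈ V, law p F f) * (d * R / a) ≤ 1 * (d * R / a) :=
        mul_le_mul_of_nonneg_right hlle (by positivity)
      linarith
    have s2 : (d : ℝ) * n * ∑ f ∈ V, ε f ≤ d * n * ((2 * ((2 * Real.sqrt ι1 + 2 * Real.sqrt ι2 + p5) / π
      + d * R / a) + 4 * Real.sqrt ι3) / π') := mul_le_mul_of_nonneg_left s1 (by positivity)
    linarith

end Pool.S6F
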