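import Pool.Agent.H8.KS6.YTV

set_option autoImplicit false

/-!
# The sampled level (rows DOO and LEV of K3_S6_h46 section 2)

`DOO`: if a block `om` is nearly independent of a fine context `C` given a coarse context `V 0`, then, outside a set of small
probability, the law of `om` given `C` is close to the law of `om` given `V i`, for ALL intermediate contexts `V i` at once.

`LEV`: conditioning on an event `E` costs at most `log (1 / P E)` nats in total along a nested chain of contexts.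
-/

namespace Pool.S6L

open Finset Pool.Agent.H49.Ent Pool.S6Y

variable {Ω : Type*} [Fintype Ω] {S T U O σ : Type*}

/-- conditional mean of `f` given the value of `V` at `ω` -/
noncomputable def mean (p : Ω → ℝ) (V : Ω → σ) (f : Ω → ℝ) (ω : Ω) : ℝ :=
  ∑ ω', cond p V (V ω) ω' * f ω'

open Classical in
lemma mean_eq (p : Ω → ℝ) (V : Ω → σ) (f : Ω → ℝ) (ω : Ω) :
    mean p V f ω = (∑ ω', if V ω' = V ω then p ω' * f ω' else 0) / law p V (V ω) := by
  unfold mean Pool.Agent.H49.Ent.cond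
  rw [Finset.sum_div]
  refine Finset.sum_congr rfl (fun ω' _ => ?_)
  split_ifs <;> ring

lemma mean_nonneg (p : Ω → ℝ) (hp : ∀ ω, 0 ≤ p ω) (V : Ω → σ) (f : Ω → ℝ) (hf : ∀ ω, 0 ≤ f ω) (ω : Ω) :
    0 ≤ mean p V f ω :=
  Finset.sum_nonneg (fun ω' _ => mul_nonneg (cond_nonneg hp V _ ω') (hf ω'))

open Classical in
/-- averaging a conditional mean over an event which is a function of `V` -/
lemma sum_mean (p : Ω → ℝ) (hp : ∀ ω, 0 ≤ p ω) (V : Ω → σ) (f : Ω → ℝ) (A : Ω → Prop)
    (hA : ∀ ω ω', 0 < p ω → 0 < p ω' → V ω = V ω' → A ω → A ω') :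
    ∑ ω with A ω, p ω * mean p V f ω = ∑ ω with A ω, p ω * f ω := by
  have h1 : ∀ ω ∈ univ.filter A, p ω * mean p V f ω
      = ∑ ω', (if V ω' = V ω then p ω * (p ω' * f ω') / law p V (V ω) else 0) := by
    intro ω _
    rw [mean_eq, mul_div_assoc', Finset.mul_sum, Finset.sum_div]
    refine Finset.sum_congr rfl (fun ω' _ => ?_)
    split_ifs
    · rfl
    · simp
  rw [Finset.sum_congr rfl h1, Finset.sum_comm]
  have h2 : ∀ ω' ∈ (univ : Finset Ω), ∑ ω ∈ univ.filter A,
      (if V ω' = V ω then p ω * (p ω' * f ω') / law p V (V ω) else 0)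
      = if A ω' then p ω' * f ω' else 0 := by
    intro ω' _
    rcases eq_or_lt_of_le (hp ω') with h0 | h0
    · rw [← h0]; simp
    · have hl := law_pos hp V h0
      by_cases hA' : A ω'
      · rw [if_pos hA']
        have e : ∑ ω ∈ univ.filter A, (if V ω' = V ω then p ω * (p ω' * f ω') / law p V (V ω) else 0)
            = ∑ ω, (if V ω = V ω' then p ω else 0) * ((p ω' * f ω') / law p V (V ω')) := by
          rw [Finset.sum_filter]
          refine Finset.sum_congr rfl (fun ω _ => ?_)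
          by_cases h3 : V ω = V ω'
          · rcases eq_or_lt_of_le (hp ω) with h4 | h4
            · rw [← h4]; simp
            · rw [if_pos (hA ω' ω h0 h4 h3.symm hA'), if_pos h3.symm, if_pos h3, h3]; ring
          · have h3' : ¬ V ω' = V ω := fun h => h3 h.symm
            simp [h3, h3']
        rw [e, ← Finset.sum_mul]
        have e2 : ∑ ω, (if V ω = V ω' then p ω else 0) = law p V (V ω') := rfl
        rw [e2]
        field_simp
      · rw [if_neg hA']
        refine Finset.sum_eq_zero (fun ω hω => ?_)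
        by_cases h3 : V ω' = V ω
        · rcases eq_or_lt_of_le (hp ω) with h4 | h4
          · rw [← h4]; simp
          · exact absurd (hA ω ω' h4 h0 h3.symm (Finset.mem_filter.1 hω).2) hA'
        · rw [if_neg h3]
  rw [Finset.sum_congr rfl h2, Finset.sum_filter]

open Classical in
/-- maximal inequality along a nested chain -/
theorem doob (p : Ω → ℝ) (hp : ∀ ω, 0 ≤ p ω) (n : ℕ) (V : ℕ → Ω → σ) (hV : ∀ i < n, Det p (V (i + 1)) (V i))
    (f : Ω → ℝ) (hf : ∀ ω, 0 ≤ f ω) (δ : ℝ) :
    δ * ∑ ω with (∃ i ≤ n, δ < mean p (V i) f ω), p ω ≤ ∑ ω, p ω * f ω := by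
  -- nested determination
  have hV' : ∀ i j, i ≤ j → j ≤ n → Det p (V j) (V i) := by
    intro i j hij
    induction j, hij using Nat.le_induction with
    | base => intro _ ω ω' _ _ h; exact h
    | succ j _ ih =>
      intro hj ω ω' h1 h2 h
      exact ih (by omega) ω ω' h1 h2 (hV j (by omega) ω ω' h1 h2 h)
  have hmc : ∀ i, ∀ ω ω', V i ω = V i ω' → mean p (V i) f ω = mean p (V i) f ω' := by
    intro i ω ω' h
    unfold mean
    rw [h]
  obtain ⟨A, hA⟩ : ∃ A : ℕ → Ω → Prop, ∀ i ω, A i ω ↔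
    (δ < mean p (V i) f ω ∧ ∀ k < i, mean p (V k) f ω ≤ δ) := ⟨_, fun _ _ => Iff.rfl⟩
  have hAd : ∀ i ≤ n, ∀ ω ω', 0 < p ω → 0 < p ω' → V i ω = V i ω' → A i ω → A i ω' := by
    intro i hi ω ω' h1 h2 h h34
    rw [hA] at h34 ⊢
    obtain ⟨h3, h4⟩ := h34
    refine ⟨by rw [← hmc i ω ω' h]; exact h3, fun k hk => ?_⟩
    rw [← hmc k ω ω' (hV' k i hk.le hi ω ω' h1 h2 h)]
    exact h4 k hk
  have hex : ∀ ω, (∃ i ≤ n, δ < mean p (V i) f ω) ↔ ∃ i ∈ Finset.range (n + 1), A i ω := by
    intro ω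
    constructor
    · intro h
      have h' : ∃ i, i ≤ n ∧ δ < mean p (V i) f ω := h
      refine ⟨Nat.find h', Finset.mem_range.2 ?_, (hA _ _).2 ⟨(Nat.find_spec h').2, fun k hk => ?_⟩⟩
      · have := (Nat.find_spec h').1; omega
      · have h5 := Nat.find_min h' hk
        by_contra hc
        exact h5 ⟨by have := (Nat.find_spec h').1; omega, not_le.1 hc⟩
    · rintro ⟨i, hi, h1⟩
      exact ⟨i, by have := Finset.mem_range.1 hi; omega, ((hA _ _).1 h1).1⟩
  have hdisj : ∀ ω, ∀ i j, A i ω → A j ω → i = j := by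
    intro ω i j hi hj
    rw [hA] at hi hj
    rcases lt_trichotomy i j with h | h | h
    · exact absurd (hj.2 i h) (not_le.2 hi.1)
    · exact h
    · exact absurd (hi.2 j h) (not_le.2 hj.1)
  have h1 : ∑ ω with (∃ i ≤ n, δ < mean p (V i) f ω), p ω
      = ∑ i ∈ Finset.range (n + 1), ∑ ω with A i ω, p ω := by
    simp only [Finset.sum_filter]
    rw [Finset.sum_comm]
    refine Finset.sum_congr rfl (fun ω _ => ?_)
    by_cases h : ∃ i ≤ n, δ < mean p (V i) f ω
    · rw [if_pos h]
      obtain ⟨i, hi, hAi⟩ := (hex ω).1 h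
      rw [Finset.sum_eq_single i]
      · rw [if_pos hAi]
      · intro j _ hj
        rw [if_neg (fun hc => hj (hdisj ω j i hc hAi))]
      · intro hc; exact absurd hi hc
    · rw [if_neg h]
      symm
      refine Finset.sum_eq_zero (fun i hi => ?_)
      rw [if_neg (fun hc => h ((hex ω).2 ⟨i, hi, hc⟩))]
  rw [h1, Finset.mul_sum]
  have h2 : ∀ i ∈ Finset.range (n + 1), δ * ∑ ω with A i ω, p ω ≤ ∑ ω with A i ω, p ω * f ω := by
    intro i hi
    have hi' : i ≤ n := by have := Finset.mem_range.1 hi; omega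
    rw [← sum_mean p hp (V i) f (A i) (hAd i hi'), Finset.mul_sum]
    refine Finset.sum_le_sum (fun ω hω => ?_)
    have := ((hA _ _).1 (Finset.mem_filter.1 hω).2).1
    rw [mul_comm]
    exact mul_le_mul_of_nonneg_left this.le (hp ω)
  refine le_trans (Finset.sum_le_sum h2) ?_
  simp only [Finset.sum_filter]
  rw [Finset.sum_comm]
  refine Finset.sum_le_sum (fun ω _ => ?_)
  have hpf : 0 ≤ p ω * f ω := mul_nonneg (hp ω) (hf ω)
  by_cases h : ∃ i ∈ Finset.range (n + 1), A i ω
  · obtain ⟨i, hi, hAi⟩ := h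
    rw [Finset.sum_eq_single i]
    · rw [if_pos hAi]
    · intro j _ hj
      rw [if_neg (fun hc => hj (hdisj ω j i hc hAi))]
    · intro hc; exact absurd hi hc
  · rw [Finset.sum_eq_zero]
    · exact hpf
    · intro i hi
      rw [if_neg (fun hc => h ⟨i, hi, hc⟩)]

/-- the conditional law of `om` given the value of `V` at `ω` -/
noncomputable def clw (p : Ω → ℝ) (V : Ω → σ) (om : Ω → O) (ω : Ω) (o : O) : ℝ := law (cond p V (V ω)) om o

open Classical in
/-- distance of two conditional laws of `om` at `ω` -/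
noncomputable def dst (p : Ω → ℝ) (V : Ω → σ) (W : Ω → T) (om : Ω → O) (ω : Ω) : ℝ :=
  ∑ o ∈ univ.image om, |clw p V om ω o - clw p W om ω o|

lemma dst_nonneg (p : Ω → ℝ) (V : Ω → σ) (W : Ω → T) (om : Ω → O) (ω : Ω) : 0 ≤ dst p V W om ω :=
  Finset.sum_nonneg (fun _ _ => abs_nonneg _)

lemma dst_triangle (p : Ω → ℝ) (V : Ω → σ) (W : Ω → T) (W' : Ω → S) (om : Ω → O) (ω : Ω) :
    dst p V W om ω ≤ dst p V W' om ω + dst p W W' om ω := by
  unfold dst
  rw [← Finset.sum_add_distrib]
  refine Finset.sum_le_sum (fun o _ => ?_)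
  have e : clw p V om ω o - clw p W om ω o
      = (clw p V om ω o - clw p W' om ω o) - (clw p W om ω o - clw p W' om ω o) := by ring
  rw [e]
  exact abs_sub _ _

open Classical in
/-- tower rule for conditional probabilities -/
lemma clw_tower (p : Ω → ℝ) (hp : ∀ ω, 0 ≤ p ω) (V : Ω → σ) (C : Ω → T) (hC : Det p C V) (om : Ω → O) (ω : Ω) (o : O)
    (hω : 0 < p ω) : clw p V om ω o = mean p V (fun ω' => clw p C om ω' o) ω := by
  have hl := law_pos hp V hω
  have h1 := sum_mean p hp C (fun ω' => if om ω' = o then 1 else 0) (fun ω' => V ω' = V ω) (by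
    intro a b ha hb h1 h2
    rw [← hC a b ha hb h1]; exact h2)
  have h2 : ∀ ω', mean p C (fun ω' => if om ω' = o then 1 else 0) ω' = clw p C om ω' o := by
    intro ω'
    unfold mean clw law
    refine Finset.sum_congr rfl (fun a _ => ?_)
    by_cases c : om a = o <;> simp [c]
  rw [Finset.sum_filter, Finset.sum_filter] at h1
  have h3 : clw p V om ω o * law p V (V ω)
      = ∑ a, if V a = V ω then p a * (if om a = o then (1:ℝ) else 0) else 0 := by
    unfold clw
    have : law (cond p V (V ω)) om o = ∑ a, if om a = o then cond p V (V ω) a else 0 := rfl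
    rw [this, Finset.sum_mul]
    refine Finset.sum_congr rfl (fun a _ => ?_)
    unfold Pool.Agent.H49.Ent.cond
    by_cases c1 : om a = o <;> by_cases c2 : V a = V ω <;> simp [c1, c2]
    field_simp
  have h4 : ∑ a, (if V a = V ω then p a * mean p C (fun ω' => if om ω' = o then 1 else 0) a else 0)
      = ∑ a, if V a = V ω then p a * clw p C om a o else 0 :=
    Finset.sum_congr rfl (fun a _ => by rw [h2])
  rw [mean_eq, eq_div_iff hl.ne', h3, ← h1, h4]

open Classical in
/-- the distance to a coarser context is at most the conditional mean -/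
lemma dst_le_mean (p : Ω → ℝ) (hp : ∀ ω, 0 ≤ p ω) (V : Ω → σ) (V0 : Ω → T) (C : Ω → S) (hC : Det p C V)
    (h0 : Det p V V0) (om : Ω → O) (ω : Ω) (hω : 0 < p ω) :
    dst p V V0 om ω ≤ mean p V (fun ω' => dst p C V0 om ω') ω := by
  have hl := law_pos hp V hω
  have hc1 : ∑ a, cond p V (V ω) a = 1 := sum_cond p V hl.ne'
  have hsame : ∀ a, 0 < cond p V (V ω) a → ∀ o, clw p V0 om a o = clw p V0 om ω o := by
    intro a ha o
    obtain ⟨h1, h2⟩ := (cond_pos_iff hp V (V ω) a).1 ha
    unfold clw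
    rw [h0 a ω h1 hω h2]
  unfold dst mean
  have e : ∑ a, cond p V (V ω) a * ∑ o ∈ univ.image om, |clw p C om a o - clw p V0 om a o|
      = ∑ o ∈ univ.image om, ∑ a, cond p V (V ω) a * |clw p C om a o - clw p V0 om a o| := by
    rw [Finset.sum_comm]
    exact Finset.sum_congr rfl (fun a _ => by rw [Finset.mul_sum])
  rw [e]
  refine Finset.sum_le_sum (fun o _ => ?_)
  have h3 : clw p V om ω o - clw p V0 om ω o
      = ∑ a, cond p V (V ω) a * (clw p C om a o - clw p V0 om a o) := by
    have h4 : ∑ a, cond p V (V ω) a * (clw p C om a o - clw p V0 om a o)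
        = ∑ a, cond p V (V ω) a * clw p C om a o - ∑ a, cond p V (V ω) a * clw p V0 om ω o := by
      rw [← Finset.sum_sub_distrib]
      refine Finset.sum_congr rfl (fun a _ => ?_)
      rcases eq_or_lt_of_le (cond_nonneg hp V (V ω) a) with h5 | h5
      · rw [← h5]; ring
      · rw [hsame a h5 o]; ring
    rw [h4, ← Finset.sum_mul, hc1, one_mul, clw_tower p hp V C hC om ω o hω]
    rfl
  rw [h3]
  refine le_trans (Finset.abs_sum_le_sum_abs _ _) (le_of_eq (Finset.sum_congr rfl (fun a _ => ?_)))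
  rw [abs_mul, abs_of_nonneg (cond_nonneg hp V (V ω) a)]

/-- laws under a conditioned law, when the event is determined by the variable -/
lemma law_cond_det (p : Ω → ℝ) (hp : ∀ ω, 0 ≤ p ω) (V0 : Ω → T) (f : T) (X : Ω → S) (x : S)
    (hx : ∀ ω, 0 < p ω → X ω = x → V0 ω = f) :
    law (cond p V0 f) X x = law p X x / law p V0 f := by
  classical
  unfold law Pool.Agent.H49.Ent.cond
  rw [Finset.sum_div]
  refine Finset.sum_congr rfl (fun a _ => ?_)
  rcases eq_or_lt_of_le (hp a) with h | h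
  · rw [← h]; simp
  · by_cases c : X a = x
    · rw [if_pos c, if_pos c, if_pos (hx a h c)]; rfl
    · rw [if_neg c, if_neg c]; simp

open Classical in
/-- the mean distance under one value of the coarse context -/
lemma mean_dst_one (p : Ω → ℝ) (hp : ∀ ω, 0 ≤ p ω) (C : Ω → S) (V0 : Ω → T) (hC : Det p C V0) (om : Ω → O)
    (f : T) (hf : 0 < law p V0 f) :
    ∑ ω, cond p V0 f ω * dst p C V0 om ω = dep (cond p V0 f) C om := by
  set q := cond p V0 f with hq
  have hq0 : ∀ ω, 0 ≤ q ω := cond_nonneg hp V0 f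
  set R : S → O → ℝ := fun c o => law q (fun ω => (C ω, om ω)) (c, o) / law q C c with hR
  have h1 : ∀ ω, 0 < q ω → ∀ o, clw p C om ω o = R (C ω) o ∧ clw p V0 om ω o = law q om o := by
    intro ω hω o
    obtain ⟨h2, h3⟩ := (cond_pos_iff hp V0 f ω).1 hω
    have hx : ∀ a, 0 < p a → C a = C ω → V0 a = f := fun a ha hca => by rw [hC a ω ha h2 hca, h3]
    constructor
    · have e1 : law q C (C ω) = law p C (C ω) / law p V0 f := law_cond_det p hp V0 f C (C ω) hx
      have e2 : law q (fun ω => (C ω, om ω)) (C ω, o) = law p (fun ω => (C ω, om ω)) (C ω, o) / law p V0 f :=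
        law_cond_det p hp V0 f (fun ω => (C ω, om ω)) (C ω, o)
          (fun a ha hca => hx a ha (Prod.ext_iff.1 hca).1)
      have e3 : clw p C om ω o = law p (fun ω => (om ω, C ω)) (o, C ω) / law p C (C ω) := by
        unfold clw
        rw [law_cond]
      have e4 : law p (fun ω => (om ω, C ω)) (o, C ω) = law p (fun ω => (C ω, om ω)) (C ω, o) := by
        unfold law
        refine Finset.sum_congr rfl (fun a _ => ?_)
        by_cases c1 : om a = o <;> by_cases c2 : C a = C ω <;> simp [c1, c2]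
      rw [e3, e4]
      simp only [hR]
      rw [e1, e2, div_div_div_cancel_right₀ hf.ne']
    · unfold clw
      rw [h3]
  have h2 : ∑ ω, q ω * dst p C V0 om ω
      = ∑ ω, q ω * (fun c => ∑ o ∈ univ.image om, |R c o - law q om o|) (C ω) := by
    refine Finset.sum_congr rfl (fun ω _ => ?_)
    rcases eq_or_lt_of_le (hq0 ω) with h | h
    · rw [← h]; ring
    · congr 1
      unfold dst
      refine Finset.sum_congr rfl (fun o _ => ?_)
      rw [(h1 ω h o).1, (h1 ω h o).2]
  refine Eq.trans h2 (Eq.trans (sum_mul_eq_sum_image q C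
    (fun c => ∑ o ∈ univ.image om, |R c o - law q om o|)) ?_)
  unfold dep
  rw [Finset.sum_product]
  refine Finset.sum_congr rfl (fun c _ => ?_)
  rw [Finset.mul_sum]
  refine Finset.sum_congr rfl (fun o _ => ?_)
  have hl := law_nonneg hq0 C c
  rw [← abs_of_nonneg hl, ← abs_mul, abs_of_nonneg hl, mul_sub]
  congr 2
  simp only [hR]
  rcases eq_or_lt_of_le hl with h | h
  · have : law q (fun ω => (C ω, om ω)) (c, o) = 0 := by
      refine le_antisymm ?_ (law_nonneg hq0 _ _)
      rw [h]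
      unfold law
      refine Finset.sum_le_sum (fun a _ => ?_)
      by_cases c1 : C a = c <;> by_cases c2 : om a = o <;> simp [c1, c2, hq0 a]
    rw [this, ← h]; simp
  · field_simp

open Classical in
/-- the mean distance is controlled by the conditional mutual information -/
lemma mean_dst (p : Ω → ℝ) (hp : ∀ ω, 0 ≤ p ω) (hp1 : ∑ ω, p ω = 1) (C : Ω → S) (V0 : Ω → T) (hC : Det p C V0)
    (om : Ω → O) (ι : ℝ) (hι : CH p om V0 - CH p om C ≤ ι) :
    ∑ ω, p ω * dst p C V0 om ω ≤ 2 * Real.sqrt ι := by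
  set V : Finset T := (univ.image V0).filter (fun f => 0 < law p V0 f) with hV
  have hι' : CH p C V0 + CH p om V0 - CH p (fun ω => (C ω, om ω)) V0 ≤ ι := by
    have e1 : H p (fun ω => (C ω, V0 ω)) = H p C :=
      H_congr hp (fun a b ha hb h => by
        show (C a, V0 a) = (C b, V0 b)
        rw [show C a = C b from h, hC a b ha hb h]) (fun a b _ _ h => (Prod.ext_iff.1 h).1)
    have e2 : H p (fun ω => ((C ω, om ω), V0 ω)) = H p (fun ω => (om ω, C ω)) :=
      H_congr hp (fun a b ha hb h => by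
        have h1 := (Prod.ext_iff.1 h).1
        have h2 := (Prod.ext_iff.1 h).2
        simp only at h1 h2
        show ((C a, om a), V0 a) = ((C b, om b), V0 b)
        rw [h1, h2, hC a b ha hb h2]) (fun a b _ _ h => by
        have h1 := (Prod.ext_iff.1 (Prod.ext_iff.1 h).1)
        exact Prod.ext h1.2 h1.1)
    unfold CH at hι ⊢
    rw [e1, e2]
    linarith
  have h1 := sqrt_mean p hp hp1 V0 C om V (fun f hf => (Finset.mem_filter.1 hf).2) ι hι'
  refine le_trans (le_of_eq ?_) h1
  have h2 : ∀ f ∈ V, law p V0 f * dep (cond p V0 f) C om = ∑ ω, if V0 ω = f then p ω * dst p C V0 om ω else 0 := by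
    intro f hf
    have hf' := (Finset.mem_filter.1 hf).2
    rw [← mean_dst_one p hp C V0 hC om f hf', Finset.mul_sum]
    refine Finset.sum_congr rfl (fun ω _ => ?_)
    unfold Pool.Agent.H49.Ent.cond
    split_ifs
    · field_simp
    · ring
  rw [Finset.sum_congr rfl h2, Finset.sum_comm]
  refine Finset.sum_congr rfl (fun ω _ => ?_)
  rcases eq_or_lt_of_le (hp ω) with h | h
  · rw [← h]
    symm
    refine Eq.trans ?_ (zero_mul _).symm
    exact Finset.sum_eq_zero (fun f _ => by split_ifs <;> simp)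
  · rw [Finset.sum_ite_eq, if_pos]
    rw [hV, Finset.mem_filter]
    exact ⟨Finset.mem_image_of_mem V0 (Finset.mem_univ ω), law_pos hp V0 h⟩

open Classical in
/-- DOO: the law of `om` given the fine context is close to the law of `om` given every intermediate context at once -/
theorem doo (p : Ω → ℝ) (hp : ∀ ω, 0 ≤ p ω) (hp1 : ∑ ω, p ω = 1) (n : ℕ) (V : ℕ → Ω → σ)
    (hV : ∀ i < n, Det p (V (i + 1)) (V i)) (C : Ω → S) (hC : Det p C (V n)) (om : Ω → O) (ι δ : ℝ) (hδ : 0 < δ)
    (hι : CH p om (V 0) - CH p om C ≤ ι) :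
    ∑ ω with (∃ i ≤ n, 2 * δ < dst p C (V i) om ω), p ω ≤ 4 * Real.sqrt ι / δ := by
  have hV' : ∀ i j, i ≤ j → j ≤ n → Det p (V j) (V i) := by
    intro i j hij
    induction j, hij using Nat.le_induction with
    | base => intro _ ω ω' _ _ h; exact h
    | succ j _ ih =>
      intro hj ω ω' h1 h2 h
      exact ih (by omega) ω ω' h1 h2 (hV j (by omega) ω ω' h1 h2 h)
  have hCi : ∀ i ≤ n, Det p C (V i) := fun i hi ω ω' h1 h2 h => hV' i n hi le_rfl ω ω' h1 h2 (hC ω ω' h1 h2 h)
  set D0 : Ω → ℝ := fun ω => dst p C (V 0) om ω with hD0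
  have hD00 : ∀ ω, 0 ≤ D0 ω := fun ω => dst_nonneg p C (V 0) om ω
  have hm : ∑ ω, p ω * D0 ω ≤ 2 * Real.sqrt ι := mean_dst p hp hp1 C (V 0) (hCi 0 (Nat.zero_le _)) om ι hι
  have hd := doob p hp n V hV D0 hD00 δ
  -- the set where D0 itself is large
  have hmk : δ * ∑ ω with δ < D0 ω, p ω ≤ ∑ ω, p ω * D0 ω := by
    rw [Finset.mul_sum]
    refine le_trans (Finset.sum_le_sum (g := fun ω => p ω * D0 ω) (fun ω hω => ?_)) ?_
    · rw [mul_comm]
      exact mul_le_mul_of_nonneg_left (Finset.mem_filter.1 hω).2.le (hp ω)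
    · exact Finset.sum_le_sum_of_subset_of_nonneg (Finset.filter_subset _ _)
        (fun ω _ _ => mul_nonneg (hp ω) (hD00 ω))
  have hsub : ∑ ω with (∃ i ≤ n, 2 * δ < dst p C (V i) om ω), p ω
      ≤ ∑ ω with (∃ i ≤ n, δ < mean p (V i) D0 ω), p ω + ∑ ω with δ < D0 ω, p ω := by
    simp only [Finset.sum_filter]
    rw [← Finset.sum_add_distrib]
    refine Finset.sum_le_sum (fun ω _ => ?_)
    rcases eq_or_lt_of_le (hp ω) with h | h
    · rw [← h]; simp
    · by_cases hA : ∃ i ≤ n, 2 * δ < dst p C (V i) om ω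
      · rw [if_pos hA]
        obtain ⟨i, hi, h2⟩ := hA
        have h3 : dst p C (V i) om ω ≤ D0 ω + mean p (V i) D0 ω := by
          have t1 : dst p C (V i) om ω ≤ dst p C (V 0) om ω + dst p (V i) (V 0) om ω :=
            dst_triangle p C (V i) (V 0) om ω
          have t2 : dst p (V i) (V 0) om ω ≤ mean p (V i) D0 ω :=
            dst_le_mean p hp (V i) (V 0) C (hCi i hi) (hV' 0 i (Nat.zero_le _) hi) om ω h
          simp only [hD0] at t2 ⊢
          linarith
        by_cases h4 : δ < D0 ω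
        · rw [if_pos h4]
          split_ifs <;> linarith
        · have h5 : ∃ i ≤ n, δ < mean p (V i) D0 ω := ⟨i, hi, by linarith [not_lt.1 h4]⟩
          rw [if_pos h5]
          split_ifs <;> linarith
      · rw [if_neg hA]
        split_ifs <;> linarith
  refine le_trans hsub ?_
  rw [le_div_iff₀ hδ]
  have e : (∑ ω with (∃ i ≤ n, δ < mean p (V i) D0 ω), p ω + ∑ ω with δ < D0 ω, p ω) * δ
      = δ * ∑ ω with (∃ i ≤ n, δ < mean p (V i) D0 ω), p ω + δ * ∑ ω with δ < D0 ω, p ω := by ring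
  rw [e]
  linarith

/-! ### conditioning on an event -/

open Classical in
/-- Pinsker's inequality, weak form, for a law and a subprobability -/
lemma pin_kl {ι : Type*} (I : Finset ι) (μ ν : ι → ℝ) (hμ : ∀ i ∈ I, 0 ≤ μ i) (hν : ∀ i ∈ I, 0 ≤ ν i)
    (h1 : ∑ i ∈ I, μ i = 1) (h2 : ∑ i ∈ I, ν i ≤ 1) (hac : ∀ i ∈ I, 0 < μ i → 0 < ν i) :
    ∑ i ∈ I, |μ i - ν i| ≤ 2 * Real.sqrt (∑ i ∈ I, μ i * Real.log (μ i / ν i)) := by
  set KL := ∑ i ∈ I, μ i * Real.log (μ i / ν i) with hKL
  have hb : 2 - 2 * ∑ i ∈ I, Real.sqrt (μ i) * Real.sqrt (ν i) ≤ KL := by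
    have : ∑ i ∈ I, 2 * (μ i - Real.sqrt (μ i) * Real.sqrt (ν i)) ≤ KL := by
      refine Finset.sum_le_sum (fun i hi => ?_)
      rcases eq_or_lt_of_le (hμ i hi) with h | h
      · rw [← h]; simp
      · have hn := hac i hi h
        have hs : 0 < Real.sqrt (ν i) / Real.sqrt (μ i) := by positivity
        have h3 := Real.log_le_sub_one_of_pos hs
        have h4 : Real.log (μ i / ν i) = -2 * Real.log (Real.sqrt (ν i) / Real.sqrt (μ i)) := by
          rw [Real.log_div h.ne' hn.ne', Real.log_div (Real.sqrt_pos.2 hn).ne' (Real.sqrt_pos.2 h).ne',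
            Real.log_sqrt hn.le, Real.log_sqrt h.le]
          ring
        rw [h4]
        have h5 : μ i * (Real.sqrt (ν i) / Real.sqrt (μ i)) = Real.sqrt (μ i) * Real.sqrt (ν i) := by
          have : μ i = Real.sqrt (μ i) * Real.sqrt (μ i) := (Real.mul_self_sqrt h.le).symm
          have hsq : Real.sqrt (μ i) ≠ 0 := (Real.sqrt_pos.2 h).ne'
          calc μ i * (Real.sqrt (ν i) / Real.sqrt (μ i))
              = (Real.sqrt (μ i) * Real.sqrt (μ i)) * (Real.sqrt (ν i) / Real.sqrt (μ i)) := by rw [← this]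
            _ = _ := by field_simp
        nlinarith [mul_le_mul_of_nonneg_left h3 h.le]
    rw [← Finset.mul_sum, Finset.sum_sub_distrib, h1] at this
    linarith
  have hc1 : ∑ i ∈ I, (Real.sqrt (μ i) - Real.sqrt (ν i)) ^ 2 ≤ KL := by
    have e : ∀ i ∈ I, (Real.sqrt (μ i) - Real.sqrt (ν i)) ^ 2
        = μ i + ν i - 2 * (Real.sqrt (μ i) * Real.sqrt (ν i)) := by
      intro i hi
      rw [sub_sq, Real.sq_sqrt (hμ i hi), Real.sq_sqrt (hν i hi)]; ring
    rw [Finset.sum_congr rfl e, Finset.sum_sub_distrib, Finset.sum_add_distrib, ← Finset.mul_sum, h1]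
    linarith
  have hc2 : ∑ i ∈ I, (Real.sqrt (μ i) + Real.sqrt (ν i)) ^ 2 ≤ 4 := by
    have e : ∀ i ∈ I, (Real.sqrt (μ i) + Real.sqrt (ν i)) ^ 2 ≤ 2 * μ i + 2 * ν i := by
      intro i hi
      have := sq_nonneg (Real.sqrt (μ i) - Real.sqrt (ν i))
      rw [sub_sq, Real.sq_sqrt (hμ i hi), Real.sq_sqrt (hν i hi)] at this
      rw [add_sq, Real.sq_sqrt (hμ i hi), Real.sq_sqrt (hν i hi)]
      linarith
    refine le_trans (Finset.sum_le_sum e) ?_
    rw [Finset.sum_add_distrib, ← Finset.mul_sum, ← Finset.mul_sum, h1]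
    linarith
  have hcs := Finset.sum_mul_sq_le_sq_mul_sq I (fun i => |Real.sqrt (μ i) - Real.sqrt (ν i)|)
    (fun i => Real.sqrt (μ i) + Real.sqrt (ν i))
  have e1 : ∀ i ∈ I, |Real.sqrt (μ i) - Real.sqrt (ν i)| * (Real.sqrt (μ i) + Real.sqrt (ν i)) = |μ i - ν i| := by
    intro i hi
    have h5 : 0 ≤ Real.sqrt (μ i) + Real.sqrt (ν i) := by positivity
    have h6 : |Real.sqrt (μ i) - Real.sqrt (ν i)| * (Real.sqrt (μ i) + Real.sqrt (ν i))
        = |(Real.sqrt (μ i) - Real.sqrt (ν i)) * (Real.sqrt (μ i) + Real.sqrt (ν i))| := by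
      rw [abs_mul, abs_of_nonneg h5]
    rw [h6]
    have e2 : (Real.sqrt (μ i) - Real.sqrt (ν i)) * (Real.sqrt (μ i) + Real.sqrt (ν i))
        = Real.sqrt (μ i) ^ 2 - Real.sqrt (ν i) ^ 2 := by ring
    rw [e2, Real.sq_sqrt (hμ i hi), Real.sq_sqrt (hν i hi)]
  rw [Finset.sum_congr rfl e1] at hcs
  simp only [sq_abs] at hcs
  have hKL0 : 0 ≤ KL := le_trans (Finset.sum_nonneg (fun i _ => sq_nonneg _)) hc1
  have h6 : (∑ i ∈ I, |μ i - ν i|) ^ 2 ≤ KL * 4 := by
    refine le_trans hcs ?_
    exact mul_le_mul hc1 hc2 (Finset.sum_nonneg (fun i _ => sq_nonneg _)) hKL0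
  have h7 : ∑ i ∈ I, |μ i - ν i| ≤ Real.sqrt (KL * 4) := Real.le_sqrt_of_sq_le h6
  rw [Real.sqrt_mul hKL0, show (4:ℝ) = 2 ^ 2 by norm_num, Real.sqrt_sq (by norm_num)] at h7
  linarith

/-- relative entropy of the laws of `X` under `q` and under `p` -/
noncomputable def kl (q p : Ω → ℝ) (X : Ω → S) : ℝ :=
  ∑ ω, q ω * Real.log (law q X (X ω) / law p X (X ω))

/-- `q` is absolutely continuous -/
lemma law_pos_of_ac (q p : Ω → ℝ) (hp : ∀ ω, 0 ≤ p ω) (hac : ∀ ω, 0 < q ω → 0 < p ω)
    (X : Ω → S) {ω : Ω} (h : 0 < q ω) : 0 < law p X (X ω) := law_pos hp X (hac ω h)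

open Classical in
/-- data processing -/
lemma kl_mono (q p : Ω → ℝ) (hq : ∀ ω, 0 ≤ q ω) (hq1 : ∑ ω, q ω = 1) (hp : ∀ ω, 0 ≤ p ω)
    (hac : ∀ ω, 0 < q ω → 0 < p ω) (X : Ω → S) (Y : Ω → T) (hXY : Det p X Y) : kl q p Y ≤ kl q p X := by
  have h1 : ∀ ω, q ω * (1 - (law p X (X ω) * law q Y (Y ω)) / (law q X (X ω) * law p Y (Y ω)))
      ≤ q ω * Real.log (law q X (X ω) / law p X (X ω)) - q ω * Real.log (law q Y (Y ω) / law p Y (Y ω)) := by
    intro ω
    rcases eq_or_lt_of_le (hq ω) with h | h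
    · rw [← h]; simp
    · have a1 := law_pos hq X h
      have a2 := law_pos hq Y h
      have a3 := law_pos hp X (hac ω h)
      have a4 := law_pos hp Y (hac ω h)
      have h2 := Real.log_le_sub_one_of_pos
        (x := (law p X (X ω) * law q Y (Y ω)) / (law q X (X ω) * law p Y (Y ω))) (by positivity)
      have h3 : Real.log ((law p X (X ω) * law q Y (Y ω)) / (law q X (X ω) * law p Y (Y ω)))
          = Real.log (law q Y (Y ω) / law p Y (Y ω)) - Real.log (law q X (X ω) / law p X (X ω)) := by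
        rw [Real.log_div (by positivity) (by positivity), Real.log_mul a3.ne' a2.ne',
          Real.log_mul a1.ne' a4.ne', Real.log_div a2.ne' a4.ne', Real.log_div a1.ne' a3.ne']
        ring
      rw [h3] at h2
      rw [← mul_sub]
      exact mul_le_mul_of_nonneg_left (by linarith) h.le
  have h2 : ∑ ω, q ω * ((law p X (X ω) * law q Y (Y ω)) / (law q X (X ω) * law p Y (Y ω))) ≤ 1 := by
    -- group by the value of `X`
    have g1 : ∀ ω, q ω * ((law p X (X ω) * law q Y (Y ω)) / (law q X (X ω) * law p Y (Y ω)))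
        = ∑ ω', (if X ω' = X ω then p ω' * (q ω / law q X (X ω)) * (law q Y (Y ω') / law p Y (Y ω')) else 0) := by
      intro ω
      rcases eq_or_lt_of_le (hq ω) with h | h
      · rw [← h]; simp
      · have a1 := law_pos hq X h
        have a4 := law_pos hp Y (hac ω h)
        have e1 : ∀ ω' ∈ (univ : Finset Ω), (if X ω' = X ω then p ω' * (q ω / law q X (X ω))
            * (law q Y (Y ω') / law p Y (Y ω')) else 0)
            = (if X ω' = X ω then p ω' else 0) * ((q ω / law q X (X ω)) * (law q Y (Y ω) / law p Y (Y ω))) := by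
          intro ω' _
          by_cases c : X ω' = X ω
          · rw [if_pos c, if_pos c]
            rcases eq_or_lt_of_le (hp ω') with h0 | h0
            · rw [← h0]; simp
            · rw [hXY ω' ω h0 (hac ω h) c]; ring
          · rw [if_neg c, if_neg c]; ring
        rw [Finset.sum_congr rfl e1, ← Finset.sum_mul]
        have e2 : ∑ ω', (if X ω' = X ω then p ω' else 0) = law p X (X ω) := rfl
        rw [e2]
        field_simp
    rw [Finset.sum_congr rfl (fun ω _ => g1 ω), Finset.sum_comm]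
    have g2 : ∀ ω' ∈ (univ : Finset Ω), ∑ ω, (if X ω' = X ω then p ω' * (q ω / law q X (X ω))
        * (law q Y (Y ω') / law p Y (Y ω')) else 0) ≤ p ω' * (law q Y (Y ω') / law p Y (Y ω')) := by
      intro ω' _
      have e1 : ∀ ω ∈ (univ : Finset Ω), (if X ω' = X ω then p ω' * (q ω / law q X (X ω))
            * (law q Y (Y ω') / law p Y (Y ω')) else 0)
            = (if X ω = X ω' then q ω else 0) * (p ω' / law q X (X ω') * (law q Y (Y ω') / law p Y (Y ω'))) := by
        intro ω _
        by_cases c : X ω' = X ω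
        · rw [if_pos c, if_pos c.symm, c]; ring
        · rw [if_neg c, if_neg (fun h => c h.symm)]; ring
      rw [Finset.sum_congr rfl e1, ← Finset.sum_mul]
      have e2 : ∑ ω, (if X ω = X ω' then q ω else 0) = law q X (X ω') := rfl
      rw [e2]
      have b1 : 0 ≤ law q Y (Y ω') / law p Y (Y ω') := div_nonneg (law_nonneg hq _ _) (law_nonneg hp _ _)
      rcases eq_or_lt_of_le (law_nonneg hq X (X ω')) with h | h
      · rw [← h, zero_mul]; exact mul_nonneg (hp ω') b1
      · refine le_of_eq ?_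
        field_simp
    refine le_trans (Finset.sum_le_sum g2) ?_
    -- group by the value of `Y`
    have g3 : ∑ ω', p ω' * (law q Y (Y ω') / law p Y (Y ω')) ≤ ∑ ω, q ω := by
      have e3 := sum_mul_eq_sum_image p Y (fun y => law q Y y / law p Y y)
      rw [e3, ← sum_law q Y]
      refine Finset.sum_le_sum (fun y _ => ?_)
      rcases eq_or_lt_of_le (law_nonneg hp Y y) with h | h
      · rw [← h, zero_mul]; exact law_nonneg hq Y y
      · rw [mul_div_cancel₀ _ h.ne']
    rw [hq1] at g3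
    exact g3
  have h3 := Finset.sum_le_sum (fun ω (_ : ω ∈ (univ : Finset Ω)) => h1 ω)
  rw [Finset.sum_sub_distrib] at h3
  simp only [mul_sub, mul_one, Finset.sum_sub_distrib, hq1] at h3
  unfold kl
  linarith

open Classical in
/-- upper bound by a density bound -/
lemma kl_le (q p : Ω → ℝ) (hq : ∀ ω, 0 ≤ q ω) (hq1 : ∑ ω, q ω = 1) (hp : ∀ ω, 0 ≤ p ω) (c : ℝ)
    (hqp : ∀ ω, q ω ≤ c * p ω) (X : Ω → S) : kl q p X ≤ Real.log c := by
  have hac : ∀ ω, 0 < q ω → 0 < p ω := by
    intro ω h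
    by_contra hc'
    have : p ω = 0 := le_antisymm (not_lt.1 hc') (hp ω)
    have := hqp ω
    rw [‹p ω = 0›, mul_zero] at this
    linarith
  have hl : ∀ x, law q X x ≤ c * law p X x := by
    intro x
    unfold law
    rw [Finset.mul_sum]
    refine Finset.sum_le_sum (fun ω _ => ?_)
    split_ifs
    · exact hqp ω
    · simp
  have h1 : ∀ ω, q ω * Real.log (law q X (X ω) / law p X (X ω)) ≤ q ω * Real.log c := by
    intro ω
    rcases eq_or_lt_of_le (hq ω) with h | h
    · rw [← h]; simp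
    · refine mul_le_mul_of_nonneg_left ?_ h.le
      have a1 := law_pos hq X h
      have a3 := law_pos hp X (hac ω h)
      refine Real.log_le_log (by positivity) ?_
      rw [div_le_iff₀ a3]
      exact hl _
  unfold kl
  refine le_trans (Finset.sum_le_sum (fun ω _ => h1 ω)) ?_
  rw [← Finset.sum_mul, hq1, one_mul]

lemma kl_const (q p : Ω → ℝ) (hq1 : ∑ ω, q ω = 1) (hp1 : ∑ ω, p ω = 1) (s : S) :
    kl q p (fun _ => s) = 0 := by
  classical
  unfold kl law
  simp [hq1, hp1]

lemma kl_nonneg (q p : Ω → ℝ) (hq : ∀ ω, 0 ≤ q ω) (hq1 : ∑ ω, q ω = 1) (hp : ∀ ω, 0 ≤ p ω)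
    (hp1 : ∑ ω, p ω = 1) (hac : ∀ ω, 0 < q ω → 0 < p ω) (X : Ω → S) : 0 ≤ kl q p X := by
  have := kl_mono q p hq hq1 hp hac X (fun _ => ()) (fun _ _ _ _ _ => rfl)
  rw [kl_const q p hq1 hp1] at this
  exact this

open Classical in
/-- the mean distance of the conditional laws of `Y` given `V` under `q` and under `p` -/
lemma kl_pinsker (q p : Ω → ℝ) (hq : ∀ ω, 0 ≤ q ω) (hq1 : ∑ ω, q ω = 1) (hp : ∀ ω, 0 ≤ p ω)
    (hac : ∀ ω, 0 < q ω → 0 < p ω) (V : Ω → S) (Y : Ω → T) :
    ∑ ω, q ω * ∑ y ∈ univ.image Y, |clw q V Y ω y - clw p V Y ω y|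
      ≤ 2 * Real.sqrt (kl q p (fun ω => (V ω, Y ω)) - kl q p V) := by
  set μ : S × T → ℝ := fun g => law q (fun ω => (V ω, Y ω)) g with hμ
  set ν : S × T → ℝ := fun g => law q V g.1 * (law p (fun ω => (V ω, Y ω)) g / law p V g.1) with hν
  set I := (univ.image V) ×ˢ (univ.image Y) with hI
  have hμ0 : ∀ g, 0 ≤ μ g := fun g => law_nonneg hq _ _
  have hν0 : ∀ g, 0 ≤ ν g := fun g =>
    mul_nonneg (law_nonneg hq _ _) (div_nonneg (law_nonneg hp _ _) (law_nonneg hp _ _))
  have hsub : univ.image (fun ω => (V ω, Y ω)) ⊆ I := by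
    intro g hg
    rw [Finset.mem_image] at hg
    obtain ⟨ω, _, rfl⟩ := hg
    rw [hI, Finset.mem_product]
    exact ⟨Finset.mem_image_of_mem V (Finset.mem_univ ω), Finset.mem_image_of_mem Y (Finset.mem_univ ω)⟩
  have hs : ∀ (r : Ω → ℝ), ∑ g ∈ I, law r (fun ω => (V ω, Y ω)) g = ∑ ω, r ω := by
    intro r
    rw [← sum_law r (fun ω => (V ω, Y ω))]
    symm
    exact Finset.sum_subset hsub (fun g _ hg => law_eq_zero_of_notMem r _ hg)
  have h1 : ∑ g ∈ I, μ g = 1 := by rw [← hq1]; exact hs q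
  have hmarg : ∀ (r : Ω → ℝ) (v : S), ∑ y ∈ univ.image Y, law r (fun ω => (V ω, Y ω)) (v, y) = law r V v := by
    intro r v
    unfold law
    rw [Finset.sum_comm]
    refine Finset.sum_congr rfl (fun ω _ => ?_)
    rw [Finset.sum_eq_single (Y ω)]
    · by_cases c : V ω = v <;> simp [c]
    · intro y _ hy
      rw [if_neg]
      intro hc
      exact hy (Prod.ext_iff.1 hc).2.symm
    · intro hc
      exact absurd (Finset.mem_image_of_mem Y (Finset.mem_univ ω)) hc
  have h2 : ∑ g ∈ I, ν g ≤ 1 := by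
    rw [hI, Finset.sum_product]
    have e : ∀ v ∈ univ.image V, ∑ y ∈ univ.image Y, ν (v, y) ≤ law q V v := by
      intro v _
      have e1 : ∑ y ∈ univ.image Y, ν (v, y) = law q V v * (law p V v / law p V v) := by
        simp only [hν]
        rw [← Finset.mul_sum, ← Finset.sum_div, hmarg p v]
      rw [e1]
      have : law p V v / law p V v ≤ 1 := div_self_le_one _
      calc law q V v * (law p V v / law p V v) ≤ law q V v * 1 :=
            mul_le_mul_of_nonneg_left this (law_nonneg hq _ _)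
        _ = law q V v := mul_one _
    refine le_trans (Finset.sum_le_sum e) ?_
    rw [sum_law q V, hq1]
  have hac' : ∀ g ∈ I, 0 < μ g → 0 < ν g := by
    intro g _ hg
    have : ∃ ω, 0 < q ω ∧ (V ω, Y ω) = g := by
      by_contra hc
      push Not at hc
      have : μ g = 0 := by
        simp only [hμ]
        unfold law
        refine Finset.sum_eq_zero (fun ω _ => ?_)
        split_ifs with hh
        · rcases eq_or_lt_of_le (hq ω) with h | h
          · exact h.symm
          · exact absurd hh (hc ω h)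
        · rfl
      linarith
    obtain ⟨ω, hω, rfl⟩ := this
    have a1 := law_pos hq V hω
    have a2 := law_pos hp V (hac ω hω)
    have a3 := law_pos hp (fun ω => (V ω, Y ω)) (hac ω hω)
    simp only [hν]
    positivity
  have hpk := pin_kl I μ ν (fun g _ => hμ0 g) (fun g _ => hν0 g) h1 h2 hac'
  have hKL : ∑ g ∈ I, μ g * Real.log (μ g / ν g) = kl q p (fun ω => (V ω, Y ω)) - kl q p V := by
    have e1 : ∑ g ∈ I, μ g * Real.log (μ g / ν g) = ∑ ω, q ω * Real.log (μ (V ω, Y ω) / ν (V ω, Y ω)) := by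
      have := sum_mul_eq_sum_image q (fun ω => (V ω, Y ω)) (fun g => Real.log (μ g / ν g))
      rw [this]
      symm
      refine Finset.sum_subset hsub (fun g _ hg => ?_)
      rw [law_eq_zero_of_notMem q _ hg, zero_mul]
    rw [e1]
    unfold kl
    rw [← Finset.sum_sub_distrib]
    refine Finset.sum_congr rfl (fun ω _ => ?_)
    rcases eq_or_lt_of_le (hq ω) with h | h
    · rw [← h]; ring
    · have a1 := law_pos hq V h
      have a2 := law_pos hp V (hac ω h)
      have a3 := law_pos hp (fun ω => (V ω, Y ω)) (hac ω h)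
      have a4 := law_pos hq (fun ω => (V ω, Y ω)) h
      rw [← mul_sub]
      congr 1
      simp only [hμ, hν]
      rw [← Real.log_div (by positivity) (by positivity)]
      congr 1
      field_simp
  rw [hKL] at hpk
  refine le_trans (le_of_eq ?_) hpk
  have e2 : ∀ ω, q ω * ∑ y ∈ univ.image Y, |clw q V Y ω y - clw p V Y ω y|
      = q ω * (fun v => ∑ y ∈ univ.image Y, |law q (fun ω => (V ω, Y ω)) (v, y) / law q V v
        - law p (fun ω => (V ω, Y ω)) (v, y) / law p V v|) (V ω) := by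
    intro ω
    congr 1
    refine Finset.sum_congr rfl (fun y _ => ?_)
    have e3 : ∀ r : Ω → ℝ, clw r V Y ω y = law r (fun ω => (V ω, Y ω)) (V ω, y) / law r V (V ω) := by
      intro r
      unfold clw
      rw [law_cond]
      congr 1
      unfold law
      refine Finset.sum_congr rfl (fun a _ => ?_)
      by_cases c1 : V a = V ω <;> by_cases c2 : Y a = y <;> simp [c1, c2]
    rw [e3 q, e3 p]
  refine Eq.trans (Finset.sum_congr rfl (fun ω _ => e2 ω)) (Eq.trans (sum_mul_eq_sum_image q V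
    (fun v => ∑ y ∈ univ.image Y, |law q (fun ω => (V ω, Y ω)) (v, y) / law q V v
        - law p (fun ω => (V ω, Y ω)) (v, y) / law p V v|)) ?_)
  rw [hI, Finset.sum_product]
  refine Finset.sum_congr rfl (fun v _ => ?_)
  rw [Finset.mul_sum]
  refine Finset.sum_congr rfl (fun y _ => ?_)
  have hl := law_nonneg hq V v
  rw [← abs_of_nonneg hl, ← abs_mul, abs_of_nonneg hl, mul_sub]
  simp only [hμ, hν]
  congr 2
  rcases eq_or_lt_of_le hl with h | h
  · have : law q (fun ω => (V ω, Y ω)) (v, y) = 0 := by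
      refine le_antisymm ?_ (law_nonneg hq _ _)
      rw [h]
      unfold law
      refine Finset.sum_le_sum (fun a _ => ?_)
      by_cases c1 : V a = v <;> by_cases c2 : Y a = y <;> simp [c1, c2, hq a]
    rw [this, ← h]; simp
  · field_simp

/-- LEV: the total cost of conditioning along a nested chain -/
theorem lev (q p : Ω → ℝ) (hq : ∀ ω, 0 ≤ q ω) (hq1 : ∑ ω, q ω = 1) (hp : ∀ ω, 0 ≤ p ω) (hp1 : ∑ ω, p ω = 1)
    (c : ℝ) (hqp : ∀ ω, q ω ≤ c * p ω) (n : ℕ) (V : ℕ → Ω → S) (Y : ℕ → Ω → T)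
    (hV : ∀ i < n, Det p (V (i + 1)) (fun ω => (V i ω, Y i ω))) :
    ∑ i ∈ range n, (kl q p (fun ω => (V i ω, Y i ω)) - kl q p (V i)) ≤ Real.log c := by
  have hac : ∀ ω, 0 < q ω → 0 < p ω := by
    intro ω h
    by_contra hc'
    have h0 : p ω = 0 := le_antisymm (not_lt.1 hc') (hp ω)
    have := hqp ω
    rw [h0, mul_zero] at this
    linarith
  have h1 : ∀ m, m ≤ n → ∑ i ∈ range m, (kl q p (fun ω => (V i ω, Y i ω)) - kl q p (V i))
      ≤ kl q p (V m) - kl q p (V 0) := by
    intro m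
    induction m with
    | zero => intro _; simp
    | succ m ih =>
      intro hm
      rw [Finset.sum_range_succ]
      have h2 := ih (by omega)
      have h3 := kl_mono q p hq hq1 hp hac (V (m + 1)) (fun ω => (V m ω, Y m ω)) (hV m (by omega))
      linarith
  have h4 := h1 n le_rfl
  have h5 := kl_nonneg q p hq hq1 hp hp1 hac (V 0)
  have h6 := kl_le q p hq hq1 hp c hqp (V n)
  linarith

end Pool.S6L
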