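import Mathlib

set_option autoImplicit false

/-!
# Three fan values: the crossing population has full rows before the crossing (row LEMY of board ks6)

`X`, `Y` real, `|Y| ≤ 1`, three parameters `s1 < s2 < s3` in `[0,1]`; the laws of `X + s_i Y` (seen on the lattice `1/K`)
are close in total variation.  Then, for every set `R` of integers with at most `r` elements in each cell `[cL, (c+1)L)`,
the mass of `Y^2` on the event that the integer part of `X + s2 Y` lies in `R` is at most a constant times `r/L`.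
No smoothing and no third derivative: the test function is explicit (sums of truncated squares), and the second
difference is bounded below by supporting lines.
-/

namespace Pool.S6Y

open Finset

/-- truncated square -/
noncomputable def P (x : ℝ) : ℝ := (max x 0) ^ 2 / 2

/-- second primitive of the indicator of `[0,A]` -/
noncomputable def Q (A x : ℝ) : ℝ := P x - P (x - A)

lemma P_of_nonpos {x : ℝ} (h : x ≤ 0) : P x = 0 := by
  unfold P; rw [max_eq_right h]; norm_num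

lemma P_of_nonneg {x : ℝ} (h : 0 ≤ x) : P x = x ^ 2 / 2 := by
  unfold P; rw [max_eq_left h]

lemma P_nonneg (x : ℝ) : 0 ≤ P x := by unfold P; positivity

lemma sq_eq (x : ℝ) : x ^ 2 / 2 = P x + P (-x) := by
  rcases le_total 0 x with h | h
  · rw [P_of_nonneg h, P_of_nonpos (by linarith only [h] : -x ≤ 0)]; ring
  · rw [P_of_nonpos h, P_of_nonneg (by linarith only [h] : 0 ≤ -x)]; ring

/-- supporting lines of `P` -/
lemma P_support (x0 : ℝ) : ∃ l m : ℝ, (∀ x, l * x + m ≤ P x) ∧ l * x0 + m = P x0 := by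
  rcases le_total 0 x0 with h | h
  · refine ⟨x0, -(x0 ^ 2 / 2), ?_, ?_⟩
    · intro x
      rcases le_total 0 x with hx | hx
      · rw [P_of_nonneg hx]; nlinarith only [sq_nonneg (x - x0)]
      · rw [P_of_nonpos hx]; nlinarith only [h, hx, mul_nonneg h (neg_nonneg.2 hx), sq_nonneg x0]
    · rw [P_of_nonneg h]; ring
  · refine ⟨0, 0, ?_, ?_⟩
    · intro x; simpa using P_nonneg x
    · rw [P_of_nonpos h]; ring

lemma Q_of_nonpos {A x : ℝ} (hA : 0 ≤ A) (h : x ≤ 0) : Q A x = 0 := by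
  unfold Q; rw [P_of_nonpos h, P_of_nonpos (by linarith only [hA, h] : x - A ≤ 0)]; ring

lemma Q_of_mem {A x : ℝ} (h : 0 ≤ x) (h' : x ≤ A) : Q A x = x ^ 2 / 2 := by
  unfold Q; rw [P_of_nonneg h, P_of_nonpos (by linarith only [h'] : x - A ≤ 0)]; ring

lemma Q_of_ge {A x : ℝ} (hA : 0 ≤ A) (h : A ≤ x) : Q A x = A * x - A ^ 2 / 2 := by
  unfold Q; rw [P_of_nonneg (by linarith only [hA, h] : 0 ≤ x), P_of_nonneg (by linarith only [h] : 0 ≤ x - A)]; ring

lemma Q_nonneg {A : ℝ} (hA : 0 ≤ A) (x : ℝ) : 0 ≤ Q A x := by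
  rcases le_total x 0 with h | h
  · rw [Q_of_nonpos hA h]
  · rcases le_total x A with h' | h'
    · rw [Q_of_mem h h']; positivity
    · rw [Q_of_ge hA h']; nlinarith only [hA, h, h']

lemma Q_le {A : ℝ} (hA : 0 ≤ A) {x z : ℝ} (hz : 0 ≤ z) (h : x ≤ z) : Q A x ≤ A * z := by
  rcases le_total x 0 with h1 | h1
  · rw [Q_of_nonpos hA h1]; positivity
  · rcases le_total x A with h' | h'
    · rw [Q_of_mem h1 h']; nlinarith only [hA, hz, h', h, h1]
    · rw [Q_of_ge hA h']; nlinarith only [hA, h, sq_nonneg A]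

/-- supporting lines of `Q` -/
lemma Q_support {A : ℝ} (hA : 0 ≤ A) (x0 : ℝ) :
    ∃ l m : ℝ, (∀ x, l * x + m ≤ Q A x) ∧ l * x0 + m = Q A x0 := by
  have key : ∀ l : ℝ, 0 ≤ l → l ≤ A → ∀ x, l * x + -(l ^ 2 / 2) ≤ Q A x := by
    intro l hl hlA x
    rcases le_total x 0 with h | h
    · rw [Q_of_nonpos hA h]; nlinarith only [hl, h, mul_nonneg hl (neg_nonneg.2 h), sq_nonneg l]
    · rcases le_total x A with h' | h'
      · rw [Q_of_mem h h']; nlinarith only [sq_nonneg (x - l)]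
      · rw [Q_of_ge hA h']; nlinarith only [hlA, h', mul_nonneg (sub_nonneg.2 hlA) (sub_nonneg.2 h'), sq_nonneg (A - l)]
  rcases le_total x0 0 with h | h
  · refine ⟨0, -(0 ^ 2 / 2), fun x => key 0 le_rfl hA x, ?_⟩
    rw [Q_of_nonpos hA h]; ring
  · rcases le_total x0 A with h' | h'
    · refine ⟨x0, -(x0 ^ 2 / 2), fun x => key x0 h h' x, ?_⟩
      rw [Q_of_mem h h']; ring
    · refine ⟨A, -(A ^ 2 / 2), fun x => key A hA le_rfl x, ?_⟩
      rw [Q_of_ge hA h']; ring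

/-- `Q A` is `A`-Lipschitz -/
lemma Q_lip {A : ℝ} (hA : 0 ≤ A) {x y : ℝ} (h : x ≤ y) : 0 ≤ Q A y - Q A x ∧ Q A y - Q A x ≤ A * (y - x) := by
  rcases le_total x 0 with h1 | h1 <;> rcases le_total y 0 with h2 | h2
  · rw [Q_of_nonpos hA h1, Q_of_nonpos hA h2]
    exact ⟨by linarith, by nlinarith only [hA, h]⟩
  · rcases le_total y A with h3 | h3
    · rw [Q_of_nonpos hA h1, Q_of_mem h2 h3]
      exact ⟨by nlinarith only, by nlinarith only [hA, h, h3, h1, h2]⟩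
    · rw [Q_of_nonpos hA h1, Q_of_ge hA h3]
      exact ⟨by nlinarith only [hA, h2, h3], by nlinarith only [hA, h1]⟩
  · have : x = 0 := le_antisymm (le_trans h h2) h1
    have hy : y = 0 := le_antisymm h2 (by linarith)
    subst this; subst hy; exact ⟨by linarith, by nlinarith⟩
  · rcases le_total x A with h3 | h3 <;> rcases le_total y A with h4 | h4
    · rw [Q_of_mem h1 h3, Q_of_mem h2 h4]
      exact ⟨by nlinarith only [h, h1], by nlinarith only [h, h3, h4]⟩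
    · rw [Q_of_mem h1 h3, Q_of_ge hA h4]
      exact ⟨by nlinarith only [hA, h, h4, h1, h3], by nlinarith only [sq_nonneg (A - x)]⟩
    · have hx : x = A := le_antisymm (le_trans h h4) h3
      have hy : y = A := le_antisymm h4 (le_trans h3 h)
      rw [hx, hy]; exact ⟨by linarith, by nlinarith only⟩
    · rw [Q_of_ge hA h3, Q_of_ge hA h4]
      exact ⟨by nlinarith only [hA, h], by nlinarith only⟩

/-- parameters of the three fan values -/
structure Par (a b s1 s2 s3 : ℝ) : Prop where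
  ha : 0 ≤ a
  hb : 0 ≤ b
  hab : a + b = 1
  hs : a * s1 + b * s3 = s2
  h1 : 0 ≤ s1
  h12 : s1 ≤ s2
  h23 : s2 ≤ s3
  h3 : s3 ≤ 1

/-- second difference -/
noncomputable def D (a b s1 s2 s3 x y : ℝ) (f : ℝ → ℝ) : ℝ :=
  a * f (x + s1 * y) + b * f (x + s3 * y) - f (x + s2 * y)

/-- its value on `x^2/2` is `kap * y^2` -/
noncomputable def kap (a b s1 s2 s3 : ℝ) : ℝ := (a * s1 ^ 2 + b * s3 ^ 2 - s2 ^ 2) / 2

section

variable {a b s1 s2 s3 : ℝ}

lemma D_support (h : Par a b s1 s2 s3) (x y : ℝ) (f : ℝ → ℝ)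
    (hf : ∃ l m : ℝ, (∀ z, l * z + m ≤ f z) ∧ l * (x + s2 * y) + m = f (x + s2 * y)) :
    0 ≤ D a b s1 s2 s3 x y f := by
  obtain ⟨l, m, h1, h2⟩ := hf
  unfold D
  have e1 := mul_le_mul_of_nonneg_left (h1 (x + s1 * y)) h.ha
  have e2 := mul_le_mul_of_nonneg_left (h1 (x + s3 * y)) h.hb
  have e3 : a * (l * (x + s1 * y) + m) + b * (l * (x + s3 * y) + m) = l * (x + s2 * y) + m := by
    have : a * (l * (x + s1 * y) + m) + b * (l * (x + s3 * y) + m)
        = (a + b) * (l * x + m) + l * y * (a * s1 + b * s3) := by ring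
    rw [this, h.hab, h.hs]; ring
  linarith only [h2, e1, e2, e3]

lemma D_Q_nonneg (h : Par a b s1 s2 s3) {A : ℝ} (hA : 0 ≤ A) (x y c : ℝ) :
    0 ≤ D a b s1 s2 s3 x y (fun z => Q A (z - c)) := by
  apply D_support h
  obtain ⟨l, m, h1, h2⟩ := Q_support hA (x + s2 * y - c)
  refine ⟨l, m - l * c, ?_, ?_⟩
  · intro z
    have := h1 (z - c)
    show l * z + (m - l * c) ≤ Q A (z - c)
    nlinarith only [this]
  · show l * (x + s2 * y) + (m - l * c) = Q A (x + s2 * y - c)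
    rw [← h2]; ring

lemma D_P_nonneg (h : Par a b s1 s2 s3) (x y c : ℝ) :
    0 ≤ D a b s1 s2 s3 x y (fun z => P (z - c)) := by
  apply D_support h
  obtain ⟨l, m, h1, h2⟩ := P_support (x + s2 * y - c)
  refine ⟨l, m - l * c, ?_, ?_⟩
  · intro z
    have := h1 (z - c)
    show l * z + (m - l * c) ≤ P (z - c)
    nlinarith only [this]
  · show l * (x + s2 * y) + (m - l * c) = P (x + s2 * y - c)
    rw [← h2]; ring

lemma D_Pneg_nonneg (h : Par a b s1 s2 s3) (x y c : ℝ) :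
    0 ≤ D a b s1 s2 s3 x y (fun z => P (c - z)) := by
  apply D_support h
  obtain ⟨l, m, h1, h2⟩ := P_support (c - (x + s2 * y))
  refine ⟨-l, m + l * c, ?_, ?_⟩
  · intro z
    have := h1 (c - z)
    show -l * z + (m + l * c) ≤ P (c - z)
    nlinarith only [this]
  · show -l * (x + s2 * y) + (m + l * c) = P (c - (x + s2 * y))
    rw [← h2]; ring

lemma D_sq (h : Par a b s1 s2 s3) (x y c : ℝ) :
    D a b s1 s2 s3 x y (fun z => (z - c) ^ 2 / 2) = kap a b s1 s2 s3 * y ^ 2 := by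
  unfold D kap
  have e : a * ((x + s1 * y - c) ^ 2 / 2) + b * ((x + s3 * y - c) ^ 2 / 2) - (x + s2 * y - c) ^ 2 / 2
      = ((a + b) - 1) * ((x - c) ^ 2 / 2) + (x - c) * y * ((a * s1 + b * s3) - s2)
        + (a * s1 ^ 2 + b * s3 ^ 2 - s2 ^ 2) / 2 * y ^ 2 := by ring
  rw [e, h.hab, h.hs]; ring

lemma D_Q_le (h : Par a b s1 s2 s3) {A : ℝ} (_hA : 0 ≤ A) (x y c : ℝ) :
    D a b s1 s2 s3 x y (fun z => Q A (z - c)) ≤ kap a b s1 s2 s3 * y ^ 2 := by
  have e : D a b s1 s2 s3 x y (fun z => (z - c) ^ 2 / 2)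
      = D a b s1 s2 s3 x y (fun z => Q A (z - c)) + D a b s1 s2 s3 x y (fun z => P (c - z))
        + D a b s1 s2 s3 x y (fun z => P (z - (c + A))) := by
    have hz : ∀ z : ℝ, (z - c) ^ 2 / 2 = Q A (z - c) + P (c - z) + P (z - (c + A)) := by
      intro z
      rw [sq_eq (z - c)]
      have e1 : -(z - c) = c - z := by ring
      have e2 : z - (c + A) = z - c - A := by ring
      rw [e1, e2]
      unfold Q; ring
    unfold D
    simp only [hz]
    ring
  have h1 := D_sq h x y c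
  have h2 := D_Pneg_nonneg h x y c
  have h3 := D_P_nonneg h x y (c + A)
  linarith only [e, h1, h2, h3]

lemma kap_nonneg (h : Par a b s1 s2 s3) : 0 ≤ kap a b s1 s2 s3 := by
  have h1 := D_Q_nonneg h (le_refl (0:ℝ)) 0 1 0
  have h2 := D_Q_le h (le_refl (0:ℝ)) 0 1 0
  linarith only [h1, h2]

/-- zero second difference where the function is affine -/
lemma D_Q_zero_left (h : Par a b s1 s2 s3) {A : ℝ} (hA : 0 ≤ A) (x y c : ℝ) (hy : |y| ≤ 1)
    (hc : x + s2 * y + 1 ≤ c) : D a b s1 s2 s3 x y (fun z => Q A (z - c)) = 0 := by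
  have hb := abs_le.1 hy
  have e1 : x + s1 * y - c ≤ 0 := by
    have : s1 * y - s2 * y ≤ 1 := by
      have h1 : (s2 - s1) * (-y) ≤ (s2 - s1) * 1 :=
        mul_le_mul_of_nonneg_left (by linarith only [hb]) (by linarith only [h, h.h12])
      have h2 := h.h23; have h3 := h.h3; have h4 := h.h1
      nlinarith only [h1, h2, h3, h4]
    linarith
  have e3 : x + s3 * y - c ≤ 0 := by
    have : s3 * y - s2 * y ≤ 1 := by
      have h1 : (s3 - s2) * y ≤ (s3 - s2) * 1 :=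
        mul_le_mul_of_nonneg_left (by linarith) (by linarith [h.h23])
      have h2 := h.h12; have h3 := h.h3; have h4 := h.h1
      nlinarith only [h1, h2, h3, h4]
    linarith only [hc, this]
  have e2 : x + s2 * y - c ≤ 0 := by linarith only [hc]
  unfold D
  simp only [Q_of_nonpos hA e1, Q_of_nonpos hA e2, Q_of_nonpos hA e3]
  ring

lemma pts_near (h : Par a b s1 s2 s3) (x y : ℝ) (hy : |y| ≤ 1) :
    x + s2 * y - 1 ≤ x + s1 * y ∧ x + s1 * y ≤ x + s2 * y + 1 ∧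
    x + s2 * y - 1 ≤ x + s3 * y ∧ x + s3 * y ≤ x + s2 * y + 1 := by
  have hb := abs_le.1 hy
  have h1 := h.h1; have h12 := h.h12; have h23 := h.h23; have h3 := h.h3
  have a1 : (s2 - s1) * y ≤ (s2 - s1) * 1 := mul_le_mul_of_nonneg_left hb.2 (by linarith)
  have a2 : (s2 - s1) * (-1) ≤ (s2 - s1) * y := mul_le_mul_of_nonneg_left hb.1 (by linarith only [h12])
  have a3 : (s3 - s2) * y ≤ (s3 - s2) * 1 := mul_le_mul_of_nonneg_left hb.2 (by linarith)
  have a4 : (s3 - s2) * (-1) ≤ (s3 - s2) * y := mul_le_mul_of_nonneg_left hb.1 (by linarith)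
  refine ⟨by nlinarith only [h1, h23, h3, a1], by nlinarith only [h1, h23, h3, a2], by nlinarith only [h1, h12, h3, a4], by nlinarith only [h1, h12, h3, a3]⟩

lemma D_Q_zero_right (h : Par a b s1 s2 s3) {A : ℝ} (hA : 0 ≤ A) (x y c : ℝ) (hy : |y| ≤ 1)
    (hc : c + A ≤ x + s2 * y - 1) : D a b s1 s2 s3 x y (fun z => Q A (z - c)) = 0 := by
  obtain ⟨p1, p2, p3, p4⟩ := pts_near h x y hy
  unfold D
  simp only
  rw [Q_of_ge hA (by linarith only [hc, p1] : A ≤ x + s1 * y - c), Q_of_ge hA (by linarith only [hc, p3] : A ≤ x + s3 * y - c),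
    Q_of_ge hA (by linarith only [hc] : A ≤ x + s2 * y - c)]
  have e : a * (A * (x + s1 * y - c) - A ^ 2 / 2) + b * (A * (x + s3 * y - c) - A ^ 2 / 2)
      - (A * (x + s2 * y - c) - A ^ 2 / 2)
      = ((a + b) - 1) * (A * (x - c) - A ^ 2 / 2) + A * y * ((a * s1 + b * s3) - s2) := by ring
  rw [e, h.hab, h.hs]; ring

/-- full value when the three points are inside the interval -/
lemma D_Q_full (h : Par a b s1 s2 s3) {A : ℝ} (x y c : ℝ) (hy : |y| ≤ 1)
    (h1 : c + 1 ≤ x + s2 * y) (h2 : x + s2 * y + 1 ≤ c + A) :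
    D a b s1 s2 s3 x y (fun z => Q A (z - c)) = kap a b s1 s2 s3 * y ^ 2 := by
  obtain ⟨p1, p2, p3, p4⟩ := pts_near h x y hy
  rw [← D_sq h x y c]
  unfold D
  simp only
  rw [Q_of_mem (by linarith only [h1, p1] : 0 ≤ x + s1 * y - c) (by linarith only [h2, p2]),
    Q_of_mem (by linarith only [h1, p3] : 0 ≤ x + s3 * y - c) (by linarith only [h2, p4]),
    Q_of_mem (by linarith only [h1] : 0 ≤ x + s2 * y - c) (by linarith only [h2])]

lemma D_add (x y : ℝ) (f g : ℝ → ℝ) :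
    D a b s1 s2 s3 x y (fun z => f z + g z) = D a b s1 s2 s3 x y f + D a b s1 s2 s3 x y g := by
  unfold D; ring

lemma D_sum {κ : Type*} (T : Finset κ) (x y : ℝ) (f : κ → ℝ → ℝ) :
    D a b s1 s2 s3 x y (fun z => ∑ k ∈ T, f k z) = ∑ k ∈ T, D a b s1 s2 s3 x y (f k) := by
  unfold D
  simp only [Finset.mul_sum, ← Finset.sum_add_distrib, ← Finset.sum_sub_distrib]

lemma D_smul (x y c : ℝ) (f : ℝ → ℝ) :
    D a b s1 s2 s3 x y (fun z => c * f z) = c * D a b s1 s2 s3 x y f := by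
  unfold D; ring

end

/-! ### the compactly supported test function of one integer -/

/-- test function of the integer `i`: second derivative one on `[i-3, i+4]`, compensated on `[i+1/2-L, i+1/2+L]` -/
noncomputable def T1 (L : ℝ) (i : ℝ) (x : ℝ) : ℝ :=
  Q 7 (x - (i - 3)) - 7 / (2 * L) * Q (2 * L) (x - (i + 1 / 2 - L))

lemma T1_left {L : ℝ} (hL : 4 ≤ L) {i x : ℝ} (h : x ≤ i + 1 / 2 - L) : T1 L i x = 0 := by
  unfold T1
  rw [Q_of_nonpos (by norm_num) (by linarith only [hL, h]), Q_of_nonpos (by linarith) (by linarith)]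
  ring

lemma T1_right {L : ℝ} (hL : 4 ≤ L) {i x : ℝ} (h : i + 1 / 2 + L ≤ x) : T1 L i x = 0 := by
  unfold T1
  have hL0 : L ≠ 0 := by linarith only [hL]
  rw [Q_of_ge (by norm_num : (0:ℝ) ≤ 7) (by linarith only [hL, h]), Q_of_ge (by linarith : (0:ℝ) ≤ 2 * L) (by linarith only [h])]
  field_simp
  ring

lemma T1_abs {L : ℝ} (hL : 4 ≤ L) (i x : ℝ) : |T1 L i x| ≤ 14 * L := by
  rcases le_total x (i + 1 / 2 + L) with h | h
  · have a1 : Q 7 (x - (i - 3)) ≤ 7 * (2 * L) := Q_le (by norm_num) (by linarith only [hL]) (by linarith only [hL, h])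
    have a2 : Q (2 * L) (x - (i + 1 / 2 - L)) ≤ 2 * L * (2 * L) := Q_le (by linarith only [hL]) (by linarith only [hL]) (by linarith only [h])
    have a3 := Q_nonneg (by norm_num : (0:ℝ) ≤ 7) (x - (i - 3))
    have a4 := Q_nonneg (by linarith only [hL] : (0:ℝ) ≤ 2 * L) (x - (i + 1 / 2 - L))
    have hc : 0 ≤ 7 / (2 * L) := by positivity
    have a5 : 7 / (2 * L) * Q (2 * L) (x - (i + 1 / 2 - L)) ≤ 7 / (2 * L) * (2 * L * (2 * L)) :=
      mul_le_mul_of_nonneg_left a2 hc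
    have a6 : 7 / (2 * L) * (2 * L * (2 * L)) = 14 * L := by
      have : L ≠ 0 := by linarith only [hL]
      field_simp
      norm_num
    have a7 : 0 ≤ 7 / (2 * L) * Q (2 * L) (x - (i + 1 / 2 - L)) := mul_nonneg hc a4
    unfold T1
    rw [abs_le]
    constructor <;> linarith
  · rw [T1_right hL h, abs_zero]; linarith only [hL]

lemma T1_lip {L : ℝ} (hL : 4 ≤ L) (i : ℝ) {x x' : ℝ} (h : x ≤ x') :
    |T1 L i x' - T1 L i x| ≤ 7 * (x' - x) := by
  have hL0 : L ≠ 0 := by linarith only [hL]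
  obtain ⟨a1, a2⟩ := Q_lip (by norm_num : (0:ℝ) ≤ 7) (by linarith only [h] : x - (i - 3) ≤ x' - (i - 3))
  obtain ⟨b1, b2⟩ := Q_lip (by linarith only [hL] : (0:ℝ) ≤ 2 * L)
    (by linarith only [h] : x - (i + 1 / 2 - L) ≤ x' - (i + 1 / 2 - L))
  have hc : 0 ≤ 7 / (2 * L) := by positivity
  have c1 := mul_le_mul_of_nonneg_left b2 hc
  have c2 := mul_nonneg hc b1
  have c3 : 7 / (2 * L) * (2 * L * (x' - (i + 1 / 2 - L) - (x - (i + 1 / 2 - L)))) = 7 * (x' - x) := by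
    field_simp
    ring
  unfold T1
  rw [abs_le]
  constructor <;> nlinarith

section

variable {a b s1 s2 s3 : ℝ}

lemma D_sub (x y : ℝ) (f g : ℝ → ℝ) :
    D a b s1 s2 s3 x y (fun z => f z - g z) = D a b s1 s2 s3 x y f - D a b s1 s2 s3 x y g := by
  unfold D; ring

/-- lower bound of the second difference of `T1`, always -/
lemma D_T1_ge (h : Par a b s1 s2 s3) {L : ℝ} (hL : 4 ≤ L) (x y i : ℝ) :
    -(7 / (2 * L) * (kap a b s1 s2 s3 * y ^ 2)) ≤ D a b s1 s2 s3 x y (T1 L i) := by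
  have e : D a b s1 s2 s3 x y (T1 L i) = D a b s1 s2 s3 x y (fun z => Q 7 (z - (i - 3)))
      - 7 / (2 * L) * D a b s1 s2 s3 x y (fun z => Q (2 * L) (z - (i + 1 / 2 - L))) := by
    rw [← D_smul, ← D_sub]; rfl
  have h1 := D_Q_nonneg h (by norm_num : (0:ℝ) ≤ 7) x y (i - 3)
  have h2 := D_Q_le h (by linarith only [hL] : (0:ℝ) ≤ 2 * L) x y (i + 1 / 2 - L)
  have hc : 0 ≤ 7 / (2 * L) := by positivity
  have h3 := mul_le_mul_of_nonneg_left h2 hc
  rw [e]; linarith only [h1, h3]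

/-- it is nonnegative far away -/
lemma D_T1_far (h : Par a b s1 s2 s3) {L : ℝ} (hL : 4 ≤ L) (x y i : ℝ) (hy : |y| ≤ 1)
    (hf : x + s2 * y + 1 ≤ i + 1 / 2 - L ∨ i + 1 / 2 + L ≤ x + s2 * y - 1) :
    0 ≤ D a b s1 s2 s3 x y (T1 L i) := by
  have e : D a b s1 s2 s3 x y (T1 L i) = D a b s1 s2 s3 x y (fun z => Q 7 (z - (i - 3)))
      - 7 / (2 * L) * D a b s1 s2 s3 x y (fun z => Q (2 * L) (z - (i + 1 / 2 - L))) := by
    rw [← D_smul, ← D_sub]; rfl
  have h1 := D_Q_nonneg h (by norm_num : (0:ℝ) ≤ 7) x y (i - 3)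
  have h2 : D a b s1 s2 s3 x y (fun z => Q (2 * L) (z - (i + 1 / 2 - L))) = 0 := by
    rcases hf with hf | hf
    · exact D_Q_zero_left h (by linarith only [hL]) x y _ hy hf
    · exact D_Q_zero_right h (by linarith only [hL]) x y _ hy (by linarith only [hf])
  rw [e, h2]; linarith only [h1]

/-- it is large at its own integer -/
lemma D_T1_own (h : Par a b s1 s2 s3) {L : ℝ} (hL : 4 ≤ L) (x y i : ℝ) (hy : |y| ≤ 1)
    (h1 : i - 2 ≤ x + s2 * y) (h2 : x + s2 * y ≤ i + 3) :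
    kap a b s1 s2 s3 * y ^ 2 - 7 / (2 * L) * (kap a b s1 s2 s3 * y ^ 2) ≤ D a b s1 s2 s3 x y (T1 L i) := by
  have e : D a b s1 s2 s3 x y (T1 L i) = D a b s1 s2 s3 x y (fun z => Q 7 (z - (i - 3)))
      - 7 / (2 * L) * D a b s1 s2 s3 x y (fun z => Q (2 * L) (z - (i + 1 / 2 - L))) := by
    rw [← D_smul, ← D_sub]; rfl
  have h3 := D_Q_full h (A := 7) x y (i - 3) hy (by linarith only [h1]) (by linarith only [h2])
  have h4 := D_Q_le h (by linarith only [hL] : (0:ℝ) ≤ 2 * L) x y (i + 1 / 2 - L)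
  have hc : 0 ≤ 7 / (2 * L) := by positivity
  have h5 := mul_le_mul_of_nonneg_left h4 hc
  rw [e, h3]; linarith only [h5]

end

/-! ### cells -/

/-- an integer near `z` lies in one of the five cells around the cell of `z` -/
lemma cell_near {L : ℤ} (hL : 1 ≤ L) (z : ℝ) (i : ℤ) (h1 : (i : ℝ) + 1 / 2 - L < z + 1)
    (h2 : z - 1 < i + 1 / 2 + L) : i / L ∈ Icc (⌊z⌋ / L - 2) (⌊z⌋ / L + 2) := by
  have f1 := Int.floor_le z
  have f2 := Int.lt_floor_add_one z
  have g1 : i ≤ ⌊z⌋ + 1 + L := by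
    have : (i : ℝ) < ((⌊z⌋ + 1 + L + 1 : ℤ) : ℝ) := by push_cast; linarith only [h1, f2]
    have := Int.cast_lt.1 this
    omega
  have g2 : ⌊z⌋ - 1 - L ≤ i := by
    have : ((⌊z⌋ - 1 - L - 1 : ℤ) : ℝ) < (i : ℝ) := by push_cast; linarith only [h2, f1]
    have := Int.cast_lt.1 this
    omega
  rw [Finset.mem_Icc]
  have hL0 : (L : ℤ) ≠ 0 := by omega
  constructor
  · have : (⌊z⌋ + (-2) * L) / L ≤ i / L := Int.ediv_le_ediv (by omega) (by nlinarith only [hL, g2])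
    rw [Int.add_mul_ediv_right _ _ hL0] at this
    omega
  · have : i / L ≤ (⌊z⌋ + 2 * L) / L := Int.ediv_le_ediv (by omega) (by nlinarith only [hL, g1])
    rw [Int.add_mul_ediv_right _ _ hL0] at this
    omega

/-- the weight near `z` is at most five times the weight of a cell -/
lemma near_weight {L : ℤ} (S : Finset ℤ) (w : ℤ → ℝ) (hw : ∀ i, 0 ≤ w i) (M : ℝ)
    (hM : ∀ c : ℤ, ∑ i ∈ S with i / L = c, w i ≤ M) (j : ℤ) (Nr : Finset ℤ) (hNr : Nr ⊆ S)
    (hj : ∀ i ∈ Nr, i / L ∈ Icc (j - 2) (j + 2)) : ∑ i ∈ Nr, w i ≤ 5 * M := by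
  classical
  have h1 : ∑ i ∈ Nr, w i = ∑ c ∈ Icc (j - 2) (j + 2), ∑ i ∈ Nr with i / L = c, w i :=
    (Finset.sum_fiberwise_of_maps_to (g := fun i => i / L) hj w).symm
  have h2 : ∀ c ∈ Icc (j - 2) (j + 2), ∑ i ∈ Nr with i / L = c, w i ≤ M := by
    intro c _
    refine le_trans ?_ (hM c)
    exact Finset.sum_le_sum_of_subset_of_nonneg (Finset.filter_subset_filter _ hNr) (fun i _ _ => hw i)
  rw [h1]
  refine le_trans (Finset.sum_le_sum h2) ?_
  rw [Finset.sum_const, Int.card_Icc]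
  have : (j + 2 + 1 - (j - 2)).toNat = 5 := by
    have : j + 2 + 1 - (j - 2) = 5 := by ring
    rw [this]; rfl
  rw [this]; simp

/-! ### the test function -/

/-- the test function of the weight `w` -/
noncomputable def Phi (L : ℤ) (S : Finset ℤ) (w : ℤ → ℝ) (x : ℝ) : ℝ :=
  ∑ i ∈ S, w i * T1 (L : ℝ) (i : ℝ) x

/-- sum over the integers near `z` -/
lemma sum_near {L : ℤ} (hL : 4 ≤ L) (S : Finset ℤ) (w : ℤ → ℝ) (hw : ∀ i, 0 ≤ w i) (M : ℝ)
    (hM : ∀ c : ℤ, ∑ i ∈ S with i / L = c, w i ≤ M) (z : ℝ) (g : ℤ → ℝ) (B : ℝ) (hB : 0 ≤ B)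
    (hg : ∀ i, g i ≤ B)
    (hfar : ∀ i : ℤ, z + 1 ≤ (i : ℝ) + 1 / 2 - L ∨ (i : ℝ) + 1 / 2 + L ≤ z - 1 → g i ≤ 0) :
    ∑ i ∈ S, w i * g i ≤ 5 * M * B := by
  classical
  set Nr := S.filter (fun i : ℤ => (i : ℝ) + 1 / 2 - L < z + 1 ∧ z - 1 < (i : ℝ) + 1 / 2 + L) with hNr
  have h1 : ∑ i ∈ S, w i * g i ≤ ∑ i ∈ Nr, w i * B := by
    rw [← Finset.sum_filter_add_sum_filter_not S
      (fun i : ℤ => (i : ℝ) + 1 / 2 - L < z + 1 ∧ z - 1 < (i : ℝ) + 1 / 2 + L)]
    have e1 : ∑ i ∈ Nr, w i * g i ≤ ∑ i ∈ Nr, w i * B :=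
      Finset.sum_le_sum (fun i _ => mul_le_mul_of_nonneg_left (hg i) (hw i))
    have e2 : ∑ i ∈ S.filter (fun i : ℤ => ¬ ((i : ℝ) + 1 / 2 - L < z + 1 ∧ z - 1 < (i : ℝ) + 1 / 2 + L)),
        w i * g i ≤ 0 := by
      apply Finset.sum_nonpos
      intro i hi
      rw [Finset.mem_filter] at hi
      have : g i ≤ 0 := by
        apply hfar
        by_contra hcon
        push Not at hcon
        exact hi.2 ⟨hcon.1, hcon.2⟩
      exact mul_nonpos_of_nonneg_of_nonpos (hw i) this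
    linarith only [e1, e2]
  have h2 : ∑ i ∈ Nr, w i ≤ 5 * M := by
    refine near_weight S w hw M hM (⌊z⌋ / L) Nr (Finset.filter_subset _ _) ?_
    intro i hi
    rw [hNr, Finset.mem_filter] at hi
    exact cell_near (by omega) z i hi.2.1 hi.2.2
  rw [← Finset.sum_mul] at h1
  exact le_trans h1 (mul_le_mul_of_nonneg_right h2 hB)

lemma Phi_abs {L : ℤ} (hL : 4 ≤ L) (S : Finset ℤ) (w : ℤ → ℝ) (hw : ∀ i, 0 ≤ w i) (M : ℝ)
    (hM : ∀ c : ℤ, ∑ i ∈ S with i / L = c, w i ≤ M) (x : ℝ) : |Phi L S w x| ≤ 70 * M * L := by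
  have hLr : (4 : ℝ) ≤ (L : ℝ) := by exact_mod_cast hL
  have h1 : |Phi L S w x| ≤ ∑ i ∈ S, w i * |T1 (L : ℝ) (i : ℝ) x| := by
    unfold Phi
    refine le_trans (Finset.abs_sum_le_sum_abs _ _) (Finset.sum_le_sum (fun i _ => ?_))
    rw [abs_mul, abs_of_nonneg (hw i)]
  have h2 := sum_near hL S w hw M hM x (fun i : ℤ => |T1 (L : ℝ) (i : ℝ) x|) (14 * L) (by linarith only [hLr])
    (fun i => T1_abs hLr _ _) (by
      intro i hi
      rcases hi with hi | hi
      · simp only [T1_left hLr (by linarith only [hi] : x ≤ (i : ℝ) + 1 / 2 - L), abs_zero, le_refl]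
      · simp only [T1_right hLr (by linarith only [hi] : (i : ℝ) + 1 / 2 + L ≤ x), abs_zero, le_refl])
  linarith only [h1, h2]

lemma Phi_lip_aux {L : ℤ} (hL : 4 ≤ L) (S : Finset ℤ) (w : ℤ → ℝ) (hw : ∀ i, 0 ≤ w i) (M : ℝ)
    (hM : ∀ c : ℤ, ∑ i ∈ S with i / L = c, w i ≤ M) (x x' : ℝ) (h : x ≤ x') (h' : x' - x ≤ 1) :
    |Phi L S w x' - Phi L S w x| ≤ 35 * M * (x' - x) := by
  have hLr : (4 : ℝ) ≤ (L : ℝ) := by exact_mod_cast hL
  have h1 : |Phi L S w x' - Phi L S w x|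
      ≤ ∑ i ∈ S, w i * |T1 (L : ℝ) (i : ℝ) x' - T1 (L : ℝ) (i : ℝ) x| := by
    unfold Phi
    rw [← Finset.sum_sub_distrib]
    refine le_trans (Finset.abs_sum_le_sum_abs _ _) (Finset.sum_le_sum (fun i _ => ?_))
    rw [← mul_sub, abs_mul, abs_of_nonneg (hw i)]
  have h2 := sum_near hL S w hw M hM x (fun i : ℤ => |T1 (L : ℝ) (i : ℝ) x' - T1 (L : ℝ) (i : ℝ) x|)
    (7 * (x' - x)) (by linarith only [h])
    (fun i => T1_lip hLr _ h) (by
      intro i hi
      rcases hi with hi | hi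
      · simp only [T1_left hLr (by linarith only [hi] : x ≤ (i : ℝ) + 1 / 2 - L),
          T1_left hLr (by linarith only [h', hi] : x' ≤ (i : ℝ) + 1 / 2 - L), sub_zero, abs_zero, le_refl]
      · simp only [T1_right hLr (by linarith only [hi] : (i : ℝ) + 1 / 2 + L ≤ x),
          T1_right hLr (by linarith only [h, hi] : (i : ℝ) + 1 / 2 + L ≤ x'), sub_zero, abs_zero, le_refl])
  linarith only [h1, h2]

lemma Phi_lip {L : ℤ} (hL : 4 ≤ L) (S : Finset ℤ) (w : ℤ → ℝ) (hw : ∀ i, 0 ≤ w i) (M : ℝ)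
    (hM : ∀ c : ℤ, ∑ i ∈ S with i / L = c, w i ≤ M) (x x' : ℝ) (h' : |x - x'| ≤ 1) :
    |Phi L S w x - Phi L S w x'| ≤ 35 * M * |x - x'| := by
  rcases le_total x x' with h | h
  · rw [abs_sub_comm x x'] at h' ⊢
    rw [abs_sub_comm (Phi L S w x)]
    rw [abs_of_nonneg (by linarith only [h] : 0 ≤ x' - x)] at h' ⊢
    exact Phi_lip_aux hL S w hw M hM x x' h h'
  · rw [abs_of_nonneg (by linarith : 0 ≤ x - x')] at h' ⊢
    exact Phi_lip_aux hL S w hw M hM x' x h h'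

section

variable {a b s1 s2 s3 : ℝ}

/-- lower bound of the second difference of the test function -/
lemma D_Phi_ge (h : Par a b s1 s2 s3) {L : ℤ} (hL : 4 ≤ L) (S : Finset ℤ) (w : ℤ → ℝ)
    (hw : ∀ i, 0 ≤ w i) (M : ℝ) (hM : ∀ c : ℤ, ∑ i ∈ S with i / L = c, w i ≤ M) (x y : ℝ)
    (hy : |y| ≤ 1) (n : ℤ) (hn : n ∈ S ∨ w n = 0) (h1 : (n : ℝ) - 2 ≤ x + s2 * y)
    (h2 : x + s2 * y ≤ (n : ℝ) + 3) :
    kap a b s1 s2 s3 * y ^ 2 * w n - 35 * M / (2 * L) * (kap a b s1 s2 s3 * y ^ 2)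
      ≤ D a b s1 s2 s3 x y (Phi L S w) := by
  classical
  have hLr : (4 : ℝ) ≤ (L : ℝ) := by exact_mod_cast hL
  have hk := kap_nonneg h
  set k := kap a b s1 s2 s3 * y ^ 2 with hkdef
  have hk0 : 0 ≤ k := by positivity
  have e : D a b s1 s2 s3 x y (Phi L S w)
      = ∑ i ∈ S, w i * D a b s1 s2 s3 x y (T1 (L : ℝ) (i : ℝ)) := by
    have : Phi L S w = fun z => ∑ i ∈ S, w i * T1 (L : ℝ) (i : ℝ) z := by funext z; rfl
    rw [this, D_sum]
    exact Finset.sum_congr rfl (fun i _ => D_smul x y (w i) (T1 (L : ℝ) (i : ℝ)))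
  -- the defect `g i`
  have h3 := sum_near hL S w hw M hM (x + s2 * y)
    (fun i : ℤ => (if i = n then k else 0) - D a b s1 s2 s3 x y (T1 (L : ℝ) (i : ℝ)))
    (7 / (2 * L) * k) (by positivity) (by
      intro i
      by_cases hi : i = n
      · subst hi
        have := D_T1_own h hLr x y (i : ℝ) hy h1 h2
        simp only [if_true]
        linarith only [this]
      · have := D_T1_ge h hLr x y (i : ℝ)
        simp only [if_neg hi]
        linarith only [this]) (by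
      intro i hi
      have hin : i ≠ n := by
        intro hc
        subst hc
        rcases hi with hi | hi <;> linarith
      have := D_T1_far h hLr x y (i : ℝ) hy hi
      simp only [if_neg hin]
      linarith only [this])
  simp only [mul_sub, Finset.sum_sub_distrib] at h3
  have h4 : ∑ i ∈ S, w i * (if i = n then k else 0) = k * w n := by
    simp only [mul_ite, mul_zero]
    rw [Finset.sum_ite_eq']
    rcases hn with hn | hn
    · rw [if_pos hn]; ring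
    · split_ifs
      · ring
      · rw [hn]; ring
  rw [h4] at h3
  rw [e]
  have h5 : 5 * M * (7 / (2 * (L : ℝ)) * k) = 35 * M / (2 * L) * k := by ring
  linarith only [h3, h5]

/-- LEMMA Y, weight form: the second moment of `y` weighted by `w (n)`, for any integer `n` near the three points -/
theorem lemY {Ω : Type*} [Fintype Ω] (h : Par a b s1 s2 s3) {L : ℤ} (hL : 4 ≤ L) (S : Finset ℤ)
    (w : ℤ → ℝ) (hw : ∀ i, 0 ≤ w i) (M : ℝ) (hM : ∀ c : ℤ, ∑ i ∈ S with i / L = c, w i ≤ M)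
    (p : Ω → ℝ) (hp : ∀ ω, 0 ≤ p ω) (x y : Ω → ℝ) (n : Ω → ℤ) (ok : Ω → Prop) [DecidablePred ok]
    (hy : ∀ ω, ok ω → |y ω| ≤ 1) (hn : ∀ ω, ok ω → n ω ∈ S ∨ w (n ω) = 0)
    (hn' : ∀ ω, ok ω → (n ω : ℝ) - 2 ≤ x ω + s2 * y ω ∧ x ω + s2 * y ω ≤ (n ω : ℝ) + 3)
    (e1 e2 : ℝ)
    (hTV : ∀ (f : ℝ → ℝ) (B Λ : ℝ), (∀ z, |f z| ≤ B) →
      (∀ z z', |z - z'| ≤ 1 → |f z - f z'| ≤ Λ * |z - z'|) →
      |∑ ω, p ω * (f (x ω + s1 * y ω) - f (x ω + s2 * y ω))| ≤ e1 * B + e2 * Λ ∧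
      |∑ ω, p ω * (f (x ω + s3 * y ω) - f (x ω + s2 * y ω))| ≤ e1 * B + e2 * Λ) :
    kap a b s1 s2 s3 * ∑ ω with ok ω, p ω * (y ω ^ 2 * w (n ω))
      ≤ 35 * M / (2 * L) * (kap a b s1 s2 s3 * ∑ ω with ok ω, p ω * y ω ^ 2)
        + (70 * M * L * (e1 + 2 * ∑ ω with ¬ ok ω, p ω) + 35 * M * e2) := by
  classical
  set F := Phi L S w with hF
  have hB := Phi_abs hL S w hw M hM
  obtain ⟨t1, t3⟩ := hTV F (70 * M * L) (35 * M) hB (Phi_lip hL S w hw M hM)
  have u1 := le_trans (le_abs_self _) t1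
  have u3 := le_trans (le_abs_self _) t3
  have e : ∑ ω, p ω * D a b s1 s2 s3 (x ω) (y ω) F
      = a * ∑ ω, p ω * (F (x ω + s1 * y ω) - F (x ω + s2 * y ω))
        + b * ∑ ω, p ω * (F (x ω + s3 * y ω) - F (x ω + s2 * y ω)) := by
    rw [Finset.mul_sum, Finset.mul_sum, ← Finset.sum_add_distrib]
    refine Finset.sum_congr rfl (fun ω _ => ?_)
    unfold D
    have : F (x ω + s2 * y ω) = (a + b) * F (x ω + s2 * y ω) := by rw [h.hab, one_mul]
    calc p ω * (a * F (x ω + s1 * y ω) + b * F (x ω + s3 * y ω) - F (x ω + s2 * y ω))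
        = p ω * (a * F (x ω + s1 * y ω) + b * F (x ω + s3 * y ω) - (a + b) * F (x ω + s2 * y ω)) := by
          rw [← this]
      _ = _ := by ring
  have tot : ∑ ω, p ω * D a b s1 s2 s3 (x ω) (y ω) F ≤ e1 * (70 * M * L) + e2 * (35 * M) := by
    rw [e]
    have v1 := mul_le_mul_of_nonneg_left u1 h.ha
    have v3 := mul_le_mul_of_nonneg_left u3 h.hb
    have : a * (e1 * (70 * M * L) + e2 * (35 * M)) + b * (e1 * (70 * M * L) + e2 * (35 * M))
        = e1 * (70 * M * L) + e2 * (35 * M) := by rw [← add_mul, h.hab, one_mul]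
    linarith only [v1, v3, this]
  have hD : ∀ ω, |D a b s1 s2 s3 (x ω) (y ω) F| ≤ 2 * (70 * M * L) := by
    intro ω
    have b1 := abs_le.1 (hB (x ω + s1 * y ω))
    have b2 := abs_le.1 (hB (x ω + s2 * y ω))
    have b3 := abs_le.1 (hB (x ω + s3 * y ω))
    have c1 := mul_le_mul_of_nonneg_left b1.2 h.ha
    have c2 := mul_le_mul_of_nonneg_left b1.1 h.ha
    have c3 := mul_le_mul_of_nonneg_left b3.2 h.hb
    have c4 := mul_le_mul_of_nonneg_left b3.1 h.hb
    have c5 : a * (70 * M * L) + b * (70 * M * L) = 70 * M * L := by rw [← add_mul, h.hab, one_mul]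
    have c6 : a * (-(70 * M * L)) + b * (-(70 * M * L)) = -(70 * M * L) := by rw [← add_mul, h.hab, one_mul]
    unfold D
    rw [abs_le]
    constructor <;> linarith [b2.1, b2.2]
  exact by
   have spl : ∑ ω, p ω * D a b s1 s2 s3 (x ω) (y ω) F
       = ∑ ω with ok ω, p ω * D a b s1 s2 s3 (x ω) (y ω) F
         + ∑ ω with ¬ ok ω, p ω * D a b s1 s2 s3 (x ω) (y ω) F :=
     (Finset.sum_filter_add_sum_filter_not _ _ _).symm
   have bad : -(∑ ω with ¬ ok ω, p ω) * (2 * (70 * M * L))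
       ≤ ∑ ω with ¬ ok ω, p ω * D a b s1 s2 s3 (x ω) (y ω) F := by
     rw [← Finset.sum_neg_distrib, Finset.sum_mul]
     refine Finset.sum_le_sum (fun ω _ => ?_)
     have := (abs_le.1 (hD ω)).1
     have := mul_le_mul_of_nonneg_left this (hp ω)
     linarith only [this]
   have good : kap a b s1 s2 s3 * ∑ ω with ok ω, p ω * (y ω ^ 2 * w (n ω))
       - 35 * M / (2 * L) * (kap a b s1 s2 s3 * ∑ ω with ok ω, p ω * y ω ^ 2)
       ≤ ∑ ω with ok ω, p ω * D a b s1 s2 s3 (x ω) (y ω) F := by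
     rw [Finset.mul_sum, Finset.mul_sum, Finset.mul_sum, ← Finset.sum_sub_distrib]
     refine Finset.sum_le_sum (fun ω hω => ?_)
     rw [Finset.mem_filter] at hω
     have g := D_Phi_ge h hL S w hw M hM (x ω) (y ω) (hy ω hω.2) (n ω) (hn ω hω.2) (hn' ω hω.2).1
       (hn' ω hω.2).2
     have := mul_le_mul_of_nonneg_left g (hp ω)
     calc kap a b s1 s2 s3 * (p ω * (y ω ^ 2 * w (n ω)))
           - 35 * M / (2 * L) * (kap a b s1 s2 s3 * (p ω * y ω ^ 2))
         = p ω * (kap a b s1 s2 s3 * y ω ^ 2 * w (n ω)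
           - 35 * M / (2 * L) * (kap a b s1 s2 s3 * y ω ^ 2)) := by ring
       _ ≤ _ := this
   linarith only [tot, spl, bad, good]

end

end Pool.S6Y
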