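import Pool.Agent.H49.Ent
import Pool.Agent.H8.KS6.LemY

set_option autoImplicit false

/-!
# The crossing population has full rows before the crossing (row YENT of board ks6)

Entropy form of LEMMA Y.  `p` a law on a finite space, `n` a real random variable with
`|n - (x + sigma y)| ≤ 1`, `F` a context.  If for most values of `F` the laws of `x + s_j y` agree for three
values `s_1 < s_2 < s_3` (in mean, against bounded Lipschitz functions), then the digits of `n` inside a cell of length `L`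
have entropy at least `P(G) log (P(G) eta^2 L / A)` on the event `G = (eta ≤ |y| ≤ 1)`.
-/

namespace Pool.S6Y

open Finset Pool.Agent.H49.Ent

variable {Ω : Type*} [Fintype Ω] {S T U : Type*}

/-- conditional entropy as a mean of `-log` of the conditional probabilities -/
lemma CH_eq_mean (p : Ω → ℝ) (X : Ω → S) (Z : Ω → T) (hp : ∀ ω, 0 ≤ p ω) :
    CH p X Z = ∑ ω, p ω * -Real.log (law p (fun ω => (X ω, Z ω)) (X ω, Z ω) / law p Z (Z ω)) := by
  unfold CH H
  rw [neg_sub_neg, ← Finset.sum_sub_distrib]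
  refine Finset.sum_congr rfl (fun ω _ => ?_)
  rcases eq_or_lt_of_le (hp ω) with h0 | h0
  · rw [← h0]; ring
  · have hl := law_pos hp Z h0
    have hl2 := law_pos hp (fun ω => (X ω, Z ω)) h0
    rw [Real.log_div hl2.ne' hl.ne']
    ring

/-- lower bound of a conditional entropy by an event on which the mean conditional probability is small -/
lemma CH_ge_event (p : Ω → ℝ) (hp : ∀ ω, 0 ≤ p ω) (X : Ω → S) (Z : Ω → T) (G : Finset Ω) (E : ℝ) (hE : 0 < E)
    (hG : ∑ ω ∈ G, p ω * (law p (fun ω => (X ω, Z ω)) (X ω, Z ω) / law p Z (Z ω)) ≤ E) :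
    (∑ ω ∈ G, p ω) * Real.log ((∑ ω ∈ G, p ω) / E) ≤ CH p X Z := by
  classical
  set g := ∑ ω ∈ G, p ω with hg
  have hg0 : 0 ≤ g := Finset.sum_nonneg (fun ω _ => hp ω)
  rw [CH_eq_mean p X Z hp]
  set r : Ω → ℝ := fun ω => law p (fun ω => (X ω, Z ω)) (X ω, Z ω) / law p Z (Z ω) with hr
  have hr1 : ∀ ω, 0 < p ω → 0 < r ω ∧ r ω ≤ 1 := by
    intro ω h0
    have hl := law_pos hp Z h0
    have hl2 := law_pos hp (fun ω => (X ω, Z ω)) h0
    refine ⟨div_pos hl2 hl, ?_⟩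
    rw [div_le_one hl]
    exact law_mono_of_det (X := fun ω => (X ω, Z ω)) (Y := Z) hp
      (fun ω ω' _ _ h => (Prod.ext_iff.1 h).2) h0
  have h1 : ∑ ω ∈ G, p ω * -Real.log (r ω) ≤ ∑ ω, p ω * -Real.log (r ω) := by
    refine Finset.sum_le_sum_of_subset_of_nonneg (Finset.subset_univ _) (fun ω _ _ => ?_)
    rcases eq_or_lt_of_le (hp ω) with h0 | h0
    · rw [← h0]; simp
    · obtain ⟨a1, a2⟩ := hr1 ω h0
      exact mul_nonneg h0.le (neg_nonneg.2 (Real.log_nonpos a1.le a2))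
  refine le_trans ?_ h1
  rcases eq_or_lt_of_le hg0 with h0 | h0
  · rw [← h0]
    simp only [zero_mul]
    refine Finset.sum_nonneg (fun ω _ => ?_)
    rcases eq_or_lt_of_le (hp ω) with h0 | h0
    · rw [← h0]; simp
    · obtain ⟨a1, a2⟩ := hr1 ω h0
      exact mul_nonneg h0.le (neg_nonneg.2 (Real.log_nonpos a1.le a2))
  · have hs : 0 < g / E := div_pos h0 hE
    have h2 : ∀ ω ∈ G, p ω * (Real.log (g / E) + 1 - g / E * r ω) ≤ p ω * -Real.log (r ω) := by
      intro ω _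
      rcases eq_or_lt_of_le (hp ω) with h0 | h0
      · rw [← h0]; simp
      · obtain ⟨a1, a2⟩ := hr1 ω h0
        refine mul_le_mul_of_nonneg_left ?_ h0.le
        have := Real.log_le_sub_one_of_pos (mul_pos hs a1)
        rw [Real.log_mul hs.ne' a1.ne'] at this
        linarith only [this]
    refine le_trans ?_ (Finset.sum_le_sum h2)
    have h3 : ∑ ω ∈ G, p ω * (Real.log (g / E) + 1 - g / E * r ω)
        = g * (Real.log (g / E) + 1) - g / E * ∑ ω ∈ G, p ω * r ω := by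
      rw [hg, Finset.sum_mul, Finset.mul_sum, ← Finset.sum_sub_distrib]
      exact Finset.sum_congr rfl (fun ω _ => by ring)
    rw [h3]
    have h4 : g / E * ∑ ω ∈ G, p ω * r ω ≤ g / E * E := mul_le_mul_of_nonneg_left hG hs.le
    have h5 : g / E * E = g := div_mul_cancel₀ g hE.ne'
    rw [h5] at h4
    nlinarith only [h4]

/-- the weights of one context value: conditional probability of the integer in its cell -/
noncomputable def wt (p : Ω → ℝ) (N : Ω → ℤ) (F : Ω → U) (L : ℤ) (f : U) (i : ℤ) : ℝ :=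
  law p (fun ω => (N ω, (N ω / L, F ω))) (i, (i / L, f)) / law p (fun ω => (N ω / L, F ω)) (i / L, f)

lemma wt_nonneg (p : Ω → ℝ) (hp : ∀ ω, 0 ≤ p ω) (N : Ω → ℤ) (F : Ω → U) (L : ℤ) (f : U) (i : ℤ) :
    0 ≤ wt p N F L f i := div_nonneg (law_nonneg hp _ _) (law_nonneg hp _ _)

lemma wt_cell (p : Ω → ℝ) (hp : ∀ ω, 0 ≤ p ω) (N : Ω → ℤ) (F : Ω → U) (L : ℤ) (f : U) (S : Finset ℤ)
    (c : ℤ) : ∑ i ∈ S with i / L = c, wt p N F L f i ≤ 1 := by
  classical
  have e : ∀ i ∈ S.filter (fun i => i / L = c), wt p N F L f i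
      = law p (fun ω => (N ω, (N ω / L, F ω))) (i, (c, f)) / law p (fun ω => (N ω / L, F ω)) (c, f) := by
    intro i hi
    rw [Finset.mem_filter] at hi
    unfold wt
    rw [hi.2]
  rw [Finset.sum_congr rfl e, ← Finset.sum_div]
  have hl := law_nonneg hp (fun ω => (N ω / L, F ω)) (c, f)
  apply div_le_one_of_le₀ _ hl
  unfold law
  rw [Finset.sum_comm]
  refine Finset.sum_le_sum (fun ω _ => ?_)
  by_cases h : (N ω / L, F ω) = (c, f)
  · rw [if_pos h]
    have : ∀ i ∈ S.filter (fun i => i / L = c),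
        (@ite ℝ ((fun ω => (N ω, (N ω / L, F ω))) ω = (i, (c, f))) (Classical.propDecidable _) (p ω) 0)
          = if N ω = i then p ω else 0 := by
      intro i _
      by_cases h' : N ω = i
      · rw [if_pos h', if_pos (by show (N ω, (N ω / L, F ω)) = (i, (c, f)); rw [h, h'])]
      · rw [if_neg h', if_neg (fun hc => h' (Prod.ext_iff.1 hc).1)]
    rw [Finset.sum_congr rfl this, Finset.sum_ite_eq]
    split_ifs
    · exact le_rfl
    · exact hp ω
  · rw [if_neg h]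
    refine le_of_eq (Finset.sum_eq_zero (fun i _ => ?_))
    rw [if_neg]
    intro hc
    exact h (Prod.ext_iff.1 hc).2

open Classical in
/-- YENT: entropy of the rows just before the crossing -/
theorem yent (p : Ω → ℝ) (hp : ∀ ω, 0 ≤ p ω) (hp1 : ∑ ω, p ω = 1)
    (x y n σ : Ω → ℝ) (F : Ω → U) (L : ℤ) (hL : 4 ≤ L) (κ η : ℝ) (hκ : 0 < κ) (hη : 0 < η)
    (ok : Ω → Prop) (hy : ∀ ω, ok ω → |y ω| ≤ 1) (hσ : ∀ ω, ok ω → 0 ≤ σ ω ∧ σ ω ≤ 1)
    (hn : ∀ ω, ok ω → |n ω - (x ω + σ ω * y ω)| ≤ 1)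
    (V : Finset U) (e1 e2 : U → ℝ) (he1 : ∀ f ∈ V, 0 ≤ e1 f) (he2 : ∀ f ∈ V, 0 ≤ e2 f)
    (p5 : ℝ) (hok : 1 - p5 ≤ ∑ ω with ok ω, p ω)
    (hTV : ∀ f ∈ V, ∃ a b s1 s2 s3 : ℝ, Par a b s1 s2 s3 ∧ κ ≤ kap a b s1 s2 s3 ∧
      ∀ (φ : ℝ → ℝ) (B Λ : ℝ), (∀ z, |φ z| ≤ B) →
      (∀ z z', |z - z'| ≤ 1 → |φ z - φ z'| ≤ Λ * |z - z'|) →
      |∑ ω with F ω = f, p ω * (φ (x ω + s1 * y ω) - φ (x ω + s2 * y ω))| ≤ e1 f * B + e2 f * Λ ∧
      |∑ ω with F ω = f, p ω * (φ (x ω + s3 * y ω) - φ (x ω + s2 * y ω))| ≤ e1 f * B + e2 f * Λ)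
    (G : Finset Ω) (hG : ∀ ω ∈ G, ok ω ∧ F ω ∈ V ∧ η ≤ |y ω|) (A : ℝ)
    (hA : 35 / 2 + (70 * L ^ 2 * (∑ f ∈ V, e1 f + 2 * p5)
      + 35 * L * ∑ f ∈ V, e2 f) / κ ≤ A) :
    (∑ ω ∈ G, p ω) * Real.log ((∑ ω ∈ G, p ω) * (η ^ 2 * L / A))
      ≤ CH p (fun ω => ⌊n ω⌋) (fun ω => (⌊n ω⌋ / L, F ω)) := by
  have hLr : (4 : ℝ) ≤ (L : ℝ) := by exact_mod_cast hL
  have hL0 : (0 : ℝ) < L := by linarith only [hLr]
  set N : Ω → ℤ := fun ω => ⌊n ω⌋ with hN
  set W : U → ℤ → ℝ := wt p N F L with hW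
  have hbad0 : 0 ≤ p5 := by
    have : ∑ ω with ok ω, p ω ≤ ∑ ω, p ω :=
      Finset.sum_le_sum_of_subset_of_nonneg (Finset.subset_univ _) (fun ω _ _ => hp ω)
    linarith only [hp1, hok, this]
  have he1s : 0 ≤ ∑ f ∈ V, e1 f := Finset.sum_nonneg he1
  have he2s : 0 ≤ ∑ f ∈ V, e2 f := Finset.sum_nonneg he2
  have hApos : 0 < A := by
    refine lt_of_lt_of_le ?_ hA
    have : 0 ≤ (70 * (L : ℝ) ^ 2 * (∑ f ∈ V, e1 f + 2 * p5)
      + 35 * L * ∑ f ∈ V, e2 f) / κ := by positivity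
    linarith only [this]
  -- one context value
  have one : ∀ f ∈ V, ∑ ω with (ok ω ∧ F ω = f), p ω * (y ω ^ 2 * W f (N ω))
      ≤ 35 / (2 * L) * (∑ ω with (ok ω ∧ F ω = f), p ω)
        + (70 * L * (e1 f + 2 * (∑ ω with F ω = f, p ω - ∑ ω with (ok ω ∧ F ω = f), p ω))
          + 35 * e2 f) / κ := by
    intro f hf
    obtain ⟨a, b, s1, s2, s3, hpar, hkap, htv⟩ := hTV f hf
    set pf : Ω → ℝ := fun ω => if F ω = f then p ω else 0 with hpf
    have hpf0 : ∀ ω, 0 ≤ pf ω := by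
      intro ω
      simp only [hpf]
      split_ifs
      · exact hp ω
      · exact le_rfl
    have conv : ∀ (Q : Ω → Prop) (g : Ω → ℝ),
        ∑ ω with Q ω, pf ω * g ω = ∑ ω with (Q ω ∧ F ω = f), p ω * g ω := by
      intro Q g
      rw [Finset.sum_filter, Finset.sum_filter]
      refine Finset.sum_congr rfl (fun ω _ => ?_)
      simp only [hpf]
      by_cases h1 : Q ω <;> by_cases h2 : F ω = f <;> simp [h1, h2]
    have convT : ∀ (g : Ω → ℝ), ∑ ω, pf ω * g ω = ∑ ω with F ω = f, p ω * g ω := by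
      intro g
      rw [Finset.sum_filter]
      refine Finset.sum_congr rfl (fun ω _ => ?_)
      simp only [hpf]
      by_cases h2 : F ω = f <;> simp [h2]
    have key := lemY hpar hL (univ.image N) (W f) (wt_nonneg p hp N F L f) 1
      (wt_cell p hp N F L f _) pf hpf0 x y N ok hy
      (fun ω _ => Or.inl (Finset.mem_image_of_mem N (Finset.mem_univ ω))) (by
        intro ω hω
        have b1 := abs_le.1 (hn ω hω)
        have b2 := abs_le.1 (hy ω hω)
        obtain ⟨c1, c2⟩ := hσ ω hω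
        have f1 := Int.floor_le (n ω)
        have f2 := Int.lt_floor_add_one (n ω)
        have d1 : |(s2 - σ ω) * y ω| ≤ 1 := by
          rw [abs_mul]
          have : |s2 - σ ω| ≤ 1 := by
            have := hpar.h1; have := hpar.h12; have := hpar.h23; have := hpar.h3
            rw [abs_le]; constructor <;> linarith
          calc |s2 - σ ω| * |y ω| ≤ 1 * 1 :=
                mul_le_mul this (hy ω hω) (abs_nonneg _) (by norm_num)
            _ = 1 := by norm_num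
        have d2 := abs_le.1 d1
        simp only [hN]
        constructor <;> nlinarith) (e1 f) (e2 f) (by
        intro φ B Λ h1 h2
        rw [convT, convT]
        exact htv φ B Λ h1 h2)
    rw [conv ok, conv ok (fun ω => y ω ^ 2)] at key
    have cb : ∑ ω with ¬ ok ω, pf ω = ∑ ω with F ω = f, p ω - ∑ ω with (ok ω ∧ F ω = f), p ω := by
      have h1 := Finset.sum_filter_add_sum_filter_not univ ok pf
      have h2 := conv ok (fun _ => 1)
      have h3 := convT (fun _ => 1)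
      simp only [mul_one] at h2 h3
      rw [h2, h3] at h1
      linarith only [h1]
    rw [cb] at key
    have hk0 : 0 < kap a b s1 s2 s3 := lt_of_lt_of_le hκ hkap
    have hy2 : ∑ ω with (ok ω ∧ F ω = f), p ω * y ω ^ 2 ≤ ∑ ω with (ok ω ∧ F ω = f), p ω := by
      refine Finset.sum_le_sum (fun ω hω => ?_)
      rw [Finset.mem_filter] at hω
      have : y ω ^ 2 ≤ 1 := by
        have := abs_le.1 (hy ω hω.2.1)
        nlinarith only [this]
      calc p ω * y ω ^ 2 ≤ p ω * 1 := mul_le_mul_of_nonneg_left this (hp ω)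
        _ = p ω := mul_one _
    set Z := ∑ ω with (ok ω ∧ F ω = f), p ω * (y ω ^ 2 * W f (N ω)) with hZ
    set Y2 := ∑ ω with (ok ω ∧ F ω = f), p ω * y ω ^ 2 with hY2
    set R := 70 * (L : ℝ) * (e1 f + 2 * (∑ ω with F ω = f, p ω - ∑ ω with (ok ω ∧ F ω = f), p ω))
      + 35 * e2 f with hR
    have hR0 : 0 ≤ R := by
      have := he1 f hf
      have := he2 f hf
      have h7 : 0 ≤ ∑ ω with F ω = f, p ω - ∑ ω with (ok ω ∧ F ω = f), p ω := by
        rw [← cb]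
        exact Finset.sum_nonneg (fun ω _ => hpf0 ω)
      positivity
    have k1 : kap a b s1 s2 s3 * (Z - 35 / (2 * L) * Y2) ≤ R := by
      have : 70 * (1:ℝ) * L * (e1 f + 2 * (∑ ω with F ω = f, p ω - ∑ ω with (ok ω ∧ F ω = f), p ω))
          + 35 * 1 * e2 f = R := by
        rw [hR]; ring
      have e2' : 35 * (1:ℝ) / (2 * L) * (kap a b s1 s2 s3 * Y2) = kap a b s1 s2 s3 * (35 / (2 * L) * Y2) := by
        ring
      rw [this, e2'] at key
      linarith only [key]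
    have k2 : Z - 35 / (2 * L) * Y2 ≤ R / κ := by
      rcases le_total (Z - 35 / (2 * L) * Y2) 0 with h | h
      · exact le_trans h (div_nonneg hR0 hκ.le)
      · rw [le_div_iff₀ hκ]
        have : κ * (Z - 35 / (2 * L) * Y2) ≤ kap a b s1 s2 s3 * (Z - 35 / (2 * L) * Y2) :=
          mul_le_mul_of_nonneg_right hkap h
        linarith only [key, this]
    have k3 : 35 / (2 * (L : ℝ)) * Y2 ≤ 35 / (2 * L) * (∑ ω with (ok ω ∧ F ω = f), p ω) :=
      mul_le_mul_of_nonneg_left hy2 (by positivity)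
    linarith only [k2, k3]
  -- sum over the context values
  have fib : ∀ (Q : Ω → Prop) (g : Ω → ℝ),
      ∑ f ∈ V, ∑ ω with (Q ω ∧ F ω = f), g ω = ∑ ω with (Q ω ∧ F ω ∈ V), g ω := by
    intro Q g
    have : ∀ f ∈ V, ∑ ω with (Q ω ∧ F ω = f), g ω
        = ∑ ω ∈ (univ.filter (fun ω => Q ω ∧ F ω ∈ V)).filter (fun ω => F ω = f), g ω := by
      intro f hf
      refine Finset.sum_congr ?_ (fun _ _ => rfl)
      ext ω
      simp only [Finset.mem_filter, Finset.mem_univ, true_and]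
      constructor
      · rintro ⟨h1, h2⟩; exact ⟨⟨h1, h2 ▸ hf⟩, h2⟩
      · rintro ⟨⟨h1, _⟩, h2⟩; exact ⟨h1, h2⟩
    rw [Finset.sum_congr rfl this]
    exact Finset.sum_fiberwise_of_maps_to (fun ω hω => (Finset.mem_filter.1 hω).2.2) g
  have fib0 : ∀ (g : Ω → ℝ), ∑ f ∈ V, ∑ ω with F ω = f, g ω = ∑ ω with F ω ∈ V, g ω := by
    intro g
    have h1 := fib (fun _ => True) g
    simp only [true_and] at h1
    exact h1
  have tot : ∑ ω with (ok ω ∧ F ω ∈ V), p ω * (y ω ^ 2 * W (F ω) (N ω)) ≤ A / L := by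
    have s1 : ∑ ω with (ok ω ∧ F ω ∈ V), p ω * (y ω ^ 2 * W (F ω) (N ω))
        = ∑ f ∈ V, ∑ ω with (ok ω ∧ F ω = f), p ω * (y ω ^ 2 * W f (N ω)) := by
      rw [← fib ok (fun ω => p ω * (y ω ^ 2 * W (F ω) (N ω)))]
      refine Finset.sum_congr rfl (fun f _ => Finset.sum_congr rfl (fun ω hω => ?_))
      rw [(Finset.mem_filter.1 hω).2.2]
    rw [s1]
    refine le_trans (Finset.sum_le_sum one) ?_
    rw [Finset.sum_add_distrib, ← Finset.mul_sum, ← Finset.sum_div, Finset.sum_add_distrib,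
      ← Finset.mul_sum, ← Finset.mul_sum, Finset.sum_add_distrib, ← Finset.mul_sum,
      Finset.sum_sub_distrib, fib ok p, fib0 p]
    have m1 : ∑ ω with (ok ω ∧ F ω ∈ V), p ω ≤ 1 := by
      rw [← hp1]
      exact Finset.sum_le_sum_of_subset_of_nonneg (Finset.subset_univ _) (fun ω _ _ => hp ω)
    have m2 : ∑ ω with F ω ∈ V, p ω - ∑ ω with (ok ω ∧ F ω ∈ V), p ω ≤ p5 := by
      have h1 : ∑ ω with F ω ∈ V, p ω + ∑ ω with ok ω, p ω
          ≤ ∑ ω with (ok ω ∧ F ω ∈ V), p ω + ∑ ω, p ω := by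
        rw [Finset.sum_filter, Finset.sum_filter, Finset.sum_filter, ← Finset.sum_add_distrib,
          ← Finset.sum_add_distrib]
        refine Finset.sum_le_sum (fun ω _ => ?_)
        have := hp ω
        by_cases c1 : F ω ∈ V <;> by_cases c2 : ok ω <;> simp [c1, c2, this]
      linarith only [hp1, hok, h1]
    have m3 : 35 / (2 * (L : ℝ)) * ∑ ω with (ok ω ∧ F ω ∈ V), p ω ≤ 35 / (2 * L) * 1 :=
      mul_le_mul_of_nonneg_left m1 (by positivity)
    have m4 : (70 * (L : ℝ) * (∑ f ∈ V, e1 f + 2 * (∑ ω with F ω ∈ V, p ω - ∑ ω with (ok ω ∧ F ω ∈ V), p ω))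
        + 35 * ∑ f ∈ V, e2 f) / κ
        ≤ (70 * (L : ℝ) * (∑ f ∈ V, e1 f + 2 * p5) + 35 * ∑ f ∈ V, e2 f) / κ := by
      apply div_le_div_of_nonneg_right _ hκ.le
      have : 70 * (L : ℝ) * (∑ f ∈ V, e1 f + 2 * (∑ ω with F ω ∈ V, p ω - ∑ ω with (ok ω ∧ F ω ∈ V), p ω))
        ≤ 70 * (L : ℝ) * (∑ f ∈ V, e1 f + 2 * p5) :=
        mul_le_mul_of_nonneg_left (by linarith only [m2]) (by positivity)
      linarith only [this]
    have m5 : 35 / (2 * (L : ℝ)) * 1
        + (70 * (L : ℝ) * (∑ f ∈ V, e1 f + 2 * p5) + 35 * ∑ f ∈ V, e2 f) / κ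
        = (35 / 2 + (70 * L ^ 2 * (∑ f ∈ V, e1 f + 2 * p5)
      + 35 * L * ∑ f ∈ V, e2 f) / κ) / L := by
      field_simp
    have m6 : (35 / 2 + (70 * (L : ℝ) ^ 2 * (∑ f ∈ V, e1 f + 2 * p5)
      + 35 * L * ∑ f ∈ V, e2 f) / κ) / L ≤ A / L := div_le_div_of_nonneg_right hA hL0.le
    linarith only [m3, m4, m5, m6]
  -- the event
  have ev : ∑ ω ∈ G, p ω * (law p (fun ω => (N ω, (N ω / L, F ω))) (N ω, (N ω / L, F ω))
      / law p (fun ω => (N ω / L, F ω)) (N ω / L, F ω)) ≤ A / (η ^ 2 * L) := by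
    have g1 : ∑ ω ∈ G, p ω * (η ^ 2 * W (F ω) (N ω)) ≤ A / L := by
      refine le_trans ?_ tot
      have g2 : ∑ ω ∈ G, p ω * (η ^ 2 * W (F ω) (N ω)) ≤ ∑ ω ∈ G, p ω * (y ω ^ 2 * W (F ω) (N ω)) := by
        refine Finset.sum_le_sum (fun ω hω => ?_)
        have : η ^ 2 ≤ y ω ^ 2 := by
          rw [← sq_abs (y ω)]
          exact pow_le_pow_left₀ hη.le (hG ω hω).2.2 2
        exact mul_le_mul_of_nonneg_left
          (mul_le_mul_of_nonneg_right this (wt_nonneg p hp N F L _ _)) (hp ω)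
      refine le_trans g2 (Finset.sum_le_sum_of_subset_of_nonneg ?_ (fun ω _ _ => ?_))
      · intro ω hω
        rw [Finset.mem_filter]
        exact ⟨Finset.mem_univ _, (hG ω hω).1, (hG ω hω).2.1⟩
      · exact mul_nonneg (hp ω) (mul_nonneg (sq_nonneg _) (wt_nonneg p hp N F L _ _))
    have g3 : ∑ ω ∈ G, p ω * (η ^ 2 * W (F ω) (N ω)) = η ^ 2 * ∑ ω ∈ G, p ω * W (F ω) (N ω) := by
      rw [Finset.mul_sum]
      exact Finset.sum_congr rfl (fun ω _ => by ring)
    rw [g3] at g1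
    have hη2 : 0 < η ^ 2 := by positivity
    have g4 : ∑ ω ∈ G, p ω * W (F ω) (N ω) ≤ A / L / η ^ 2 := by
      rw [le_div_iff₀ hη2]; linarith only [g1]
    have g5 : A / L / η ^ 2 = A / (η ^ 2 * L) := by
      rw [div_div]; ring
    rw [g5] at g4
    exact g4
  have fin := CH_ge_event p hp N (fun ω => (N ω / L, F ω)) G (A / (η ^ 2 * L)) (by positivity) ev
  have e : (∑ ω ∈ G, p ω) / (A / (η ^ 2 * L)) = (∑ ω ∈ G, p ω) * (η ^ 2 * L / A) := by
    field_simp
  rw [e] at fin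
  exact fin

end Pool.S6Y
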