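import Pool.Agent.H28.KVA.PIN
import Pool.Agent.H8.KS6.YEnt

set_option autoImplicit false

/-!
# LEMMA Y with approximate independence (rows LEMY, YENT of board ks6)

The three closeness hypotheses of `yent` are produced from two conditional mutual informations: the slope block `om` is
nearly independent, given the context `F`, of the variable `A` (which determines `x`, `y`) and of the variable `B`
(which determines `n`), and `n = x + s(om) y` up to `tau`.
-/

namespace Pool.S6Y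

open Finset Pool.Agent.H49.Ent

variable {Ω : Type*} [Fintype Ω] {S T U O : Type*}

open Classical in
/-- total dependence of two variables -/
noncomputable def dep (p : Ω → ℝ) (A : Ω → S) (om : Ω → O) : ℝ :=
  ∑ g ∈ (univ.image A) ×ˢ (univ.image om), |law p (fun ω => (A ω, om ω)) g - law p A g.1 * law p om g.2|

lemma dep_nonneg (p : Ω → ℝ) (A : Ω → S) (om : Ω → O) : 0 ≤ dep p A om :=
  Finset.sum_nonneg (fun _ _ => abs_nonneg _)

lemma dep_le (p : Ω → ℝ) (hp : ∀ ω, 0 ≤ p ω) (hp1 : ∑ ω, p ω = 1) (A : Ω → S) (om : Ω → O) :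
    dep p A om ≤ 2 * Real.sqrt (H p A + H p om - H p (fun ω => (A ω, om ω))) := by
  classical
  have := Pool.KVA.pinsker p A om hp hp1
  unfold dep
  refine le_trans (le_of_eq ?_) this
  refine Finset.sum_congr ?_ (fun _ _ => rfl)
  ext g
  simp

open Classical in
/-- the mean of a function of `A` on the event `om = o` -/
lemma mean_dep (p : Ω → ℝ) (A : Ω → S) (om : Ω → O) (o : O) (g : S → ℝ)
    (B : ℝ) (hg : ∀ s, |g s| ≤ B) :
    |∑ ω, p ω * (g (A ω) * if om ω = o then 1 else 0) - law p om o * ∑ ω, p ω * g (A ω)|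
      ≤ B * dep p A om := by
  set G := (univ.image A) ×ˢ (univ.image om) with hG
  have h1 : ∑ ω, p ω * (g (A ω) * if om ω = o then 1 else 0)
      = ∑ q ∈ G, law p (fun ω => (A ω, om ω)) q * (g q.1 * if q.2 = o then 1 else 0) := by
    have := sum_mul_eq_sum_image p (fun ω => (A ω, om ω)) (fun q => g q.1 * if q.2 = o then 1 else 0)
    simp only at this
    rw [this]
    refine Finset.sum_subset ?_ ?_
    · intro q hq
      rw [Finset.mem_image] at hq
      obtain ⟨ω, _, rfl⟩ := hq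
      rw [hG, Finset.mem_product]
      exact ⟨Finset.mem_image_of_mem A (Finset.mem_univ ω), Finset.mem_image_of_mem om (Finset.mem_univ ω)⟩
    · intro q _ hq
      rw [law_eq_zero_of_notMem p _ hq, zero_mul]
  have h2 : law p om o * ∑ ω, p ω * g (A ω)
      = ∑ q ∈ G, law p A q.1 * law p om q.2 * (g q.1 * if q.2 = o then 1 else 0) := by
    rw [sum_mul_eq_sum_image p A g, hG, Finset.sum_product]
    rw [Finset.mul_sum]
    refine Finset.sum_congr rfl (fun a _ => ?_)
    by_cases ho : o ∈ univ.image om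
    · rw [Finset.sum_eq_single o]
      · rw [if_pos rfl]; ring
      · intro o' _ ho'
        rw [if_neg ho']; ring
      · intro hc; exact absurd ho hc
    · rw [law_eq_zero_of_notMem p om ho]
      symm
      rw [zero_mul]
      refine Finset.sum_eq_zero (fun o' ho' => ?_)
      rw [if_neg (fun hc : o' = o => ho (hc ▸ ho'))]
      ring
  rw [h1, h2, ← Finset.sum_sub_distrib]
  refine le_trans (Finset.abs_sum_le_sum_abs _ _) ?_
  unfold dep
  rw [Finset.mul_sum]
  refine Finset.sum_le_sum (fun q _ => ?_)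
  have e : law p (fun ω => (A ω, om ω)) q * (g q.1 * if q.2 = o then 1 else 0)
      - law p A q.1 * law p om q.2 * (g q.1 * if q.2 = o then 1 else 0)
      = (g q.1 * if q.2 = o then 1 else 0) * (law p (fun ω => (A ω, om ω)) q - law p A q.1 * law p om q.2) := by
    ring
  rw [e, abs_mul]
  refine mul_le_mul_of_nonneg_right ?_ (abs_nonneg _)
  split_ifs
  · rw [mul_one]; exact hg _
  · rw [mul_zero, abs_zero]; exact le_trans (abs_nonneg _) (hg q.1)

open Classical in
/-- the law of `x + s(o) y` against the law of `n` -/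
lemma tv_one (p : Ω → ℝ) (hp : ∀ ω, 0 ≤ p ω) (hp1 : ∑ ω, p ω = 1) (A : Ω → S) (B : Ω → T) (om : Ω → O)
    (xa ya : S → ℝ) (nb : T → ℝ) (s : O → ℝ) (ok : Ω → Prop) (τ : ℝ) (hτ0 : 0 ≤ τ) (hτ : τ ≤ 1)
    (hn : ∀ ω, ok ω → |nb (B ω) - (xa (A ω) + s (om ω) * ya (A ω))| ≤ τ)
    (p5 : ℝ) (hok : 1 - p5 ≤ ∑ ω with ok ω, p ω) (o : O) (π : ℝ) (hπ : 0 < π) (ho : π ≤ law p om o)
    (φ : ℝ → ℝ) (K Λ : ℝ) (h1 : ∀ z, |φ z| ≤ K)
    (h2 : ∀ z z', |z - z'| ≤ 1 → |φ z - φ z'| ≤ Λ * |z - z'|) (hΛ : 0 ≤ Λ) :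
    |∑ ω, p ω * φ (xa (A ω) + s o * ya (A ω)) - ∑ ω, p ω * φ (nb (B ω))|
      ≤ (dep p A om + dep p B om + 2 * p5) * K / π + Λ * τ := by
  have hK : 0 ≤ K := le_trans (abs_nonneg _) (h1 0)
  have hl : 0 < law p om o := lt_of_lt_of_le hπ ho
  set X1 := ∑ ω, p ω * φ (xa (A ω) + s o * ya (A ω)) with hX1
  set X2 := ∑ ω, p ω * φ (nb (B ω)) with hX2
  have m1 := mean_dep p A om o (fun a => φ (xa a + s o * ya a)) K (fun a => h1 _)
  have m2 := mean_dep p B om o (fun b => φ (nb b)) K (fun b => h1 _)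
  set Y1 := ∑ ω, p ω * (φ (xa (A ω) + s o * ya (A ω)) * if om ω = o then 1 else 0) with hY1
  set Y2 := ∑ ω, p ω * (φ (nb (B ω)) * if om ω = o then 1 else 0) with hY2
  have hp5 : 0 ≤ p5 := by
    have : ∑ ω with ok ω, p ω ≤ ∑ ω, p ω :=
      Finset.sum_le_sum_of_subset_of_nonneg (Finset.subset_univ _) (fun ω _ _ => hp ω)
    linarith
  have m3 : |Y1 - Y2| ≤ Λ * τ * law p om o + 2 * K * p5 := by
    rw [hY1, hY2, ← Finset.sum_sub_distrib]
    refine le_trans (Finset.abs_sum_le_sum_abs _ _) ?_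
    have b1 : ∀ ω ∈ (univ : Finset Ω), |p ω * (φ (xa (A ω) + s o * ya (A ω)) * if om ω = o then 1 else 0)
        - p ω * (φ (nb (B ω)) * if om ω = o then 1 else 0)|
        ≤ (if om ω = o then p ω else 0) * (Λ * τ) + (p ω - if ok ω then p ω else 0) * (2 * K) := by
      intro ω _
      have e : p ω * (φ (xa (A ω) + s o * ya (A ω)) * if om ω = o then 1 else 0)
        - p ω * (φ (nb (B ω)) * if om ω = o then 1 else 0)
        = (if om ω = o then p ω else 0) * (φ (xa (A ω) + s o * ya (A ω)) - φ (nb (B ω))) := by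
        split_ifs <;> ring
      rw [e, abs_mul]
      have c0 := hp ω
      by_cases c1 : om ω = o
      · rw [if_pos c1, abs_of_nonneg c0]
        by_cases c2 : ok ω
        · rw [if_pos c2, sub_self, zero_mul, add_zero]
          refine mul_le_mul_of_nonneg_left ?_ c0
          have h3 := hn ω c2
          rw [c1] at h3
          rw [abs_sub_comm] at h3
          refine le_trans (h2 _ _ (le_trans h3 hτ)) (mul_le_mul_of_nonneg_left h3 hΛ)
        · rw [if_neg c2, sub_zero]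
          have : |φ (xa (A ω) + s o * ya (A ω)) - φ (nb (B ω))| ≤ 2 * K := by
            have d1 := abs_le.1 (h1 (xa (A ω) + s o * ya (A ω)))
            have d2 := abs_le.1 (h1 (nb (B ω)))
            rw [abs_le]; constructor <;> linarith
          have := mul_le_mul_of_nonneg_left this c0
          have : 0 ≤ p ω * (Λ * τ) := by positivity
          linarith
      · rw [if_neg c1, abs_zero, zero_mul, zero_mul, zero_add]
        split_ifs
        · rw [sub_self, zero_mul]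
        · rw [sub_zero]; positivity
    refine le_trans (Finset.sum_le_sum b1) ?_
    rw [Finset.sum_add_distrib, ← Finset.sum_mul, ← Finset.sum_mul, Finset.sum_sub_distrib, hp1,
      ← Finset.sum_filter ok]
    have b2 : ∑ ω, (if om ω = o then p ω else 0) = law p om o := rfl
    rw [b2]
    have b3 : (1 - ∑ ω with ok ω, p ω) * (2 * K) ≤ p5 * (2 * K) :=
      mul_le_mul_of_nonneg_right (by linarith) (by positivity)
    linarith
  have m4 : law p om o * |X1 - X2| ≤ K * dep p A om + K * dep p B om + (Λ * τ * law p om o + 2 * K * p5) := by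
    rw [← abs_of_pos hl, ← abs_mul, abs_of_pos hl]
    have e : law p om o * (X1 - X2) = -(Y1 - law p om o * X1) + (Y2 - law p om o * X2) + (Y1 - Y2) := by ring
    rw [e]
    refine le_trans (abs_add_le _ _) ?_
    refine le_trans (add_le_add_left (abs_add_le _ _) _) ?_
    rw [abs_neg]
    linarith
  have m5 : |X1 - X2| ≤ (K * dep p A om + K * dep p B om + 2 * K * p5) / law p om o + Λ * τ := by
    rw [← sub_le_iff_le_add, le_div_iff₀ hl]
    linarith
  refine le_trans m5 ?_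
  have m6 : (K * dep p A om + K * dep p B om + 2 * K * p5) / law p om o
      ≤ (K * dep p A om + K * dep p B om + 2 * K * p5) / π := by
    apply div_le_div_of_nonneg_left _ hπ ho
    have := dep_nonneg p A om
    have := dep_nonneg p B om
    positivity
  have m7 : (K * dep p A om + K * dep p B om + 2 * K * p5) / π
      = (dep p A om + dep p B om + 2 * p5) * K / π := by ring
  linarith

/-- parameters from three separated slopes -/
lemma par_of_gaps {s1 s2 s3 ρ : ℝ} (hρ : 0 < ρ) (h1 : 0 ≤ s1) (h12 : s1 + ρ ≤ s2) (h23 : s2 + ρ ≤ s3)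
    (h3 : s3 ≤ 1) : ∃ a b : ℝ, Par a b s1 s2 s3 ∧ ρ ^ 2 / 2 ≤ kap a b s1 s2 s3 := by
  have hd : 0 < s3 - s1 := by linarith
  refine ⟨(s3 - s2) / (s3 - s1), (s2 - s1) / (s3 - s1), ⟨?_, ?_, ?_, ?_, h1, by linarith, by linarith, h3⟩, ?_⟩
  · exact div_nonneg (by linarith) hd.le
  · exact div_nonneg (by linarith) hd.le
  · rw [← add_div]
    have : s3 - s2 + (s2 - s1) = s3 - s1 := by ring
    rw [this, div_self hd.ne']
  · field_simp
    ring
  · have e : kap ((s3 - s2) / (s3 - s1)) ((s2 - s1) / (s3 - s1)) s1 s2 s3 = (s2 - s1) * (s3 - s2) / 2 := by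
      unfold kap
      field_simp
      ring
    rw [e]
    have : ρ * ρ ≤ (s2 - s1) * (s3 - s2) := mul_le_mul (by linarith) (by linarith) hρ.le (by linarith)
    nlinarith

/-- mutual information is nonnegative -/
lemma mi_nonneg (p : Ω → ℝ) (hp : ∀ ω, 0 ≤ p ω) (hp1 : ∑ ω, p ω = 1) (A : Ω → S) (B : Ω → T) :
    0 ≤ H p A + H p B - H p (fun ω => (A ω, B ω)) := by
  have := subadd hp hp1 (X := A) (Y := B) (W := fun ω => (A ω, B ω)) (fun _ _ _ _ h => h)
  linarith

open Classical in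
/-- mean of the square roots of the conditional mutual informations -/
lemma sqrt_mean (p : Ω → ℝ) (hp : ∀ ω, 0 ≤ p ω) (hp1 : ∑ ω, p ω = 1) (F : Ω → U) (A : Ω → S) (om : Ω → O)
    (V : Finset U) (hV : ∀ f ∈ V, 0 < law p F f) (ι : ℝ)
    (hι : CH p A F + CH p om F - CH p (fun ω => (A ω, om ω)) F ≤ ι) :
    ∑ f ∈ V, law p F f * dep (cond p F f) A om ≤ 2 * Real.sqrt ι := by
  set I : U → ℝ := fun f => H (cond p F f) A + H (cond p F f) om - H (cond p F f) (fun ω => (A ω, om ω)) with hI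
  have hVim : V ⊆ univ.image F := by
    intro f hf
    by_contra hc
    have := hV f hf
    rw [law_eq_zero_of_notMem p F hc] at this
    exact lt_irrefl _ this
  have hI0 : ∀ f, 0 < law p F f → 0 ≤ I f := fun f hf =>
    mi_nonneg (cond p F f) (cond_nonneg hp F f) (sum_cond p F hf.ne') A om
  have h1 : ∑ f ∈ V, law p F f * I f ≤ ι := by
    refine le_trans ?_ hι
    rw [CH_eq_sum hp, CH_eq_sum hp, CH_eq_sum hp, ← Finset.sum_add_distrib, ← Finset.sum_sub_distrib]
    have : ∑ f ∈ V, law p F f * I f ≤ ∑ f ∈ univ.image F, law p F f * I f := by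
      refine Finset.sum_le_sum_of_subset_of_nonneg hVim (fun f _ _ => ?_)
      rcases eq_or_lt_of_le (law_nonneg hp F f) with h0 | h0
      · rw [← h0, zero_mul]
      · exact mul_nonneg h0.le (hI0 f h0)
    refine le_trans this (le_of_eq (Finset.sum_congr rfl (fun f _ => ?_)))
    simp only [hI]; ring
  have h2 : ∑ f ∈ V, law p F f ≤ 1 := by
    rw [← hp1, ← sum_law p F]
    exact Finset.sum_le_sum_of_subset_of_nonneg hVim (fun f _ _ => law_nonneg hp F f)
  have h3 : ∑ f ∈ V, law p F f * dep (cond p F f) A om ≤ ∑ f ∈ V, 2 * (law p F f * Real.sqrt (I f)) := by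
    refine Finset.sum_le_sum (fun f hf => ?_)
    have := dep_le (cond p F f) (cond_nonneg hp F f) (sum_cond p F (hV f hf).ne') A om
    have := mul_le_mul_of_nonneg_left this (law_nonneg hp F f)
    simp only [hI]
    linarith
  rw [← Finset.mul_sum] at h3
  refine le_trans h3 (mul_le_mul_of_nonneg_left ?_ (by norm_num))
  have h4 : (∑ f ∈ V, law p F f * Real.sqrt (I f)) ^ 2 ≤ (∑ f ∈ V, law p F f) * ∑ f ∈ V, law p F f * I f := by
    have e1 : ∀ f ∈ V, law p F f * Real.sqrt (I f)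
        = Real.sqrt (law p F f) * (Real.sqrt (law p F f) * Real.sqrt (I f)) := by
      intro f _
      rw [← mul_assoc, Real.mul_self_sqrt (law_nonneg hp F f)]
    rw [Finset.sum_congr rfl e1]
    refine le_trans (Finset.sum_mul_sq_le_sq_mul_sq V _ _) (le_of_eq ?_)
    congr 1
    · exact Finset.sum_congr rfl (fun f _ => Real.sq_sqrt (law_nonneg hp F f))
    · refine Finset.sum_congr rfl (fun f hf => ?_)
      rw [mul_pow, Real.sq_sqrt (law_nonneg hp F f), Real.sq_sqrt (hI0 f (hV f hf))]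
  have h5 : 0 ≤ ∑ f ∈ V, law p F f * I f :=
    Finset.sum_nonneg (fun f hf => mul_nonneg (law_nonneg hp F f) (hI0 f (hV f hf)))
  have h6 : (∑ f ∈ V, law p F f) * ∑ f ∈ V, law p F f * I f ≤ 1 * ι :=
    mul_le_mul h2 h1 h5 (by norm_num)
  have h7 : 0 ≤ ι := le_trans h5 h1
  apply Real.le_sqrt_of_sq_le
  linarith

open Classical in
/-- YENT from two conditional mutual informations -/
theorem yent_mi (p : Ω → ℝ) (hp : ∀ ω, 0 ≤ p ω) (hp1 : ∑ ω, p ω = 1) (F : Ω → U) (A : Ω → S) (B : Ω → T)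
    (om : Ω → O) (xa ya : S → ℝ) (nb : T → ℝ) (s : O → ℝ) (hs : ∀ o, 0 ≤ s o ∧ s o ≤ 1)
    (L : ℤ) (hL : 4 ≤ L) (ρ η π τ : ℝ) (hρ : 0 < ρ) (hη : 0 < η) (hπ : 0 < π) (hτ0 : 0 ≤ τ) (hτ : τ ≤ 1)
    (ok : Ω → Prop) (hy : ∀ ω, ok ω → |ya (A ω)| ≤ 1)
    (hn : ∀ ω, ok ω → |nb (B ω) - (xa (A ω) + s (om ω) * ya (A ω))| ≤ τ)
    (p5 : ℝ) (hok : 1 - p5 ≤ ∑ ω with ok ω, p ω)
    (V : Finset U) (hV : ∀ f ∈ V, 0 < law p F f ∧ ∃ o1 o2 o3 : O, s o1 + ρ ≤ s o2 ∧ s o2 + ρ ≤ s o3 ∧
      π ≤ law (cond p F f) om o1 ∧ π ≤ law (cond p F f) om o2 ∧ π ≤ law (cond p F f) om o3)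
    (G : Finset Ω) (hG : ∀ ω ∈ G, ok ω ∧ F ω ∈ V ∧ η ≤ |ya (A ω)|)
    (ι1 ι2 : ℝ) (hι1 : CH p A F + CH p om F - CH p (fun ω => (A ω, om ω)) F ≤ ι1)
    (hι2 : CH p B F + CH p om F - CH p (fun ω => (B ω, om ω)) F ≤ ι2) (K : ℝ)
    (hK : 35 / 2 + (70 * L ^ 2 * (4 / π * (Real.sqrt ι1 + Real.sqrt ι2 + p5) + 2 * p5)
      + 70 * L * τ) / (ρ ^ 2 / 2) ≤ K) :
    (∑ ω ∈ G, p ω) * Real.log ((∑ ω ∈ G, p ω) * (η ^ 2 * L / K))
      ≤ CH p (fun ω => ⌊nb (B ω)⌋) (fun ω => (⌊nb (B ω)⌋ / L, F ω)) := by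
  have hLr : (4 : ℝ) ≤ (L : ℝ) := by exact_mod_cast hL
  set pc : U → Ω → ℝ := fun f => cond p F f with hpc
  set q5 : U → ℝ := fun f => 1 - ∑ ω with ok ω, pc f ω with hq5
  set e1 : U → ℝ := fun f => law p F f * (2 * ((dep (pc f) A om + dep (pc f) B om + 2 * q5 f) / π)) with he1
  set e2 : U → ℝ := fun f => law p F f * (2 * τ) with he2
  have hlw : ∀ f ∈ V, 0 < law p F f := fun f hf => (hV f hf).1
  have hpc0 : ∀ f ω, 0 ≤ pc f ω := fun f ω => cond_nonneg hp F f ω
  have hpc1 : ∀ f ∈ V, ∑ ω, pc f ω = 1 := fun f hf => sum_cond p F (hlw f hf).ne'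
  have hq50 : ∀ f ∈ V, 0 ≤ q5 f := by
    intro f hf
    have : ∑ ω with ok ω, pc f ω ≤ ∑ ω, pc f ω :=
      Finset.sum_le_sum_of_subset_of_nonneg (Finset.subset_univ _) (fun ω _ _ => hpc0 f ω)
    rw [hpc1 f hf] at this
    simp only [hq5]
    linarith
  have hcm : ∀ f ∈ V, ∀ g : Ω → ℝ, ∑ ω with F ω = f, p ω * g ω = law p F f * ∑ ω, pc f ω * g ω := by
    intro f hf g
    rw [Finset.sum_filter, Finset.mul_sum]
    refine Finset.sum_congr rfl (fun ω _ => ?_)
    simp only [hpc, Pool.Agent.H49.Ent.cond]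
    split_ifs
    · have := (hlw f hf).ne'
      field_simp
    · ring
  have hs1 : ∑ f ∈ V, law p F f * dep (pc f) A om ≤ 2 * Real.sqrt ι1 := sqrt_mean p hp hp1 F A om V hlw ι1 hι1
  have hs2 : ∑ f ∈ V, law p F f * dep (pc f) B om ≤ 2 * Real.sqrt ι2 := sqrt_mean p hp hp1 F B om V hlw ι2 hι2
  have hlsum : ∑ f ∈ V, law p F f = ∑ ω with F ω ∈ V, p ω := by
    unfold law
    rw [Finset.sum_comm, Finset.sum_filter]
    refine Finset.sum_congr rfl (fun ω _ => ?_)
    rw [Finset.sum_ite_eq]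
  have hoksum : ∑ f ∈ V, law p F f * ∑ ω with ok ω, pc f ω = ∑ ω with (ok ω ∧ F ω ∈ V), p ω := by
    have h1 : ∀ f ∈ V, law p F f * ∑ ω with ok ω, pc f ω = ∑ ω, if F ω = f then (if ok ω then p ω else 0) else 0 := by
      intro f hf
      rw [Finset.sum_filter]
      have h2 := hcm f hf (fun ω => if ok ω then 1 else 0)
      rw [Finset.sum_filter] at h2
      have h3 : ∑ ω, pc f ω * (if ok ω then (1:ℝ) else 0) = ∑ ω, if ok ω then pc f ω else 0 :=
        Finset.sum_congr rfl (fun ω _ => by split_ifs <;> ring)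
      rw [← h3, ← h2]
      refine Finset.sum_congr rfl (fun ω _ => ?_)
      split_ifs <;> ring
    rw [Finset.sum_congr rfl h1, Finset.sum_comm, Finset.sum_filter]
    refine Finset.sum_congr rfl (fun ω _ => ?_)
    rw [Finset.sum_ite_eq]
    by_cases c1 : F ω ∈ V <;> by_cases c2 : ok ω <;> simp [c1, c2]
  have hs3 : ∑ f ∈ V, law p F f * q5 f ≤ p5 := by
    have e : ∑ f ∈ V, law p F f * q5 f
        = ∑ f ∈ V, law p F f - ∑ f ∈ V, law p F f * ∑ ω with ok ω, pc f ω := by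
      rw [← Finset.sum_sub_distrib]
      exact Finset.sum_congr rfl (fun f _ => by simp only [hq5]; ring)
    rw [e, hlsum, hoksum]
    have h1 : ∑ ω with F ω ∈ V, p ω + ∑ ω with ok ω, p ω
        ≤ ∑ ω with (ok ω ∧ F ω ∈ V), p ω + ∑ ω, p ω := by
      rw [Finset.sum_filter, Finset.sum_filter, Finset.sum_filter, ← Finset.sum_add_distrib,
        ← Finset.sum_add_distrib]
      refine Finset.sum_le_sum (fun ω _ => ?_)
      have := hp ω
      by_cases c1 : F ω ∈ V <;> by_cases c2 : ok ω <;> simp [c1, c2, this]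
    linarith
  have hlle : ∑ f ∈ V, law p F f ≤ 1 := by
    rw [hlsum, ← hp1]
    exact Finset.sum_le_sum_of_subset_of_nonneg (Finset.subset_univ _) (fun ω _ _ => hp ω)
  refine yent p hp hp1 (fun ω => xa (A ω)) (fun ω => ya (A ω)) (fun ω => nb (B ω)) (fun ω => s (om ω)) F L hL
    (ρ ^ 2 / 2) η (by positivity) hη ok hy (fun ω _ => hs (om ω)) (fun ω hω => le_trans (hn ω hω) hτ) V e1 e2
    ?_ ?_ p5 hok ?_ G hG K ?_
  · intro f hf
    have := law_nonneg hp F f
    have := dep_nonneg (pc f) A om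
    have := dep_nonneg (pc f) B om
    have := hq50 f hf
    simp only [he1]
    positivity
  · intro f hf
    have := law_nonneg hp F f
    simp only [he2]
    positivity
  · intro f hf
    obtain ⟨_, o1, o2, o3, g12, g23, w1, w2, w3⟩ := hV f hf
    obtain ⟨a, b, hpar, hk⟩ := par_of_gaps hρ (hs o1).1 g12 g23 (hs o3).2
    refine ⟨a, b, s o1, s o2, s o3, hpar, hk, ?_⟩
    intro φ Bd Λ h1 h2
    have hΛ : 0 ≤ Λ := by
      have := h2 1 0 (by norm_num)
      have h0 : |(1:ℝ) - 0| = 1 := by norm_num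
      rw [h0, mul_one] at this
      exact le_trans (abs_nonneg _) this
    have tv : ∀ o : O, π ≤ law (pc f) om o →
        |∑ ω, pc f ω * φ (xa (A ω) + s o * ya (A ω)) - ∑ ω, pc f ω * φ (nb (B ω))|
          ≤ (dep (pc f) A om + dep (pc f) B om + 2 * q5 f) * Bd / π + Λ * τ := by
      intro o ho
      exact tv_one (pc f) (hpc0 f) (hpc1 f hf) A B om xa ya nb s ok τ hτ0 hτ hn (q5 f)
        (by simp only [hq5]; linarith) o π hπ ho φ Bd Λ h1 h2 hΛ
    have fin : ∀ o o' : O, π ≤ law (pc f) om o → π ≤ law (pc f) om o' →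
        |∑ ω with F ω = f, p ω * (φ (xa (A ω) + s o * ya (A ω)) - φ (xa (A ω) + s o' * ya (A ω)))|
          ≤ e1 f * Bd + e2 f * Λ := by
      intro o o' ho ho'
      rw [hcm f hf, abs_mul, abs_of_pos (hlw f hf)]
      have t1 := tv o ho
      have t2 := tv o' ho'
      have e : ∑ ω, pc f ω * (φ (xa (A ω) + s o * ya (A ω)) - φ (xa (A ω) + s o' * ya (A ω)))
          = (∑ ω, pc f ω * φ (xa (A ω) + s o * ya (A ω)) - ∑ ω, pc f ω * φ (nb (B ω)))
            - (∑ ω, pc f ω * φ (xa (A ω) + s o' * ya (A ω)) - ∑ ω, pc f ω * φ (nb (B ω))) := by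
        simp only [mul_sub, Finset.sum_sub_distrib]
        ring
      have t3 : |∑ ω, pc f ω * (φ (xa (A ω) + s o * ya (A ω)) - φ (xa (A ω) + s o' * ya (A ω)))|
          ≤ 2 * ((dep (pc f) A om + dep (pc f) B om + 2 * q5 f) * Bd / π + Λ * τ) := by
        rw [e]
        refine le_trans (abs_sub _ _) ?_
        linarith
      refine le_trans (mul_le_mul_of_nonneg_left t3 (hlw f hf).le) (le_of_eq ?_)
      simp only [he1, he2]
      ring
    exact ⟨fin o1 o2 w1 w2, fin o3 o2 w3 w2⟩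
  · have s1 : ∑ f ∈ V, e1 f ≤ 4 / π * (Real.sqrt ι1 + Real.sqrt ι2 + p5) := by
      have e : ∑ f ∈ V, e1 f = 2 / π * (∑ f ∈ V, law p F f * dep (pc f) A om
          + ∑ f ∈ V, law p F f * dep (pc f) B om + 2 * ∑ f ∈ V, law p F f * q5 f) := by
        rw [Finset.mul_sum V _ 2, ← Finset.sum_add_distrib, ← Finset.sum_add_distrib, Finset.mul_sum]
        refine Finset.sum_congr rfl (fun f _ => ?_)
        simp only [he1]
        ring
      rw [e]
      have h1 : 2 / π * (∑ f ∈ V, law p F f * dep (pc f) A om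
          + ∑ f ∈ V, law p F f * dep (pc f) B om + 2 * ∑ f ∈ V, law p F f * q5 f)
          ≤ 2 / π * (2 * Real.sqrt ι1 + 2 * Real.sqrt ι2 + 2 * p5) :=
        mul_le_mul_of_nonneg_left (by linarith) (by positivity)
      refine le_trans h1 (le_of_eq ?_)
      ring
    have s2 : ∑ f ∈ V, e2 f ≤ 2 * τ := by
      simp only [he2]
      rw [← Finset.sum_mul]
      have := mul_le_mul_of_nonneg_right hlle (by positivity : 0 ≤ 2 * τ)
      linarith
    refine le_trans ?_ hK
    have h3 : (70 * (L : ℝ) ^ 2 * (∑ f ∈ V, e1 f + 2 * p5) + 35 * L * ∑ f ∈ V, e2 f) / (ρ ^ 2 / 2)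
        ≤ (70 * L ^ 2 * (4 / π * (Real.sqrt ι1 + Real.sqrt ι2 + p5) + 2 * p5)
          + 70 * L * τ) / (ρ ^ 2 / 2) := by
      apply div_le_div_of_nonneg_right _ (by positivity)
      have h4 : 70 * (L : ℝ) ^ 2 * (∑ f ∈ V, e1 f + 2 * p5)
          ≤ 70 * (L : ℝ) ^ 2 * (4 / π * (Real.sqrt ι1 + Real.sqrt ι2 + p5) + 2 * p5) :=
        mul_le_mul_of_nonneg_left (by linarith) (by positivity)
      have h5 : 35 * (L : ℝ) * ∑ f ∈ V, e2 f ≤ 35 * (L : ℝ) * (2 * τ) :=
        mul_le_mul_of_nonneg_left s2 (by positivity)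
      linarith
    linarith

end Pool.S6Y
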